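import Mathlib
import Pool.Agent.Lib.MP_00e05b_nt.VProps
import Pool.Agent.Lib.MP_00e05b_nt.WeightedBase

/-!
# Partial summation with the weights `V(n) = e^{-y/2} W(log n - y)`

`abel` in `WeightedBase.lean` (real version: cast or redo), `Vw_diff`, `Vw_le`, `Vw_small`, `Vw_large` in `VProps.lean`, `bump_of_smooth` in `BumpF.lean` (derivative bound `K`).
With `U(n) = V(n) ^ 2` or `U(n) = V(n) V(n + j)`: `|U(M) - U(M + 1)| ≤ 2 e^{-y/2} 6 K e^{-3y/2}` for `M ≥ 1`, `U(N + 1) = 0` for `N = ⌊e ^ (y + 1)⌋`, `U(n) = 0` for `n ≤ e ^ (y - 1)`, so `|∑ U d| ≤ ∑_M |U(M) - U(M+1)| E ≤ 12 K e^{-2y} e^{y+1} E`.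
For `abel_VV`: `(M + j).toNat`; if `M + j ≤ 0` then both values are `V 0 = 0` or `V(M + 1 + j) = V(1) = 0` (`y ≥ 10`; `Real.log 0 = 0`, `W(-y) = 0`, `Vw_small`). As `j.natAbs ≤ e ^ (y/4) + 1 ≤ e ^ (y - 1)`, the terms `n ≤ j.natAbs` vanish. In `abel_VV` the sums `∑_{n ≤ M} d(n)` may be replaced by `∑_{j.natAbs < n ≤ M} d(n)`.
-/

set_option autoImplicit false

open Finset Real
open scoped ContDiff

namespace Pool.Agent.Lib.MP_00e05b_nt.PC

open Pool.Agent.Lib.MP_2a816b_nt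

private lemma abelR (U d : ℕ → ℝ) (N : ℕ) :
    ∑ n ∈ Ioc 0 N, U n * d n = U (N + 1) * ∑ n ∈ Ioc 0 N, d n +
      ∑ M ∈ Ioc 0 N, (U M - U (M + 1)) * ∑ n ∈ Ioc 0 M, d n := by
  induction N with
  | zero => simp
  | succ N ih =>
    rw [Finset.sum_Ioc_succ_top (Nat.zero_le N), Finset.sum_Ioc_succ_top (Nat.zero_le N),
      Finset.sum_Ioc_succ_top (Nat.zero_le N) (fun M => (U M - U (M + 1)) * ∑ n ∈ Ioc 0 M, d n),
      ih, Finset.sum_Ioc_succ_top (Nat.zero_le N)]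
    ring

private lemma abel_bound (U d : ℕ → ℝ) (N : ℕ) (D E : ℝ) (hN : U (N + 1) = 0)
    (hD : ∀ M, 0 < M → |U M - U (M + 1)| ≤ D) (hE : ∀ M, M ≤ N → |∑ n ∈ Ioc 0 M, d n| ≤ E) :
    |∑ n ∈ Ioc 0 N, U n * d n| ≤ N * (D * E) := by
  rw [abelR, hN, zero_mul, zero_add]
  have hD0 : 0 ≤ D := (abs_nonneg _).trans (hD 1 one_pos)
  calc |∑ M ∈ Ioc 0 N, (U M - U (M + 1)) * ∑ n ∈ Ioc 0 M, d n|
      ≤ ∑ M ∈ Ioc 0 N, |(U M - U (M + 1)) * ∑ n ∈ Ioc 0 M, d n| := abs_sum_le_sum_abs _ _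
    _ ≤ ∑ M ∈ Ioc 0 N, D * E := by
        apply sum_le_sum
        intro M hM
        rw [mem_Ioc] at hM
        rw [abs_mul]
        exact mul_le_mul (hD M hM.1) (hE M hM.2) (abs_nonneg _) hD0
    _ = N * (D * E) := by
        rw [sum_const, Nat.card_Ioc, nsmul_eq_mul, Nat.sub_zero]

private lemma floor_bound {K y E : ℝ} (hK : 0 ≤ K) (hE : 0 ≤ E) :
    ((⌊Real.exp (y + 1)⌋₊ : ℕ) : ℝ) *
      (2 * (6 * K * Real.exp (-(y / 2)) * Real.exp (-y)) * Real.exp (-(y / 2)) * E) ≤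
      36 * K * Real.exp (-y) * E := by
  have h1 : ((⌊Real.exp (y + 1)⌋₊ : ℕ) : ℝ) ≤ Real.exp (y + 1) := Nat.floor_le (Real.exp_pos _).le
  have h2 : Real.exp (y + 1) = Real.exp 1 * Real.exp y := by rw [← Real.exp_add]; congr 1; ring
  have h3 : Real.exp (-(y / 2)) * Real.exp (-(y / 2)) = Real.exp (-y) := by
    rw [← Real.exp_add]; congr 1; ring
  have h4 : Real.exp y * Real.exp (-y) = 1 := by rw [← Real.exp_add]; simp
  have h5 : Real.exp 1 ≤ 3 := by have := Real.exp_one_lt_d9; linarith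
  calc ((⌊Real.exp (y + 1)⌋₊ : ℕ) : ℝ) *
      (2 * (6 * K * Real.exp (-(y / 2)) * Real.exp (-y)) * Real.exp (-(y / 2)) * E)
      ≤ (Real.exp 1 * Real.exp y) *
      (2 * (6 * K * Real.exp (-(y / 2)) * Real.exp (-y)) * Real.exp (-(y / 2)) * E) := by
        rw [← h2]
        gcongr
    _ = Real.exp 1 * (12 * K * (Real.exp y * Real.exp (-y)) *
        (Real.exp (-(y / 2)) * Real.exp (-(y / 2))) * E) := by ring
    _ = Real.exp 1 * (12 * K * Real.exp (-y) * E) := by rw [h3, h4]; ring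
    _ ≤ 3 * (12 * K * Real.exp (-y) * E) := by gcongr
    _ = _ := by ring

private lemma exists_K {W : ℝ → ℝ} (hW : ContDiff ℝ ∞ W)
    (hs : ∀ u, 3 / 4 ≤ |u| → W u = 0) : ∃ K : ℝ, 0 ≤ K ∧
      (∀ u, HasDerivAt W (deriv W u) u) ∧ ∀ u, |deriv W u| ≤ K := by
  obtain ⟨K, hK⟩ := bump_of_smooth hW hs
  exact ⟨K, (abs_nonneg _).trans (hK.b0 0), hK.d0, hK.b1⟩

theorem abel_V2 {W : ℝ → ℝ} (hW : ContDiff ℝ ∞ W) (h0 : ∀ u, 0 ≤ W u) (h1 : ∀ u, W u ≤ 1)
    (hs : ∀ u, 3 / 4 ≤ |u| → W u = 0) : ∃ K : ℝ, 0 ≤ K ∧ ∀ y : ℝ, 10 ≤ y →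
    ∀ (d : ℕ → ℝ) (E : ℝ),
      (∀ M : ℕ, M ≤ ⌊Real.exp (y + 1)⌋₊ → |∑ n ∈ Ioc 0 M, d n| ≤ E) →
      |∑ n ∈ Ioc 0 ⌊Real.exp (y + 1)⌋₊, Vw W y n ^ 2 * d n| ≤ K * Real.exp (-y) * E := by
  obtain ⟨K, hK0, hd, hK⟩ := exists_K hW hs
  refine ⟨36 * K, by positivity, ?_⟩
  intro y hy d E hE
  have hE0 : 0 ≤ E := (abs_nonneg _).trans (hE 0 (Nat.zero_le _))
  have h3 := abel_bound (fun n => Vw W y n ^ 2) d ⌊Real.exp (y + 1)⌋₊
    (2 * (6 * K * Real.exp (-(y / 2)) * Real.exp (-y)) * Real.exp (-(y / 2))) E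
    (by simp only [Vw_large hs y _ (Nat.lt_succ_self _)]; norm_num)
    (by
      intro M hM
      have h4 := Vw_diff hs hd hK y (by linarith) M hM
      have h5 : |Vw W y M + Vw W y (M + 1)| ≤ 2 * Real.exp (-(y / 2)) := by
        rw [abs_of_nonneg (add_nonneg (Vw_nonneg h0 y M) (Vw_nonneg h0 y (M + 1)))]
        linarith [Vw_le h1 y M, Vw_le h1 y (M + 1)]
      calc |Vw W y M ^ 2 - Vw W y (M + 1) ^ 2| =
          |Vw W y M - Vw W y (M + 1)| * |Vw W y M + Vw W y (M + 1)| := by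
            rw [← abs_mul]; congr 1; ring
        _ ≤ (6 * K * Real.exp (-(y / 2)) * Real.exp (-y)) * (2 * Real.exp (-(y / 2))) :=
            mul_le_mul h4 h5 (abs_nonneg _) (by positivity)
        _ = _ := by ring)
    hE
  exact h3.trans (floor_bound hK0 hE0)

theorem abel_VV {W : ℝ → ℝ} (hW : ContDiff ℝ ∞ W) (h0 : ∀ u, 0 ≤ W u) (h1 : ∀ u, W u ≤ 1)
    (hs : ∀ u, 3 / 4 ≤ |u| → W u = 0) : ∃ K : ℝ, 0 ≤ K ∧ ∀ y : ℝ, 10 ≤ y →
    ∀ j : ℤ, |(j : ℝ)| ≤ Real.exp (y / 4) → ∀ (d : ℕ → ℝ) (E : ℝ),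
      (∀ M : ℕ, j.natAbs ≤ M → M ≤ ⌊Real.exp (y + 1)⌋₊ → |∑ n ∈ Ioc j.natAbs M, d n| ≤ E) →
      |∑ n ∈ Ioc 0 ⌊Real.exp (y + 1)⌋₊, Vw W y n * Vw W y ((n : ℤ) + j).toNat * d n| ≤
        K * Real.exp (-y) * E := by
  obtain ⟨K, hK0, hd, hK⟩ := exists_K hW hs
  refine ⟨36 * K, by positivity, ?_⟩
  intro y hy j hj d E hE
  have hjr : (j.natAbs : ℝ) = |(j : ℝ)| := by
    exact Nat.cast_natAbs j |>.trans (Int.cast_abs)
  have hj1 : j.natAbs ≤ ⌊Real.exp (y - 1)⌋₊ := by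
    apply Nat.le_floor
    rw [hjr]
    exact hj.trans (Real.exp_le_exp.2 (by linarith))
  have hj2 : j.natAbs ≤ ⌊Real.exp (y + 1)⌋₊ :=
    hj1.trans (Nat.floor_le_floor (Real.exp_le_exp.2 (by linarith)))
  have hE0 : 0 ≤ E := (abs_nonneg _).trans (hE j.natAbs le_rfl hj2)
  -- values at 0 and 1
  have hV0 : Vw W y 0 = 0 := by
    unfold Vw
    rw [Nat.cast_zero, Real.log_zero, hs (0 - y) (by
      rw [zero_sub, abs_neg, abs_of_nonneg (by linarith)]; linarith), mul_zero]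
  have hV1 : Vw W y 1 = 0 := by
    apply Vw_small hs y 1 one_pos
    apply Nat.le_floor
    rw [Nat.cast_one]
    exact Real.one_le_exp (by linarith)
  set d' : ℕ → ℝ := fun n => if j.natAbs < n then d n else 0 with hd'
  have e1 : ∑ n ∈ Ioc 0 ⌊Real.exp (y + 1)⌋₊, Vw W y n * Vw W y ((n : ℤ) + j).toNat * d n =
      ∑ n ∈ Ioc 0 ⌊Real.exp (y + 1)⌋₊, (Vw W y n * Vw W y ((n : ℤ) + j).toNat) * d' n := by
    apply sum_congr rfl
    intro n hn
    rw [mem_Ioc] at hn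
    by_cases h : j.natAbs < n
    · simp only [hd', if_pos h]
    · rw [Vw_small hs y n hn.1 (by omega)]
      simp
  have e2 : ∀ M : ℕ, M ≤ ⌊Real.exp (y + 1)⌋₊ → |∑ n ∈ Ioc 0 M, d' n| ≤ E := by
    intro M hM
    rcases le_or_gt j.natAbs M with h | h
    · have : ∑ n ∈ Ioc 0 M, d' n = ∑ n ∈ Ioc j.natAbs M, d n := by
        rw [← Finset.sum_Ioc_consecutive d' (Nat.zero_le _) h]
        rw [sum_eq_zero (s := Ioc 0 j.natAbs) (fun n hn => by
          rw [mem_Ioc] at hn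
          simp only [hd', if_neg (not_lt.2 hn.2)]), zero_add]
        apply sum_congr rfl
        intro n hn
        rw [mem_Ioc] at hn
        simp only [hd', if_pos hn.1]
      rw [this]
      exact hE M h hM
    · rw [sum_eq_zero (fun n hn => by
        rw [mem_Ioc] at hn
        simp only [hd', if_neg (show ¬ j.natAbs < n by omega)]), abs_zero]
      exact hE0
  rw [e1]
  have h3 := abel_bound (fun n => Vw W y n * Vw W y ((n : ℤ) + j).toNat) d' ⌊Real.exp (y + 1)⌋₊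
    (2 * (6 * K * Real.exp (-(y / 2)) * Real.exp (-y)) * Real.exp (-(y / 2))) E
    (by simp only [Vw_large hs y _ (Nat.lt_succ_self _), zero_mul])
    (by
      intro M hM
      have h4 := Vw_diff hs hd hK y (by linarith) M hM
      have h5 : |Vw W y ((M : ℤ) + j).toNat - Vw W y (((M + 1 : ℕ) : ℤ) + j).toNat| ≤
          6 * K * Real.exp (-(y / 2)) * Real.exp (-y) := by
        rcases lt_or_ge 0 ((M : ℤ) + j) with h | h
        · have e3 : (((M + 1 : ℕ) : ℤ) + j).toNat = ((M : ℤ) + j).toNat + 1 := by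
            push_cast
            omega
          rw [e3]
          exact Vw_diff hs hd hK y (by linarith) _ (by omega)
        · have e3 : ((M : ℤ) + j).toNat = 0 := by omega
          have e4 : (((M + 1 : ℕ) : ℤ) + j).toNat = 0 ∨ (((M + 1 : ℕ) : ℤ) + j).toNat = 1 := by
            push_cast
            omega
          rw [e3, hV0]
          rcases e4 with e4 | e4
          · rw [e4, hV0, sub_zero, abs_zero]; positivity
          · rw [e4, hV1, sub_zero, abs_zero]; positivity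
      have b1 : |Vw W y ((M : ℤ) + j).toNat| ≤ Real.exp (-(y / 2)) := by
        rw [abs_of_nonneg (Vw_nonneg h0 y _)]; exact Vw_le h1 y _
      have b2 : |Vw W y (M + 1)| ≤ Real.exp (-(y / 2)) := by
        rw [abs_of_nonneg (Vw_nonneg h0 y _)]; exact Vw_le h1 y _
      calc |Vw W y M * Vw W y ((M : ℤ) + j).toNat -
            Vw W y (M + 1) * Vw W y (((M + 1 : ℕ) : ℤ) + j).toNat| =
          |(Vw W y M - Vw W y (M + 1)) * Vw W y ((M : ℤ) + j).toNat + Vw W y (M + 1) *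
            (Vw W y ((M : ℤ) + j).toNat - Vw W y (((M + 1 : ℕ) : ℤ) + j).toNat)| := by
              congr 1; ring
        _ ≤ |Vw W y M - Vw W y (M + 1)| * |Vw W y ((M : ℤ) + j).toNat| + |Vw W y (M + 1)| *
            |Vw W y ((M : ℤ) + j).toNat - Vw W y (((M + 1 : ℕ) : ℤ) + j).toNat| := by
              rw [← abs_mul, ← abs_mul]; exact abs_add_le _ _
        _ ≤ (6 * K * Real.exp (-(y / 2)) * Real.exp (-y)) * Real.exp (-(y / 2)) +
            Real.exp (-(y / 2)) * (6 * K * Real.exp (-(y / 2)) * Real.exp (-y)) := by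
              gcongr
        _ = _ := by ring)
    e2
  exact h3.trans (floor_bound hK0 hE0)

end Pool.Agent.Lib.MP_00e05b_nt.PC
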