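import Mathlib
import Pool.Agent.Lib.MP_00e05b_nt.PC.PAbel
import Pool.Agent.Lib.MP_2a816b_nt.BH.Minor

/-!
# JOB PCorr: the correlations with smooth weights

`corr_gt` with `X = e ^ y`, `A = j.natAbs`, `A + N = M ≤ ⌊e ^ (y+1)⌋ ≤ 3 X`, and `abel_VV`: `K e^{-y} X ^ (1 - ε / 50) ≤ e ^ (-(ε / 60) y)`.
`gt_bound`: `abs_FQ_le` with `T = X ^ τ₀` (`ev_Lg`) for `Q1` and `Q2` (elements `≤ X ^ 0.501`), `|lam| ≤ 1`; `T ^ 3 · 2 ≤ X ^ (1/10)`; `vM n ≤ log n ≤ X ^ (1/10)`.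
-/

set_option autoImplicit false

open Finset Real
open scoped ContDiff

namespace Pool.Agent.Lib.MP_00e05b_nt.PC

open Pool.Agent.Lib.MP_2a816b_nt Pool.Agent.Lib.MP_2a816b_nt.BH

theorem corr_V {W : ℝ → ℝ} (hW : ContDiff ℝ ∞ W) (h0 : ∀ u, 0 ≤ W u) (h1 : ∀ u, W u ≤ 1)
    (hs : ∀ u, 3 / 4 ≤ |u| → W u = 0) (ε : ℝ) (hε : 0 < ε) (hε1 : ε ≤ 1 / 10 ^ 4) :
    ∃ Y₀ : ℝ, ∀ y : ℝ, Y₀ ≤ y → ∀ lam : ℝ, 0 ≤ lam → lam ≤ 1 → ∀ j : ℤ, j ≠ 0 →
      |(j : ℝ)| ≤ Real.exp (ε / 100 * y) →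
      |∑ n ∈ Ioc 0 ⌊Real.exp (y + 1)⌋₊, Vw W y n * Vw W y ((n : ℤ) + j).toNat *
        (vM n * gt (Real.exp y) ε lam ((n : ℤ) + j))| ≤ Real.exp (-(ε / 60) * y) ∧
      |∑ n ∈ Ioc 0 ⌊Real.exp (y + 1)⌋₊, Vw W y n * Vw W y ((n : ℤ) + j).toNat *
        (gt (Real.exp y) ε lam n * gt (Real.exp y) ε lam ((n : ℤ) + j))| ≤
          Real.exp (-(ε / 60) * y) := by
  obtain ⟨K, hK0, hK⟩ := abel_VV hW h0 h1 hs
  obtain ⟨X₀, hX₀⟩ := corr_gt ε hε hε1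
  obtain ⟨Y1, hY1⟩ := Filter.eventually_atTop.1
    (ev_exp 0 K (-(ε / 50)) (-(ε / 60)) (by linarith))
  refine ⟨max 10 (max X₀ Y1), fun y hy lam hl0 hl1 j hj hjy => ?_⟩
  have hy10 : 10 ≤ y := (le_max_left _ _).trans hy
  have hyX : X₀ ≤ Real.exp y := by
    have h2 : X₀ ≤ y := (le_max_left _ _).trans ((le_max_right _ _).trans hy)
    have := Real.add_one_le_exp y
    linarith
  have hyY := hY1 y ((le_max_right _ _).trans ((le_max_right _ _).trans hy))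
  rw [pow_zero, mul_one] at hyY
  have hX : ∀ s : ℝ, Real.exp y ^ s = Real.exp (y * s) := fun s => (Real.exp_mul y s).symm
  have hj4 : |(j : ℝ)| ≤ Real.exp (y / 4) := by
    refine hjy.trans (Real.exp_le_exp.2 ?_)
    norm_num at hε1
    nlinarith
  have hjX : |(j : ℝ)| ≤ Real.exp y ^ (ε / 100) := by
    rw [hX, mul_comm y]
    exact hjy
  have hfin : K * Real.exp (-y) * Real.exp y ^ (1 - ε / 50) ≤ Real.exp (-(ε / 60) * y) := by
    rw [hX, mul_assoc, ← Real.exp_add]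
    refine le_trans (le_of_eq ?_) hyY
    congr 2
    ring
  have hMX : ∀ M : ℕ, M ≤ ⌊Real.exp (y + 1)⌋₊ → (M : ℝ) ≤ 3 * Real.exp y := by
    intro M hM
    have h2 : (M : ℝ) ≤ Real.exp (y + 1) := (Nat.le_floor_iff (Real.exp_pos _).le).1 hM
    rw [Real.exp_add] at h2
    have h3 := Real.exp_one_lt_d9
    have h4 := Real.exp_pos y
    nlinarith
  have hAj : 0 ≤ ((j.natAbs : ℕ) : ℤ) + j := by omega
  constructor
  · refine (hK y hy10 j hj4 (fun n => vM n * gt (Real.exp y) ε lam ((n : ℤ) + j))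
      (Real.exp y ^ (1 - ε / 50)) ?_).trans hfin
    intro M hM1 hM2
    have hMe : j.natAbs + (M - j.natAbs) = M := by omega
    have h5 := ((hX₀ (Real.exp y) hyX lam hl0 hl1 j.natAbs (M - j.natAbs)
      (by rw [hMe]; exact hMX M hM2)).1 j hj hjX hAj).1
    rw [hMe] at h5
    exact h5
  · refine (hK y hy10 j hj4
      (fun n => gt (Real.exp y) ε lam n * gt (Real.exp y) ε lam ((n : ℤ) + j))
      (Real.exp y ^ (1 - ε / 50)) ?_).trans hfin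
    intro M hM1 hM2
    have hMe : j.natAbs + (M - j.natAbs) = M := by omega
    have h5 := ((hX₀ (Real.exp y) hyX lam hl0 hl1 j.natAbs (M - j.natAbs)
      (by rw [hMe]; exact hMX M hM2)).1 j hj hjX hAj).2
    rw [hMe] at h5
    exact h5

theorem gt_bound (ε : ℝ) (hε : 0 < ε) (hε1 : ε ≤ 1 / 10 ^ 4) : ∃ Y₀ : ℝ, ∀ y : ℝ, Y₀ ≤ y →
    ∀ lam : ℝ, 0 ≤ lam → lam ≤ 1 → ∀ n : ℕ, 0 < n → (n : ℝ) ≤ Real.exp (y + 1) →
      |gt (Real.exp y) ε lam n| ≤ Real.exp (y / 10) ∧ vM n ≤ Real.exp (y / 10) := by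
  obtain ⟨X₁, hX₁⟩ := ev_Lg 0
  obtain ⟨Y1, hY1⟩ := Filter.eventually_atTop.1
    (ev_exp 1 2 0 (1 / 10) (by norm_num))
  refine ⟨max 10 (max X₁ Y1), fun y hy lam hl0 hl1 n hn hny => ?_⟩
  have hy10 : 10 ≤ y := (le_max_left _ _).trans hy
  have hyX : X₁ ≤ Real.exp y := by
    have h2 : X₁ ≤ y := (le_max_left _ _).trans ((le_max_right _ _).trans hy)
    have := Real.add_one_le_exp y
    linarith
  have hyY := hY1 y ((le_max_right _ _).trans ((le_max_right _ _).trans hy))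
  have hLg := hX₁ (Real.exp y) hyX
  have hX : ∀ s : ℝ, Real.exp y ^ s = Real.exp (y * s) := fun s => (Real.exp_mul y s).symm
  set T := Real.exp y ^ tau0 with hT
  have hT10 : (10 : ℝ) ^ 10 ≤ T := hLg.h10
  have hT1 : (2 : ℝ) ≤ T := by norm_num at hT10; linarith
  have hT0 : 0 < T := by linarith
  have hQ2 : ∀ q ∈ Q2 (Real.exp y), Squarefree q ∧ q ≤ ⌊Real.exp y ^ (10 : ℝ)⌋₊ := by
    intro q hq
    obtain ⟨h1, _, h3⟩ := mem_Q2 hLg hq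
    refine ⟨h1, Nat.le_floor (h3.trans ?_)⟩
    apply Real.rpow_le_rpow_of_exponent_le hLg.X1
    norm_num
  have hQ1 : ∀ q ∈ Q1 (Real.exp y) ε, Squarefree q ∧ q ≤ ⌊Real.exp y ^ (10 : ℝ)⌋₊ := by
    intro q hq
    unfold Q1 at hq
    rw [mem_filter, mem_Ioc] at hq
    refine ⟨hq.2, hq.1.2.trans ?_⟩
    apply Nat.floor_le_floor
    apply Real.rpow_le_rpow_of_exponent_le hLg.X1
    linarith
  have hn0 : (n : ℤ) ≠ 0 := by exact_mod_cast hn.ne'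
  have hnM : (n : ℤ).natAbs ≤ ⌊Real.exp y ^ (10 : ℝ)⌋₊ := by
    rw [Int.natAbs_natCast]
    apply Nat.le_floor
    refine hny.trans ?_
    rw [hX]
    apply Real.exp_le_exp.2
    linarith
  have g1 := abs_FQ_le hLg.big (Q1 (Real.exp y) ε) hQ1 n hn0 hnM
  have g2 := abs_FQ_le hLg.big (Q2 (Real.exp y)) hQ2 n hn0 hnM
  constructor
  · unfold gt
    have h3 : |lam * FQ (Q2 (Real.exp y)) n| ≤ 1 * T ^ 3 := by
      rw [abs_mul, abs_of_nonneg hl0]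
      exact mul_le_mul hl1 g2 (abs_nonneg _) zero_le_one
    have h4 : T ^ 3 + 1 * T ^ 3 ≤ T ^ 4 := by
      have : T ^ 4 = T * T ^ 3 := by ring
      have h5 : 0 < T ^ 3 := by positivity
      nlinarith
    have h6 : T ^ 4 ≤ Real.exp (y / 10) := by
      rw [hT, hX, ← Real.exp_nat_mul]
      apply Real.exp_le_exp.2
      unfold tau0
      push_cast
      nlinarith
    calc _ ≤ |FQ (Q1 (Real.exp y) ε) n| + |lam * FQ (Q2 (Real.exp y)) n| := abs_add_le _ _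
      _ ≤ T ^ 3 + 1 * T ^ 3 := add_le_add g1 h3
      _ ≤ _ := h4.trans h6
  · have h2 : Real.log n ≤ y + 1 := by
      rw [Real.log_le_iff_le_exp (by exact_mod_cast hn)]
      exact hny
    have h3 := vM_le_log n
    rw [pow_one, zero_mul, Real.exp_zero, mul_one, show (1 : ℝ) / 10 * y = y / 10 by ring] at hyY
    linarith

end Pool.Agent.Lib.MP_00e05b_nt.PC
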