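import Mathlib
import Pool.Agent.Lib.MP_2a816b_nt.BH.CrossC

/-!
# JOB PFull: two-sided version of `BN_full` (`MP_2a816b_nt/BH/CrossC.lean`)

Adapt the proof of `BN_full`: all the estimates in it are two-sided (see the header of `CrossC.lean`).
-/

set_option autoImplicit false

open Finset Real
open scoped Pointwise

namespace Pool.Agent.Lib.MP_00e05b_nt.PC

open Pool.Agent.Lib.MP_2a816b_nt Pool.Agent.Lib.MP_2a816b_nt.BH

variable {X T C : ℝ}

/-- inner sum minus its mean value -/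
private noncomputable def PFull_crossCD (X : ℝ) (N u q : ℕ) : ℝ :=
  ∑ n ∈ Ioc 0 (N / u), bc q n * FQ (RS X) n -
    (N : ℝ) / u * (if q ∈ RS X then 1 / (q.totient : ℝ) else 0)

private lemma PFull_crossC_RS_card (hX1 : 1 ≤ X) : ((RS X).card : ℝ) ≤ X ^ eps4 := by
  have h1 : (RS X).card ≤ ⌊X ^ eps4⌋₊ := by
    unfold RS
    refine (Finset.card_filter_le _ _).trans ?_
    rw [Nat.card_Ioc, Nat.sub_zero]
  have h2 : ((RS X).card : ℝ) ≤ (⌊X ^ eps4⌋₊ : ℝ) := by exact_mod_cast h1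
  exact h2.trans (Nat.floor_le (rpow_nonneg (by linarith) _))

private lemma PFull_crossCD_le (hX : Lg X T C) (N u q : ℕ) (hq : Squarefree q)
    (hqM : q ≤ ⌊X ^ (10 : ℝ)⌋₊) : |PFull_crossCD X N u q| ≤ 3 * T ^ 4 * X ^ eps4 := by
  have hX1 := hX.X1
  have hX0 : 0 < X := by linarith
  have hT10 := hX.h10
  have hT1 : 1 ≤ T := by norm_num at hT10; linarith
  have hT4 : 1 ≤ T ^ 4 := one_le_pow₀ hT1
  have hXe : 1 ≤ X ^ eps4 := one_le_rpow hX1 (by unfold eps4; norm_num)
  have hRM : ∀ r ∈ RS X, Squarefree r ∧ r ≤ ⌊X ^ (10 : ℝ)⌋₊ := by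
    intro r hr
    obtain ⟨h1, h2, h3⟩ := mem_RS hr hX1
    refine ⟨h1, Nat.le_floor (h3.trans ?_)⟩
    apply rpow_le_rpow_of_exponent_le hX1
    unfold eps4
    norm_num
  have e1 : ∑ n ∈ Ioc 0 (N / u), bc q n * FQ (RS X) n =
      ∑ r ∈ RS X, ∑ n ∈ Ioc 0 (N / u), bc q n * bc r n := by
    rw [Finset.sum_comm]
    refine Finset.sum_congr rfl fun n _ => ?_
    unfold FQ
    rw [Finset.mul_sum]
  have e2 : ((N / u : ℕ) : ℝ) * (if q ∈ RS X then 1 / (q.totient : ℝ) else 0) =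
      ∑ r ∈ RS X, (if q = r then ((N / u : ℕ) : ℝ) * (1 / (q.totient : ℝ)) else 0) := by
    rw [Finset.sum_ite_eq (RS X) q]
    split_ifs <;> simp
  have p1 : |∑ n ∈ Ioc 0 (N / u), bc q n * FQ (RS X) n -
      ((N / u : ℕ) : ℝ) * (if q ∈ RS X then 1 / (q.totient : ℝ) else 0)| ≤
      2 * T ^ 4 * X ^ eps4 := by
    rw [e1, e2, ← Finset.sum_sub_distrib]
    refine (Finset.abs_sum_le_sum_abs _ _).trans ?_
    calc ∑ r ∈ RS X, |∑ n ∈ Ioc 0 (N / u), bc q n * bc r n -
          (if q = r then ((N / u : ℕ) : ℝ) * (1 / (q.totient : ℝ)) else 0)|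
        ≤ ∑ r ∈ RS X, 2 * T ^ 4 := by
          refine Finset.sum_le_sum fun r hr => ?_
          obtain ⟨hr1, hr2⟩ := hRM r hr
          by_cases hqr : q = r
          · subst hqr
            rw [if_pos rfl]
            have := corr_eq hX.big hq hqM 0 0 (N / u)
            rw [bq_bc_zero hq] at this
            simpa using this
          · rw [if_neg hqr, sub_zero]
            have := corr_ne hX.big hq hr1 hqM hr2 hqr 0 0 (N / u)
            simpa using this
      _ = (RS X).card * (2 * T ^ 4) := by rw [Finset.sum_const, nsmul_eq_mul]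
      _ ≤ X ^ eps4 * (2 * T ^ 4) :=
          mul_le_mul_of_nonneg_right (PFull_crossC_RS_card hX1) (by positivity)
      _ = 2 * T ^ 4 * X ^ eps4 := by ring
  have hφ : (if q ∈ RS X then 1 / (q.totient : ℝ) else 0) ≤ 1 := by
    split_ifs
    · have : (1 : ℝ) ≤ q.totient := by
        exact_mod_cast Nat.totient_pos.2 (Nat.pos_of_ne_zero hq.ne_zero)
      rw [div_le_one (by linarith)]
      exact this
    · exact zero_le_one
  have hφ0 : 0 ≤ (if q ∈ RS X then 1 / (q.totient : ℝ) else 0) := by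
    split_ifs
    · positivity
    · exact le_rfl
  have p2 : |((N / u : ℕ) : ℝ) * (if q ∈ RS X then 1 / (q.totient : ℝ) else 0) -
      (N : ℝ) / u * (if q ∈ RS X then 1 / (q.totient : ℝ) else 0)| ≤ 1 := by
    rw [← sub_mul, abs_mul, abs_of_nonneg hφ0]
    have h1 : ((N / u : ℕ) : ℝ) ≤ (N : ℝ) / u := Nat.cast_div_le
    have h2 : (N : ℝ) / u - 1 ≤ ((N / u : ℕ) : ℝ) := by
      rcases Nat.eq_zero_or_pos u with h0 | h0
      · subst h0
        simp
      · have := Nat.lt_floor_add_one ((N : ℝ) / u)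
        rw [Nat.floor_div_natCast, Nat.floor_natCast] at this
        linarith
    have h3 : |((N / u : ℕ) : ℝ) - (N : ℝ) / u| ≤ 1 := by
      rw [abs_le]
      constructor <;> linarith
    calc _ ≤ 1 * 1 := mul_le_mul h3 hφ hφ0 zero_le_one
      _ = 1 := one_mul 1
  unfold PFull_crossCD
  have hE : 1 ≤ T ^ 4 * X ^ eps4 := by nlinarith
  have := abs_sub_le (∑ n ∈ Ioc 0 (N / u), bc q n * FQ (RS X) n)
    (((N / u : ℕ) : ℝ) * (if q ∈ RS X then 1 / (q.totient : ℝ) else 0))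
    ((N : ℝ) / u * (if q ∈ RS X then 1 / (q.totient : ℝ) else 0))
  linarith

private lemma PFull_crossC_mu_sq {g : ℕ} (hg : Squarefree g) :
    ((ArithmeticFunction.moebius g : ℤ) : ℝ) * ((ArithmeticFunction.moebius g : ℤ) : ℝ) = 1 := by
  have h := ArithmeticFunction.abs_moebius_eq_one_of_squarefree hg
  have h2 : (ArithmeticFunction.moebius g) * (ArithmeticFunction.moebius g) = 1 := by
    rw [← abs_mul_abs_self, h, mul_one]
  exact_mod_cast h2

private lemma PFull_crossC_bc_zero {g : ℕ} (hg : Squarefree g) :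
    bc g 0 = ((ArithmeticFunction.moebius g : ℤ) : ℝ) := by
  have h := bq_bc_zero hg
  unfold bq at h
  have hφ : (0 : ℝ) < g.totient := by
    exact_mod_cast Nat.totient_pos.2 (Nat.pos_of_ne_zero hg.ne_zero)
  have h1 : ((ArithmeticFunction.moebius g : ℤ) : ℝ) * bc g 0 = 1 := by
    field_simp at h
    exact h
  calc bc g 0 = (((ArithmeticFunction.moebius g : ℤ) : ℝ) *
        ((ArithmeticFunction.moebius g : ℤ) : ℝ)) * bc g 0 := by rw [PFull_crossC_mu_sq hg, one_mul]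
    _ = ((ArithmeticFunction.moebius g : ℤ) : ℝ) *
        (((ArithmeticFunction.moebius g : ℤ) : ℝ) * bc g 0) := by ring
    _ = _ := by rw [h1, mul_one]

private lemma PFull_crossC_bc {q u : ℕ} (hq : Squarefree q) (n : ℤ) :
    bc q ((u : ℤ) * n) =
      ((ArithmeticFunction.moebius (q.gcd u) : ℤ) : ℝ) * bc (q / q.gcd u) n := by
  obtain ⟨h1, h2⟩ := RamA_split hq (u : ℤ)
  rw [Int.natAbs_natCast] at h1 h2
  set g := q.gcd u with hg
  set r := q / g with hr
  have hgs : Squarefree g := hq.squarefree_of_dvd (Nat.gcd_dvd_left _ _)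
  have hq0 : q ≠ 0 := hq.ne_zero
  have hr0 : r ≠ 0 := by
    intro h
    rw [h, mul_zero] at h1
    exact hq0 h1
  have hcop : u.Coprime r := by
    have a1 : u.gcd r ∣ g := by
      rw [hg]
      apply Nat.dvd_gcd _ (Nat.gcd_dvd_left _ _)
      rw [h1]
      exact (Nat.gcd_dvd_right u r).mul_left g
    have a2 : u.gcd r ∣ g.gcd r := Nat.dvd_gcd a1 (Nat.gcd_dvd_right u r)
    rw [h2] at a2
    exact Nat.dvd_one.1 a2
  have hgu : (g : ℤ) ∣ (u : ℤ) * n - 0 := by
    rw [sub_zero]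
    exact (Int.natCast_dvd_natCast.2 (Nat.gcd_dvd_right q u)).mul_right n
  calc bc q ((u : ℤ) * n) = bc (g * r) ((u : ℤ) * n) := by rw [← h1]
    _ = bc g ((u : ℤ) * n) * bc r ((u : ℤ) * n) := bc_mul h2 _
    _ = bc g 0 * bc r n := by
        rw [bc_congr hgu, bc_mul_arg hr0 (Nat.isCoprime_iff_coprime.2 hcop)]
    _ = _ := by rw [PFull_crossC_bc_zero hgs]

private lemma PFull_crossC_card (hX : Lg X T C) (ε : ℝ) (hε : 0 < ε) (u : ℕ)
    (hu : u ∈ ∏ i, PS X i) :
    (((Q1 X ε).filter (fun q => ¬ q.Coprime u)).card : ℝ) ≤ T * X ^ (49 / 100 : ℝ) := by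
  have hX1 := hX.X1
  have hX0 : 0 < X := by linarith
  have hT10 := hX.h10
  have hT1 : 1 ≤ T := by norm_num at hT10; linarith
  have hT0 : 0 < T := by linarith
  obtain ⟨hu1, hu2, hu3, hu4⟩ := mem_prod_PS hX univ hu
  have hu0 : u ≠ 0 := hu1.ne_zero
  have huM : u ≤ ⌊X ^ (10 : ℝ)⌋₊ := by
    apply Nat.le_floor
    refine hu3.trans ?_
    rw [exs_univ, hX.hT, ← rpow_add hX0]
    apply rpow_le_rpow_of_exponent_le hX1
    unfold tau0
    norm_num
  have hsub : (Q1 X ε).filter (fun q => ¬ q.Coprime u) ⊆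
      u.primeFactors.biUnion (fun p => (Ioc 0 ⌊X ^ (1 / 2 - ε)⌋₊).filter (fun q => p ∣ q)) := by
    intro q hq
    unfold Q1 at hq
    rw [mem_filter, mem_filter, mem_Ioc] at hq
    obtain ⟨⟨⟨a1, a2⟩, a3⟩, a4⟩ := hq
    rw [Nat.Prime.not_coprime_iff_dvd] at a4
    obtain ⟨p, hp, hpq, hpu⟩ := a4
    rw [mem_biUnion]
    refine ⟨p, Nat.mem_primeFactors.2 ⟨hp, hpu, hu0⟩, ?_⟩
    rw [mem_filter, mem_Ioc]
    exact ⟨⟨by omega, a2⟩, hpq⟩
  have h1 : ((Q1 X ε).filter (fun q => ¬ q.Coprime u)).card ≤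
      ∑ p ∈ u.primeFactors, ⌊X ^ (1 / 2 - ε)⌋₊ / p := by
    refine (Finset.card_le_card hsub).trans (Finset.card_biUnion_le.trans ?_)
    refine Finset.sum_le_sum fun p _ => ?_
    rw [Nat.Ioc_filter_dvd_card_eq_div]
  have h2 : ((∑ p ∈ u.primeFactors, ⌊X ^ (1 / 2 - ε)⌋₊ / p : ℕ) : ℝ) ≤
      ∑ p ∈ u.primeFactors, X ^ (49 / 100 : ℝ) := by
    push_cast
    refine Finset.sum_le_sum fun p hp => ?_
    have hp1 := hu4 p (Nat.prime_of_mem_primeFactors hp) (Nat.dvd_of_mem_primeFactors hp)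
    have hp0 : 0 < X ^ (1 / 100 : ℝ) := rpow_pos_of_pos hX0 _
    refine Nat.cast_div_le.trans ?_
    calc (⌊X ^ (1 / 2 - ε)⌋₊ : ℝ) / p ≤ X ^ (1 / 2 : ℝ) / X ^ (1 / 100 : ℝ) := by
          apply div_le_div₀ (rpow_nonneg hX0.le _) _ hp0 hp1
          refine (Nat.floor_le (rpow_nonneg hX0.le _)).trans ?_
          apply rpow_le_rpow_of_exponent_le hX1
          linarith
      _ = X ^ (49 / 100 : ℝ) := by
          rw [← rpow_sub hX0]
          norm_num
  have h3 : (u.primeFactors.card : ℝ) ≤ T := by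
    have a1 : u.primeFactors ⊆ u.divisors := by
      intro p hp
      exact Nat.mem_divisors.2 ⟨Nat.dvd_of_mem_primeFactors hp, hu0⟩
    have a2 : (u.primeFactors.card : ℝ) ≤ (u.divisors.card : ℝ) := by
      exact_mod_cast Finset.card_le_card a1
    exact a2.trans (hX.big.tau u (Nat.pos_of_ne_zero hu0) huM)
  calc (((Q1 X ε).filter (fun q => ¬ q.Coprime u)).card : ℝ)
      ≤ ((∑ p ∈ u.primeFactors, ⌊X ^ (1 / 2 - ε)⌋₊ / p : ℕ) : ℝ) := by exact_mod_cast h1
    _ ≤ ∑ p ∈ u.primeFactors, X ^ (49 / 100 : ℝ) := h2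
    _ = u.primeFactors.card * X ^ (49 / 100 : ℝ) := by rw [Finset.sum_const, nsmul_eq_mul]
    _ ≤ T * X ^ (49 / 100 : ℝ) := mul_le_mul_of_nonneg_right h3 (rpow_nonneg hX0.le _)

theorem BN_full2 (hX : Lg X T C) (ε : ℝ) (hε : 0 < ε) (hε1 : ε ≤ 1 / 100) (N u : ℕ)
    (hN : (N : ℝ) ≤ 4 * X) (hu : u ∈ ∏ i, PS X i) :
    |BN X ε N u - (N : ℝ) / u * mu X ε u -
      (∑ n ∈ Ioc 0 (N / u), FQ (RS X) n * AU ⌊X ^ (1 / 2 - ε)⌋₊ n u - (N : ℝ) / u * SR X)| ≤
        X ^ (491 / 1000 : ℝ) := by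
  have hX1 := hX.X1
  have hX0 : 0 < X := by linarith
  have hT10 := hX.h10
  have hT1 : 1 ≤ T := by norm_num at hT10; linarith
  have hT0 : 0 < T := by linarith
  set y := ⌊X ^ (1 / 2 - ε)⌋₊ with hy
  set y0 := ⌊X ^ ε⌋₊ with hy0
  have hy0y : y0 ≤ y := by
    apply Nat.floor_le_floor
    apply rpow_le_rpow_of_exponent_le hX1
    linarith
  have hyM : y ≤ ⌊X ^ (10 : ℝ)⌋₊ := by
    apply Nat.floor_le_floor
    apply rpow_le_rpow_of_exponent_le hX1
    linarith
  -- the left hand side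
  have e1 : BN X ε N u - (N : ℝ) / u * mu X ε u = ∑ q ∈ Q1 X ε,
      ((ArithmeticFunction.moebius (q.gcd u) : ℤ) : ℝ) * PFull_crossCD X N u (q / q.gcd u) := by
    unfold BN mu PFull_crossCD
    have a1 : ∑ n ∈ Ioc 0 (N / u), FQ (Q1 X ε) ((u : ℤ) * n) * FQ (RS X) n =
        ∑ q ∈ Q1 X ε, ((ArithmeticFunction.moebius (q.gcd u) : ℤ) : ℝ) *
          ∑ n ∈ Ioc 0 (N / u), bc (q / q.gcd u) n * FQ (RS X) n := by
      calc ∑ n ∈ Ioc 0 (N / u), FQ (Q1 X ε) ((u : ℤ) * n) * FQ (RS X) n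
          = ∑ n ∈ Ioc 0 (N / u), ∑ q ∈ Q1 X ε, bc q ((u : ℤ) * n) * FQ (RS X) n := by
            refine Finset.sum_congr rfl fun n _ => ?_
            rw [← Finset.sum_mul]
            rfl
        _ = ∑ q ∈ Q1 X ε, ∑ n ∈ Ioc 0 (N / u), bc q ((u : ℤ) * n) * FQ (RS X) n :=
            Finset.sum_comm
        _ = _ := by
            refine Finset.sum_congr rfl fun q hq => ?_
            have hqs : Squarefree q := by
              unfold Q1 at hq
              exact (mem_filter.1 hq).2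
            rw [Finset.mul_sum]
            refine Finset.sum_congr rfl fun n _ => ?_
            rw [PFull_crossC_bc hqs, mul_assoc]
    rw [a1, Finset.mul_sum, ← Finset.sum_sub_distrib]
    refine Finset.sum_congr rfl fun q _ => ?_
    ring
  -- the right hand side
  set Qa := (Ioc 0 y).filter (fun q => Squarefree q ∧ q.Coprime u) with hQa
  have hRS : RS X ⊆ Qa := by
    intro r hr
    obtain ⟨h1, h2, h3⟩ := mem_RS hr hX1
    rw [hQa, mem_filter, mem_Ioc]
    refine ⟨⟨h2, Nat.le_floor (h3.trans ?_)⟩, h1, cross_RS hX univ r hr u hu⟩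
    apply rpow_le_rpow_of_exponent_le hX1
    unfold eps4
    norm_num
    linarith
  have e2 : ∑ n ∈ Ioc 0 (N / u), FQ (RS X) n * AU y n u - (N : ℝ) / u * SR X =
      ∑ q ∈ Qa, PFull_crossCD X N u q := by
    unfold PFull_crossCD SR
    rw [Finset.sum_sub_distrib, ← Finset.mul_sum]
    congr 1
    · rw [Finset.sum_comm]
      refine Finset.sum_congr rfl fun n _ => ?_
      rw [← Finset.sum_mul, mul_comm]
      rfl
    · congr 1
      rw [← Finset.sum_filter]
      congr 1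
      ext r
      rw [mem_filter]
      constructor
      · intro h
        exact ⟨hRS h, h⟩
      · exact fun h => h.2
  -- splitting
  have hsplit1 : ∑ q ∈ Q1 X ε,
      ((ArithmeticFunction.moebius (q.gcd u) : ℤ) : ℝ) * PFull_crossCD X N u (q / q.gcd u) =
      ∑ q ∈ (Q1 X ε).filter (fun q => q.Coprime u), PFull_crossCD X N u q +
      ∑ q ∈ (Q1 X ε).filter (fun q => ¬ q.Coprime u),
        ((ArithmeticFunction.moebius (q.gcd u) : ℤ) : ℝ) * PFull_crossCD X N u (q / q.gcd u) := by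
    rw [← Finset.sum_filter_add_sum_filter_not (Q1 X ε) (fun q => q.Coprime u)]
    congr 1
    refine Finset.sum_congr rfl fun q hq => ?_
    have h := (mem_filter.1 hq).2
    rw [Nat.Coprime] at h
    rw [h, Nat.div_one]
    simp
  have hsplit2 : ∑ q ∈ Qa, PFull_crossCD X N u q =
      ∑ q ∈ (Q1 X ε).filter (fun q => q.Coprime u), PFull_crossCD X N u q +
      ∑ q ∈ (Ioc 0 y0).filter (fun q => Squarefree q ∧ q.Coprime u), PFull_crossCD X N u q := by
    rw [← Finset.sum_union]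
    · congr 1
      ext q
      unfold Q1
      rw [hQa, mem_union, mem_filter, mem_filter, mem_filter, mem_filter, mem_Ioc, mem_Ioc,
        mem_Ioc]
      constructor
      · rintro ⟨⟨a, b⟩, c, d⟩
        by_cases hq : q ≤ y0
        · exact Or.inr ⟨⟨a, hq⟩, c, d⟩
        · exact Or.inl ⟨⟨⟨by omega, b⟩, c⟩, d⟩
      · rintro (⟨⟨⟨a, b⟩, c⟩, d⟩ | ⟨⟨a, b⟩, c, d⟩)
        · exact ⟨⟨by omega, b⟩, c, d⟩
        · exact ⟨⟨a, by omega⟩, c, d⟩
    · rw [Finset.disjoint_left]
      intro q h1 h2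
      unfold Q1 at h1
      rw [mem_filter, mem_filter, mem_Ioc] at h1
      rw [mem_filter, mem_Ioc] at h2
      have := h1.1.1.1
      have := h2.1.2
      omega
  -- bounds
  set E := 3 * T ^ 4 * X ^ eps4 with hE
  have hE0 : 0 ≤ E := by positivity
  have b1 : |∑ q ∈ (Q1 X ε).filter (fun q => ¬ q.Coprime u),
      ((ArithmeticFunction.moebius (q.gcd u) : ℤ) : ℝ) * PFull_crossCD X N u (q / q.gcd u)| ≤
      T * X ^ (49 / 100 : ℝ) * E := by
    calc _ ≤ ∑ q ∈ (Q1 X ε).filter (fun q => ¬ q.Coprime u), E := by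
          refine (Finset.abs_sum_le_sum_abs _ _).trans (Finset.sum_le_sum fun q hq => ?_)
          have hq' := (mem_filter.1 hq).1
          unfold Q1 at hq'
          rw [mem_filter, mem_Ioc] at hq'
          obtain ⟨⟨a1, a2⟩, a3⟩ := hq'
          have hd : q / q.gcd u ∣ q := Nat.div_dvd_of_dvd (Nat.gcd_dvd_left _ _)
          have hle : q / q.gcd u ≤ ⌊X ^ (10 : ℝ)⌋₊ := (Nat.div_le_self _ _).trans (a2.trans hyM)
          have hb := PFull_crossCD_le hX N u (q / q.gcd u) (a3.squarefree_of_dvd hd) hle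
          have hm : |((ArithmeticFunction.moebius (q.gcd u) : ℤ) : ℝ)| ≤ 1 := by
            have := ArithmeticFunction.abs_moebius_le_one (n := q.gcd u)
            exact_mod_cast this
          rw [abs_mul]
          calc _ ≤ 1 * E := mul_le_mul hm hb (abs_nonneg _) zero_le_one
            _ = E := one_mul E
      _ = ((Q1 X ε).filter (fun q => ¬ q.Coprime u)).card * E := by
          rw [Finset.sum_const, nsmul_eq_mul]
      _ ≤ T * X ^ (49 / 100 : ℝ) * E :=
          mul_le_mul_of_nonneg_right (PFull_crossC_card hX ε hε u hu) hE0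
  have b2 : |∑ q ∈ (Ioc 0 y0).filter (fun q => Squarefree q ∧ q.Coprime u),
      PFull_crossCD X N u q| ≤ X ^ (49 / 100 : ℝ) * E := by
    calc _ ≤ ∑ q ∈ (Ioc 0 y0).filter (fun q => Squarefree q ∧ q.Coprime u), E := by
          refine (Finset.abs_sum_le_sum_abs _ _).trans (Finset.sum_le_sum fun q hq => ?_)
          rw [mem_filter, mem_Ioc] at hq
          have hb := PFull_crossCD_le hX N u q hq.2.1 (hq.1.2.trans (hy0y.trans hyM))
          exact hb
      _ = ((Ioc 0 y0).filter (fun q => Squarefree q ∧ q.Coprime u)).card * E := by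
          rw [Finset.sum_const, nsmul_eq_mul]
      _ ≤ X ^ (49 / 100 : ℝ) * E := by
          apply mul_le_mul_of_nonneg_right _ hE0
          have h1 : ((Ioc 0 y0).filter (fun q => Squarefree q ∧ q.Coprime u)).card ≤ y0 := by
            refine (Finset.card_filter_le _ _).trans ?_
            rw [Nat.card_Ioc, Nat.sub_zero]
          have h2 : (((Ioc 0 y0).filter (fun q => Squarefree q ∧ q.Coprime u)).card : ℝ) ≤ y0 := by
            exact_mod_cast h1
          refine h2.trans ((Nat.floor_le (rpow_nonneg hX0.le _)).trans ?_)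
          apply rpow_le_rpow_of_exponent_le hX1
          linarith
  have b3 : T * X ^ (49 / 100 : ℝ) * E + X ^ (49 / 100 : ℝ) * E ≤ X ^ (491 / 1000 : ℝ) := by
    have hV0 : 0 < X ^ (49 / 100 : ℝ) := rpow_pos_of_pos hX0 _
    have hW0 : 0 < X ^ eps4 := rpow_pos_of_pos hX0 _
    calc T * X ^ (49 / 100 : ℝ) * E + X ^ (49 / 100 : ℝ) * E
        ≤ T * X ^ (49 / 100 : ℝ) * E + T * X ^ (49 / 100 : ℝ) * E := by
          have : X ^ (49 / 100 : ℝ) ≤ T * X ^ (49 / 100 : ℝ) := by nlinarith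
          have := mul_le_mul_of_nonneg_right this hE0
          linarith
      _ = 6 * (T ^ 5 * X ^ eps4 * X ^ (49 / 100 : ℝ)) := by
          rw [hE]
          ring
      _ ≤ T * (T ^ 5 * X ^ eps4 * X ^ (49 / 100 : ℝ)) := by
          apply mul_le_mul_of_nonneg_right _ (by positivity)
          norm_num at hT10
          linarith
      _ = T ^ 6 * X ^ eps4 * X ^ (49 / 100 : ℝ) := by ring
      _ ≤ X ^ (491 / 1000 : ℝ) := by
          rw [hX.hT, ← rpow_natCast, ← rpow_mul hX0.le, ← rpow_add hX0, ← rpow_add hX0]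
          apply rpow_le_rpow_of_exponent_le hX1
          unfold tau0 eps4
          norm_num
  rw [e1, e2, hsplit1, hsplit2]
  have c1 := abs_le.1 b1
  have c2 := abs_le.1 b2
  rw [abs_le]
  constructor <;> linarith [c1.1, c1.2, c2.1, c2.2]

end Pool.Agent.Lib.MP_00e05b_nt.PC
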