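import Mathlib
import Pool.Agent.Lib.MP_00e05b_nt.PsiRH
import Pool.Agent.Lib.MP_00e05b_nt.FinalBase
import Pool.Agent.Lib.MP_2a816b_nt.Basic0

/-!
# JOB PPsi: the prime number theorem under RH, from the smooth version `psi_RH`

For small `a, d > 0` (`a + d ≤ 3/4`) take a smooth bump `W` with `1_{[-a, a]} ≤ W ≤ 1_{[-a-d, a+d]}`. `psi_RH` (multiplied by `e ^ (y / 2)`) gives for `y ≥ 2`
`∑_{e ^ (y - a) < n ≤ e ^ (y + a)} Λ(n) ≤ e ^ y (e ^ (a + d) - e ^ (- a - d)) + C e ^ (y / 2)`, and with radii `a - d < a` the lower bound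
`≥ e ^ y (e ^ (a - d) - e ^ (- (a - d))) - C e ^ (y / 2)`. The true length is `e ^ y (e ^ a - e ^ (-a))`; for fixed `a` choose `d` so small that both are within the factor `1 ± τ / 2`.
Then iterate `x ↦ e ^ (- 2 a) x`.
-/

set_option autoImplicit false

open Finset Real
open scoped ContDiff

namespace Pool.Agent.Lib.MP_00e05b_nt.PC

open Pool.Agent.Lib.MP_2a816b_nt

/-- a smooth bump with two-sided mass bounds -/
private lemma PPsi_bump {r1 r2 : ℝ} (h1 : 0 < r1) (h2 : r1 < r2) (h3 : r2 ≤ 3 / 4) :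
    ∃ W : ℝ → ℝ, ContDiff ℝ ∞ W ∧ (∀ u, 0 ≤ W u) ∧ (∀ u, W u ≤ 1) ∧
    (∀ u, |u| ≤ r1 → W u = 1) ∧ (∀ u, r2 ≤ |u| → W u = 0) ∧
    2 * Real.sinh r1 ≤ (∫ v in (-1 : ℝ)..1, W v * Real.exp v) ∧
    (∫ v in (-1 : ℝ)..1, W v * Real.exp v) ≤ 2 * Real.sinh r2 := by
  let f : ContDiffBump (0 : ℝ) := ⟨r1, r2, h1, h2⟩
  have hf0 : ∀ u, 0 ≤ f u := fun u => f.nonneg
  have hone : ∀ u, |u| ≤ r1 → f u = 1 := by
    intro u hu
    apply f.one_of_mem_closedBall
    rw [Metric.mem_closedBall, dist_zero_right, Real.norm_eq_abs]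
    exact hu
  have hzero : ∀ u, r2 ≤ |u| → f u = 0 := by
    intro u hu
    apply f.zero_of_le_dist
    rw [dist_zero_right, Real.norm_eq_abs]
    exact hu
  have hfc : Continuous (fun v => f v * Real.exp v) := f.continuous.mul Real.continuous_exp
  have hexp : ∀ r : ℝ, ∫ v in (-r)..r, Real.exp v = 2 * Real.sinh r := by
    intro r
    rw [integral_exp, Real.sinh_eq]
    ring
  refine ⟨f, f.contDiff, hf0, fun u => f.le_one, hone, hzero, ?_, ?_⟩
  · have hsub : ∫ v in (-r1)..r1, f v * Real.exp v ≤ ∫ v in (-1 : ℝ)..1, f v * Real.exp v := by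
      apply intervalIntegral.integral_mono_interval (by linarith) (by linarith) (by linarith)
      · exact Filter.Eventually.of_forall fun v => mul_nonneg (hf0 v) (Real.exp_pos v).le
      · exact hfc.intervalIntegrable _ _
    refine le_trans (le_of_eq ?_) hsub
    rw [← hexp]
    apply intervalIntegral.integral_congr
    intro v hv
    rw [Set.uIcc_of_le (by linarith), Set.mem_Icc] at hv
    simp only
    rw [hone v (abs_le.2 hv), one_mul]
  · have hi : ∀ a b : ℝ, IntervalIntegrable (fun v => f v * Real.exp v) MeasureTheory.volume a b :=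
      fun a b => hfc.intervalIntegrable a b
    rw [← intervalIntegral.integral_add_adjacent_intervals (hi (-1) (-r2)) (hi (-r2) 1),
      ← intervalIntegral.integral_add_adjacent_intervals (hi (-r2) r2) (hi r2 1)]
    have e1 : ∫ v in (-1 : ℝ)..(-r2), f v * Real.exp v = 0 := by
      have : ∫ v in (-1 : ℝ)..(-r2), f v * Real.exp v = ∫ v in (-1 : ℝ)..(-r2), (0 : ℝ) := by
        apply intervalIntegral.integral_congr
        intro v hv
        rw [Set.uIcc_of_le (by linarith), Set.mem_Icc] at hv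
        simp only
        rw [hzero v (by rw [abs_of_nonpos (by linarith)]; linarith), zero_mul]
      rw [this]; simp
    have e2 : ∫ v in r2..(1 : ℝ), f v * Real.exp v = 0 := by
      have : ∫ v in r2..(1 : ℝ), f v * Real.exp v = ∫ v in r2..(1 : ℝ), (0 : ℝ) := by
        apply intervalIntegral.integral_congr
        intro v hv
        rw [Set.uIcc_of_le (by linarith), Set.mem_Icc] at hv
        simp only
        rw [hzero v (by rw [abs_of_nonneg (by linarith)]; linarith), zero_mul]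
      rw [this]; simp
    rw [e1, e2, zero_add, add_zero, ← hexp]
    apply intervalIntegral.integral_mono_on (by linarith) (hi _ _)
      (Real.continuous_exp.intervalIntegrable _ _)
    intro v _
    calc f v * Real.exp v ≤ 1 * Real.exp v :=
          mul_le_mul_of_nonneg_right f.le_one (Real.exp_pos v).le
      _ = Real.exp v := one_mul _

/-- real form of `psi_RH` -/
private lemma PPsi_real (hRH : RiemannHypothesis) {W : ℝ → ℝ} (hW : ContDiff ℝ ∞ W)
    (h0 : ∀ u, 0 ≤ W u) (h1 : ∀ u, W u ≤ 1) (hs : ∀ u, 3 / 4 ≤ |u| → W u = 0) :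
    ∃ C : ℝ, 0 ≤ C ∧ ∀ y : ℝ, 2 ≤ y →
      |∑ n ∈ Ioc 0 ⌊Real.exp (y + 1)⌋₊, vM n * W (Real.log n - y) -
        Real.exp y * ∫ v in (-1 : ℝ)..1, W v * Real.exp v| ≤ C * Real.exp (y / 2) := by
  obtain ⟨C, hC0, hC⟩ := psi_RH hRH hW h0 h1 hs
  refine ⟨C, hC0, ?_⟩
  intro y hy
  have h := hC y hy
  set I : ℝ := ∫ v in (-1 : ℝ)..1, W v * Real.exp v with hI
  have hsum : (∑' n : ℕ, ((ArithmeticFunction.vonMangoldt n : ℝ) : ℂ) *
        ((Real.exp (-(y / 2)) * W (Real.log n - y) : ℝ) : ℂ)) =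
      ((∑ n ∈ Ioc 0 ⌊Real.exp (y + 1)⌋₊, vM n * (Real.exp (-(y / 2)) * W (Real.log n - y)) : ℝ) : ℂ) := by
    rw [tsum_eq_sum (s := Ioc 0 ⌊Real.exp (y + 1)⌋₊)]
    · push_cast
      rfl
    · intro n hn
      rw [mem_Ioc, not_and_or] at hn
      rcases hn with hn | hn
      · have : n = 0 := by omega
        rw [this]
        simp
      · have h2 : Real.exp (y + 1) < n := by
          rw [not_le] at hn
          exact (Nat.floor_lt (Real.exp_pos _).le).1 hn
        have h3 : y + 1 < Real.log n := by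
          rw [← Real.log_exp (y + 1)]
          exact Real.log_lt_log (Real.exp_pos _) h2
        rw [hs (Real.log n - y) (by rw [abs_of_nonneg (by linarith)]; linarith)]
        simp
  rw [hsum, ← Complex.ofReal_sub, Complex.norm_real, Real.norm_eq_abs] at h
  have hey : (0 : ℝ) < Real.exp (y / 2) := Real.exp_pos _
  have e1 : ∑ n ∈ Ioc 0 ⌊Real.exp (y + 1)⌋₊, vM n * W (Real.log n - y) =
      Real.exp (y / 2) * ∑ n ∈ Ioc 0 ⌊Real.exp (y + 1)⌋₊,
        vM n * (Real.exp (-(y / 2)) * W (Real.log n - y)) := by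
    rw [mul_sum]
    apply sum_congr rfl
    intro n _
    have : Real.exp (y / 2) * Real.exp (-(y / 2)) = 1 := by
      rw [← Real.exp_add]; simp
    linear_combination -(vM n * W (Real.log n - y)) * this
  have e2 : Real.exp y * I = Real.exp (y / 2) * (Real.exp (y / 2) * I) := by
    rw [← mul_assoc, ← Real.exp_add]
    congr 2
    ring
  rw [e1, e2, ← mul_sub, abs_mul, abs_of_pos hey, mul_comm C]
  exact mul_le_mul_of_nonneg_left h hey.le

/-- Chebyshev's function of a real variable -/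
private noncomputable def psiR (x : ℝ) : ℝ := ∑ n ∈ Ioc 0 ⌊x⌋₊, vM n

private lemma psiR_mono {x x' : ℝ} (h : x ≤ x') : psiR x ≤ psiR x' := by
  unfold psiR
  apply sum_le_sum_of_subset_of_nonneg
  · exact Ioc_subset_Ioc_right (Nat.floor_mono h)
  · intro n _ _
    exact vM_nonneg n

private lemma psiR_nonneg (x : ℝ) : 0 ≤ psiR x := sum_nonneg fun n _ => vM_nonneg n

private lemma psiR_sub {x x' : ℝ} (h : x ≤ x') :
    psiR x' - psiR x = ∑ n ∈ Ioc ⌊x⌋₊ ⌊x'⌋₊, vM n := by
  unfold psiR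
  rw [← sum_Ioc_consecutive (fun n => vM n) (Nat.zero_le ⌊x⌋₊) (Nat.floor_mono h)]
  ring

/-- upper bound of a window -/
private lemma PPsi_upper {W : ℝ → ℝ} (h0 : ∀ u, 0 ≤ W u) {a y : ℝ} (ha : 0 < a) (ha1 : a ≤ 1)
    (hone : ∀ u, |u| ≤ a → W u = 1) :
    psiR (Real.exp (y + a)) - psiR (Real.exp (y - a)) ≤
      ∑ n ∈ Ioc 0 ⌊Real.exp (y + 1)⌋₊, vM n * W (Real.log n - y) := by
  have hle : Real.exp (y - a) ≤ Real.exp (y + a) := Real.exp_le_exp.2 (by linarith)
  rw [psiR_sub hle]
  calc ∑ n ∈ Ioc ⌊Real.exp (y - a)⌋₊ ⌊Real.exp (y + a)⌋₊, vM n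
      = ∑ n ∈ Ioc ⌊Real.exp (y - a)⌋₊ ⌊Real.exp (y + a)⌋₊, vM n * W (Real.log n - y) := by
        apply sum_congr rfl
        intro n hn
        rw [mem_Ioc] at hn
        have h1 : Real.exp (y - a) < n := (Nat.floor_lt (Real.exp_pos _).le).1 hn.1
        have h2 : (n : ℝ) ≤ Real.exp (y + a) :=
          (Nat.le_floor_iff (Real.exp_pos _).le).1 hn.2
        have hn0 : (0 : ℝ) < n := (Real.exp_pos _).trans h1
        have h3 : y - a < Real.log n := by
          rw [← Real.log_exp (y - a)]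
          exact Real.log_lt_log (Real.exp_pos _) h1
        have h4 : Real.log n ≤ y + a := by
          rw [← Real.log_exp (y + a)]
          exact Real.log_le_log hn0 h2
        rw [hone (Real.log n - y) (abs_le.2 ⟨by linarith, by linarith⟩), mul_one]
    _ ≤ _ := by
        apply sum_le_sum_of_subset_of_nonneg
        · apply Ioc_subset_Ioc (Nat.zero_le _)
          exact Nat.floor_mono (Real.exp_le_exp.2 (by linarith))
        · intro n _ _
          exact mul_nonneg (vM_nonneg n) (h0 _)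

/-- lower bound of a window -/
private lemma PPsi_lower {W : ℝ → ℝ} (h1 : ∀ u, W u ≤ 1) {a y : ℝ} (ha : 0 < a)
    (hz : ∀ u, a ≤ |u| → W u = 0) :
    ∑ n ∈ Ioc 0 ⌊Real.exp (y + 1)⌋₊, vM n * W (Real.log n - y) ≤
      psiR (Real.exp (y + a)) - psiR (Real.exp (y - a)) := by
  classical
  have hle : Real.exp (y - a) ≤ Real.exp (y + a) := Real.exp_le_exp.2 (by linarith)
  rw [psiR_sub hle]
  calc ∑ n ∈ Ioc 0 ⌊Real.exp (y + 1)⌋₊, vM n * W (Real.log n - y)
      ≤ ∑ n ∈ Ioc 0 ⌊Real.exp (y + 1)⌋₊,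
          if n ∈ Ioc ⌊Real.exp (y - a)⌋₊ ⌊Real.exp (y + a)⌋₊ then vM n else 0 := by
        apply sum_le_sum
        intro n hn
        split_ifs with hm
        · calc vM n * W (Real.log n - y) ≤ vM n * 1 :=
                mul_le_mul_of_nonneg_left (h1 _) (vM_nonneg n)
            _ = vM n := mul_one _
        · rw [mem_Ioc] at hn hm
          have hn0 : (0 : ℝ) < n := by exact_mod_cast hn.1
          rw [hz (Real.log n - y), mul_zero]
          rw [not_and_or, not_lt, not_le] at hm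
          rcases hm with hm | hm
          · have h2 : (n : ℝ) ≤ Real.exp (y - a) := (Nat.le_floor_iff (Real.exp_pos _).le).1 hm
            have h3 : Real.log n ≤ y - a := by
              rw [← Real.log_exp (y - a)]
              exact Real.log_le_log hn0 h2
            rw [abs_of_nonpos (by linarith)]
            linarith
          · have h2 : Real.exp (y + a) < n := (Nat.floor_lt (Real.exp_pos _).le).1 hm
            have h3 : y + a < Real.log n := by
              rw [← Real.log_exp (y + a)]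
              exact Real.log_lt_log (Real.exp_pos _) h2
            rw [abs_of_nonneg (by linarith)]
            linarith
    _ = ∑ n ∈ (Ioc 0 ⌊Real.exp (y + 1)⌋₊).filter
          (fun n => n ∈ Ioc ⌊Real.exp (y - a)⌋₊ ⌊Real.exp (y + a)⌋₊), vM n := by
        rw [sum_filter]
    _ ≤ _ := by
        apply sum_le_sum_of_subset_of_nonneg
        · intro n hn
          exact (mem_filter.1 hn).2
        · intro n _ _
          exact vM_nonneg n

/-- the window estimate -/
private lemma PPsi_window (hRH : RiemannHypothesis) {τ : ℝ} (hτ : 0 < τ) :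
    ∃ C : ℝ, 0 ≤ C ∧ ∀ y : ℝ, 2 ≤ y →
      |psiR (Real.exp (y + 1 / 4)) - psiR (Real.exp (y - 1 / 4)) -
        Real.exp y * (2 * Real.sinh (1 / 4))| ≤
        τ * (Real.exp y * (2 * Real.sinh (1 / 4))) + C * Real.exp (y / 2) := by
  have hsh : 0 < Real.sinh (1 / 4) := Real.sinh_pos_iff.2 (by norm_num)
  obtain ⟨δ, hδ, hδ2⟩ := Metric.continuousAt_iff.1
    (Real.continuous_sinh.continuousAt (x := (1 / 4 : ℝ))) (τ * Real.sinh (1 / 4)) (by positivity)
  set d : ℝ := min (δ / 2) (1 / 8) with hd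
  have hd0 : 0 < d := lt_min (by linarith) (by norm_num)
  have hd1 : d ≤ 1 / 8 := min_le_right _ _
  have hd2 : d < δ := (min_le_left _ _).trans_lt (by linarith)
  have hup : Real.sinh (1 / 4 + d) ≤ (1 + τ) * Real.sinh (1 / 4) := by
    have := @hδ2 (1 / 4 + d) (by
      rw [Real.dist_eq, add_sub_cancel_left, abs_of_pos hd0]; exact hd2)
    rw [Real.dist_eq] at this
    have := (abs_lt.1 this).2
    linarith
  have hlo : (1 - τ) * Real.sinh (1 / 4) ≤ Real.sinh (1 / 4 - d) := by
    have := @hδ2 (1 / 4 - d) (by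
      rw [Real.dist_eq, sub_sub_cancel_left, abs_neg, abs_of_pos hd0]; exact hd2)
    rw [Real.dist_eq] at this
    have := (abs_lt.1 this).1
    linarith
  obtain ⟨W1, s1, n1, l1, o1, z1, -, m1⟩ :=
    PPsi_bump (r1 := 1 / 4) (r2 := 1 / 4 + d) (by norm_num) (by linarith) (by linarith)
  obtain ⟨W2, s2, n2, l2, -, z2, m2, -⟩ :=
    PPsi_bump (r1 := 1 / 4 - d) (r2 := 1 / 4) (by linarith) (by linarith) (by norm_num)
  obtain ⟨C1, hC1, H1⟩ := PPsi_real hRH s1 n1 l1 (fun u hu => z1 u (by linarith))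
  obtain ⟨C2, hC2, H2⟩ := PPsi_real hRH s2 n2 l2 (fun u hu => z2 u (by linarith))
  refine ⟨C1 + C2, by linarith, ?_⟩
  intro y hy
  have hey : 0 < Real.exp y := Real.exp_pos _
  have hey2 : 0 < Real.exp (y / 2) := Real.exp_pos _
  have U := PPsi_upper n1 (a := 1 / 4) (y := y) (by norm_num) (by norm_num) o1
  have L := PPsi_lower l2 (a := 1 / 4) (y := y) (by norm_num) z2
  have A1 := (abs_le.1 (H1 y hy)).2
  have A2 := (abs_le.1 (H2 y hy)).1
  have B1 : Real.exp y * (∫ v in (-1 : ℝ)..1, W1 v * Real.exp v) ≤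
      Real.exp y * (2 * ((1 + τ) * Real.sinh (1 / 4))) :=
    mul_le_mul_of_nonneg_left (by linarith) hey.le
  have B2 : Real.exp y * (2 * ((1 - τ) * Real.sinh (1 / 4))) ≤
      Real.exp y * (∫ v in (-1 : ℝ)..1, W2 v * Real.exp v) :=
    mul_le_mul_of_nonneg_left (by linarith) hey.le
  have P1 : 0 ≤ C1 * Real.exp (y / 2) := by positivity
  have P2 : 0 ≤ C2 * Real.exp (y / 2) := by positivity
  rw [abs_le]
  constructor
  · nlinarith
  · nlinarith

theorem psi_all (hRH : RiemannHypothesis) (τ : ℝ) (hτ : 0 < τ) : ∃ C : ℝ, 0 ≤ C ∧ ∀ m : ℕ,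
    |∑ n ∈ Ioc 0 m, vM n - m| ≤ τ * m + C := by
  obtain ⟨C, hC, hw⟩ := PPsi_window hRH (τ := τ / 2) (by linarith)
  set q : ℝ := Real.exp (-(1 / 2)) with hq
  have hq0 : 0 < q := Real.exp_pos _
  have hq1 : q < 1 := by rw [hq, Real.exp_lt_one_iff]; norm_num
  set X0 : ℝ := Real.exp (2 + 1 / 4) with hX0
  have hX0p : 0 < X0 := Real.exp_pos _
  set sq : ℝ := Real.sqrt q with hsq
  have hsq0 : 0 ≤ sq := Real.sqrt_nonneg _
  have hsq1 : sq < 1 := by
    rw [hsq, Real.sqrt_lt' one_pos]
    simpa using hq1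
  set C' : ℝ := C / (1 - sq) with hC'
  have hC'0 : 0 ≤ C' := div_nonneg hC (by linarith)
  have hCC : C + C' * sq = C' := by
    have h1 : C' * (1 - sq) = C := by
      rw [hC']
      exact div_mul_cancel₀ _ (by linarith)
    linarith
  set C'' : ℝ := psiR X0 + X0 with hC''
  have hC''0 : 0 ≤ C'' := add_nonneg (psiR_nonneg _) hX0p.le
  -- one step
  have hstep : ∀ x : ℝ, X0 ≤ x → |(psiR x - x) - (psiR (q * x) - q * x)| ≤
      τ / 2 * ((1 - q) * x) + C * Real.sqrt x := by
    intro x hx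
    have hx0 : 0 < x := hX0p.trans_le hx
    have hlog : 2 + 1 / 4 ≤ Real.log x := by
      rw [← Real.log_exp (2 + 1 / 4)]
      exact Real.log_le_log hX0p hx
    have h := hw (Real.log x - 1 / 4) (by linarith)
    have e1 : Real.exp (Real.log x - 1 / 4 + 1 / 4) = x := by
      rw [sub_add_cancel, Real.exp_log hx0]
    have e2 : Real.exp (Real.log x - 1 / 4 - 1 / 4) = q * x := by
      rw [hq, mul_comm]
      conv_rhs => rw [← Real.exp_log hx0]
      rw [← Real.exp_add]
      congr 1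
      ring_nf
    have e3 : Real.exp (Real.log x - 1 / 4) * (2 * Real.sinh (1 / 4)) = (1 - q) * x := by
      rw [Real.sinh_eq]
      have : Real.exp (Real.log x - 1 / 4) * (2 * ((Real.exp (1 / 4) - Real.exp (-(1 / 4))) / 2)) =
          Real.exp (Real.log x - 1 / 4) * Real.exp (1 / 4) -
          Real.exp (Real.log x - 1 / 4) * Real.exp (-(1 / 4)) := by ring
      rw [this, ← Real.exp_add, ← Real.exp_add, e1]
      have e4 : Real.log x - 1 / 4 + -(1 / 4) = Real.log x - 1 / 4 - 1 / 4 := by ring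
      rw [e4, e2]
      ring
    have e5 : Real.exp ((Real.log x - 1 / 4) / 2) ≤ Real.sqrt x := by
      rw [Real.sqrt_eq_rpow, Real.rpow_def_of_pos hx0]
      apply Real.exp_le_exp.2
      linarith
    rw [e1, e2, e3] at h
    have e6 : (psiR x - x) - (psiR (q * x) - q * x) = psiR x - psiR (q * x) - (1 - q) * x := by ring
    rw [e6]
    refine h.trans ?_
    have := mul_le_mul_of_nonneg_left e5 hC
    linarith
  -- induction
  have hind : ∀ k : ℕ, ∀ x : ℝ, 0 < x → x ≤ X0 * (q⁻¹) ^ k →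
      |psiR x - x| ≤ τ / 2 * x + C' * Real.sqrt x + C'' := by
    intro k
    have hbase : ∀ x : ℝ, 0 < x → x ≤ X0 → |psiR x - x| ≤ τ / 2 * x + C' * Real.sqrt x + C'' := by
      intro x hx hxX
      have h1 := psiR_nonneg x
      have h2 := psiR_mono hxX
      have h3 : 0 ≤ τ / 2 * x := by positivity
      have h4 : 0 ≤ C' * Real.sqrt x := by positivity
      rw [abs_le]
      constructor <;> linarith
    induction k with
    | zero =>
      intro x hx hxX
      rw [pow_zero, mul_one] at hxX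
      exact hbase x hx hxX
    | succ k ih =>
      intro x hx hxX
      by_cases hle : x ≤ X0
      · exact hbase x hx hle
      · have hqx : q * x ≤ X0 * (q⁻¹) ^ k := by
          have h1 := mul_le_mul_of_nonneg_left hxX hq0.le
          refine h1.trans (le_of_eq ?_)
          rw [pow_succ]
          field_simp
        have h2 := ih (q * x) (by positivity) hqx
        have h3 := hstep x (not_le.1 hle).le
        have h4 : Real.sqrt (q * x) = sq * Real.sqrt x := Real.sqrt_mul hq0.le x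
        rw [h4] at h2
        have h5 : |psiR x - x| ≤ |(psiR x - x) - (psiR (q * x) - q * x)| + |psiR (q * x) - q * x| := by
          have := abs_add_le ((psiR x - x) - (psiR (q * x) - q * x)) (psiR (q * x) - q * x)
          rwa [sub_add_cancel] at this
        calc |psiR x - x| ≤ (τ / 2 * ((1 - q) * x) + C * Real.sqrt x) +
              (τ / 2 * (q * x) + C' * (sq * Real.sqrt x) + C'') := by linarith
          _ = τ / 2 * x + (C + C' * sq) * Real.sqrt x + C'' := by ring
          _ = _ := by rw [hCC]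
  refine ⟨C' ^ 2 / (2 * τ) + C'', by positivity, ?_⟩
  intro m
  rcases Nat.eq_zero_or_pos m with hm | hm
  · subst hm
    simp only [Ioc_self, sum_empty, Nat.cast_zero, sub_zero, abs_zero, mul_zero, zero_add]
    positivity
  · have hm0 : (0 : ℝ) < m := by exact_mod_cast hm
    obtain ⟨k, hk⟩ := pow_unbounded_of_one_lt ((m : ℝ) / X0) (one_lt_inv_iff₀.2 ⟨hq0, hq1⟩)
    have h1 := hind k m hm0 (by
      rw [div_lt_iff₀ hX0p] at hk
      linarith)
    have h2 : psiR (m : ℝ) = ∑ n ∈ Ioc 0 m, vM n := by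
      unfold psiR
      rw [Nat.floor_natCast]
    rw [h2] at h1
    have h3 : C' * Real.sqrt m ≤ τ / 2 * m + C' ^ 2 / (2 * τ) := by
      have h4 : Real.sqrt (m : ℝ) ^ 2 = m := Real.sq_sqrt hm0.le
      have h5 := sq_nonneg (τ * Real.sqrt m - C')
      have h6 : τ / 2 * m + C' ^ 2 / (2 * τ) - C' * Real.sqrt m =
          (τ * Real.sqrt m - C') ^ 2 / (2 * τ) := by
        rw [eq_div_iff (by positivity)]
        field_simp
        nlinarith
      have h7 : 0 ≤ (τ * Real.sqrt m - C') ^ 2 / (2 * τ) := by positivity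
      linarith
    linarith

end Pool.Agent.Lib.MP_00e05b_nt.PC
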