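import Mathlib
import Pool.Agent.Lib.MP_00e05b_nt.PC.PLam
import Pool.Agent.Lib.MP_00e05b_nt.PC.PFull
import Pool.Agent.Lib.MP_00e05b_nt.PC.PPsi
import Pool.Agent.Lib.MP_2a816b_nt.BH.CrossB
import Pool.Agent.Lib.MP_2a816b_nt.BH.CrossC

/-!
# JOB PCrossAbs: the cross term is small (under RH)

`C(N) = ∑_{n ≤ N} F_{Q1} F_{Q2}`. By `cross_main`, `|C(N) - ∑_u (u/φ(u)) (BN N u - (N/u) mu(u))| ≤ X ^ 0.992`. By `BN_full2` and `lam_sum2` each bracket is `(φ(u)/u) S ψ(m) - (N/u) S` with `m = ⌊N/u⌋`, `S = SR X`, up to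
`X ^ 0.491 + (N/u) X ^ (-5/10^7) + X ^ (1/3)`. By `psi_all` with `τ / 16`: `|ψ(m) - N/u| ≤ (τ/16) (N/u) + C + 1`. So
`(u/φ(u)) [(φ(u)/u) S ψ(m) - (N/u) S] = S [ψ(m) - (N/u)] + S (N/u) (1 - u/φ(u))`, and `0 ≤ u/φ(u) - 1 ≤ X ^ (-1/200)` (six primes, each `≥ X ^ (1/100)`: `u / φ(u) = ∏ (1 + 1/(p - 1)) ≤ (1 + 2 X ^ (-1/100)) ^ 6`; `mem_prod_PS`, or `∏ LL`).
Sum over `u`: `∑_u 1/u ≤ ∑_u 1/φ(u) = ∏ LL (PS X i) ≤ 1` (`prod_LL` in `Mul.lean`, `LL_le`), there are at most `T X ^ 0.5005` numbers `u`, `u/φ(u) ≤ T`. Total: `≤ S N (τ/16 + X ^ (-1/200)) + S (C + 1) T X ^ 0.5005 + T N X ^ (-5/10^7) + T ^ 2 X ^ 0.5005 (X ^ 0.491 + X ^ (1/3)) + X ^ 0.992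
≤ τ S X` for large `X`, as `N ≤ 4 X` and `S ≥ 1` (`1 ∈ RS X`), `S ≤ T ^ 2`, `T = X ^ (10^-7)`. (`ev_Lg` for the constant `C₃` of `lam_sum2`; `LL_le`.) See also the proof of `cross_le` in `MP_2a816b_nt/BH/Cross.lean`.
-/

set_option autoImplicit false

open Finset Real
open scoped Pointwise

namespace Pool.Agent.Lib.MP_00e05b_nt.PC

open Pool.Agent.Lib.MP_2a816b_nt Pool.Agent.Lib.MP_2a816b_nt.BH

/-- Weierstrass inequality -/
private theorem PCrossAbs_weier {ι : Type*} [DecidableEq ι] (s : Finset ι) (a : ι → ℝ)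
    (h0 : ∀ i ∈ s, 0 ≤ a i) (h1 : ∀ i ∈ s, a i ≤ 1) :
    1 - ∑ i ∈ s, a i ≤ ∏ i ∈ s, (1 - a i) ∧ ∏ i ∈ s, (1 - a i) ≤ 1 ∧ 0 ≤ ∏ i ∈ s, (1 - a i) := by
  induction s using Finset.induction_on with
  | empty => simp
  | insert i s hi ih =>
    obtain ⟨i1, i2, i3⟩ := ih (fun j hj => h0 j (Finset.mem_insert_of_mem hj))
      (fun j hj => h1 j (Finset.mem_insert_of_mem hj))
    have a0 := h0 i (Finset.mem_insert_self i s)
    have a1 := h1 i (Finset.mem_insert_self i s)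
    rw [Finset.sum_insert hi, Finset.prod_insert hi]
    have b1 : 0 ≤ 1 - a i := by linarith
    refine ⟨?_, ?_, mul_nonneg b1 i3⟩
    · nlinarith
    · nlinarith

/-- `φ(u) / u` is close to one if all prime factors of `u` are large -/
private theorem PCrossAbs_phi {u : ℕ} (hu : 0 < u) {Z T : ℝ} (hZ : 1 ≤ Z)
    (hT : (u.divisors.card : ℝ) ≤ T) (hp : ∀ p : ℕ, p.Prime → p ∣ u → Z ≤ (p : ℝ)) :
    1 - T / Z ≤ (u.totient : ℝ) / u := by
  have hu0 : (0 : ℝ) < u := by exact_mod_cast hu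
  have hZ0 : 0 < Z := by linarith
  have h1 : (u.totient : ℝ) / u = ∏ p ∈ u.primeFactors, (1 - (p : ℝ)⁻¹) := by
    have h2 := Nat.totient_eq_mul_prod_factors u
    have h3 : ((u.totient : ℚ) : ℝ) = ((u * ∏ p ∈ u.primeFactors, (1 - (p : ℚ)⁻¹) : ℚ) : ℝ) := by
      rw [h2]
    push_cast at h3
    rw [h3]
    field_simp
  have h4 := (PCrossAbs_weier u.primeFactors (fun p => (p : ℝ)⁻¹)
    (fun p _ => by positivity)
    (fun p hp' => by
      have h5 : (1 : ℝ) ≤ p := by exact_mod_cast (Nat.prime_of_mem_primeFactors hp').one_le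
      exact inv_le_one_of_one_le₀ h5)).1
  rw [h1]
  refine le_trans ?_ h4
  have h6 : ∑ p ∈ u.primeFactors, (p : ℝ)⁻¹ ≤ T / Z := by
    calc ∑ p ∈ u.primeFactors, (p : ℝ)⁻¹ ≤ ∑ p ∈ u.primeFactors, Z⁻¹ := by
          refine Finset.sum_le_sum fun p hp' => ?_
          have := hp p (Nat.prime_of_mem_primeFactors hp') (Nat.dvd_of_mem_primeFactors hp')
          exact inv_anti₀ hZ0 this
      _ = u.primeFactors.card * Z⁻¹ := by rw [Finset.sum_const, nsmul_eq_mul]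
      _ ≤ T * Z⁻¹ := by
          apply mul_le_mul_of_nonneg_right _ (by positivity)
          have a1 : u.primeFactors ⊆ u.divisors := by
            intro p hp'
            exact Nat.mem_divisors.2 ⟨Nat.dvd_of_mem_primeFactors hp', hu.ne'⟩
          have a2 : (u.primeFactors.card : ℝ) ≤ (u.divisors.card : ℝ) := by
            exact_mod_cast Finset.card_le_card a1
          exact a2.trans hT
      _ = T / Z := by rw [div_eq_mul_inv]
  linarith

theorem cross_abs (hRH : RiemannHypothesis) (ε : ℝ) (hε : 0 < ε) (hε1 : ε ≤ 1 / 10 ^ 4) (τ : ℝ)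
    (hτ : 0 < τ) : ∃ X₀ : ℝ, ∀ X : ℝ, X₀ ≤ X → ∀ N : ℕ, (N : ℝ) ≤ 4 * X →
    |∑ n ∈ Ioc 0 N, FQ (Q1 X ε) n * FQ (Q2 X) n| ≤ τ * (SR X * X) := by
  obtain ⟨C₃, hC₃⟩ := lam_sum2
  obtain ⟨Cp, hCp0, hCp⟩ := psi_all hRH (τ / 16) (by positivity)
  set K : ℝ := 64 * (Cp + 1) / τ with hK
  obtain ⟨X₁, hX₁⟩ := ev_Lg (max C₃ K)
  obtain ⟨X₂, hX₂⟩ := LL_le
  refine ⟨max X₁ X₂, fun X hXX N hN2 => ?_⟩
  set T : ℝ := X ^ tau0 with hTdef
  have hX' : Lg X T (max C₃ K) := hX₁ X ((le_max_left _ _).trans hXX)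
  have hLL : ∀ i, LL (PS X i) ≤ 1 := hX₂ X ((le_max_right _ _).trans hXX)
  have hX : Lg X T C₃ := ⟨hX'.hT, hX'.X1, hX'.big, (le_max_left _ _).trans hX'.hC, hX'.h10⟩
  have hKT : K ≤ T := (le_max_right _ _).trans hX'.hC
  have hX1 : (1 : ℝ) ≤ X := hX.X1
  have hX0 : (0 : ℝ) < X := by linarith
  have hT : T = X ^ tau0 := hX.hT
  have hT10 : (10 : ℝ) ^ 10 ≤ T := hX.h10
  have hT0 : (0 : ℝ) < T := by linarith [show (0 : ℝ) < 10 ^ 10 by norm_num]
  have hT1 : (1 : ℝ) ≤ T := by linarith [show (1 : ℝ) < 10 ^ 10 by norm_num]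
  have htau : tau0 = 1 / 10 ^ 7 := rfl
  -- powers
  have hpow : ∀ a : ℝ, 1 ≤ a * 10 ^ 7 → T ≤ X ^ a := by
    intro a ha
    rw [hT, htau]
    apply Real.rpow_le_rpow_of_exponent_le hX1
    rw [div_le_iff₀ (by norm_num)]
    exact ha
  have hmono : ∀ a b : ℝ, a ≤ b → X ^ a ≤ X ^ b := fun a b hab =>
    Real.rpow_le_rpow_of_exponent_le hX1 hab
  have hε100 : ε ≤ 1 / 100 := hε1.trans (by norm_num)
  have hmain := cross_main hX hLL ε hε hε100 N hN2
  set U : Finset ℕ := ∏ i, PS X i with hU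
  have hmem : ∀ u ∈ U, Squarefree u ∧ X ^ (5005 / 10000 : ℝ) ≤ (u : ℝ) ∧
      (u : ℝ) ≤ T * X ^ (5005 / 10000 : ℝ) := by
    intro u hu
    have h := mem_prod_PS hX univ hu
    rw [exs_univ] at h
    exact ⟨h.1, h.2.1, h.2.2.1⟩
  have hTX : T * X ^ (5005 / 10000 : ℝ) ≤ X ^ (501 / 1000 : ℝ) := by
    rw [hT, htau, ← Real.rpow_add hX0]
    exact hmono _ _ (by norm_num)
  have huM : ∀ u ∈ U, u ≤ ⌊X ^ (10 : ℝ)⌋₊ := by
    intro u hu
    apply Nat.le_floor
    exact ((hmem u hu).2.2.trans hTX).trans (hmono _ _ (by norm_num))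
  have hSR : 1 ≤ SR X := by
    unfold SR
    have h1 : 1 ∈ RS X := by
      unfold RS
      rw [mem_filter, mem_Ioc]
      refine ⟨⟨Nat.one_pos, Nat.le_floor ?_⟩, squarefree_one⟩
      rw [Nat.cast_one]
      exact Real.one_le_rpow hX1 (by unfold eps4; norm_num)
    have h2 := Finset.single_le_sum (f := fun r : ℕ => 1 / (r.totient : ℝ))
      (fun r _ => by positivity) h1
    simpa using h2
  have hSR0 : 0 ≤ SR X := by linarith
  have hN0 : (0 : ℝ) ≤ N := Nat.cast_nonneg N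
  -- the bound for each `u`
  set Z : ℝ := X ^ (1 / 100 : ℝ) with hZ
  have hZ1 : 1 ≤ Z := Real.one_le_rpow hX1 (by norm_num)
  have hZ0 : 0 < Z := by linarith
  set E1 : ℝ := X ^ (-(5 / 10 ^ 7) : ℝ) with hE1
  set E2 : ℝ := X ^ (1 / 3 : ℝ) + X ^ (491 / 1000 : ℝ) with hE2
  have hE1nn : 0 ≤ E1 := by positivity
  have hE2nn : 0 ≤ E2 := by positivity
  have hterm : ∀ u ∈ U, |(u : ℝ) / (u.totient : ℝ) * (BN X ε N u - (N : ℝ) / u * mu X ε u)| ≤
      (SR X * N * (τ / 16 + T / Z) + N * E1) * (1 / (u.totient : ℝ)) +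
        (SR X * (Cp + 1) + T * E2) := by
    intro u hu
    obtain ⟨h1, h2, h3⟩ := hmem u hu
    have hu0 : 0 < u := Nat.pos_of_ne_zero h1.ne_zero
    have hu0' : (0 : ℝ) < u := by exact_mod_cast hu0
    have hφ0 : (0 : ℝ) < u.totient := by exact_mod_cast Nat.totient_pos.2 hu0
    have hφu : (u.totient : ℝ) ≤ u := by exact_mod_cast Nat.totient_le u
    have hB := abs_le.1 (BN_full2 hX ε hε hε100 N u hN2 hu)
    have hS := abs_le.1 (hC₃ X T hX ε hε hε1 N u hN2 hu)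
    have hψ0 := abs_le.1 (hCp (N / u))
    have hm1 : ((N / u : ℕ) : ℝ) ≤ (N : ℝ) / u := Nat.cast_div_le
    have hm2 : (N : ℝ) / u < ((N / u : ℕ) : ℝ) + 1 := by
      rw [div_lt_iff₀ hu0']
      have : N < (N / u + 1) * u := by
        have := Nat.div_add_mod N u
        have h5 := Nat.mod_lt N hu0
        nlinarith
      exact_mod_cast this
    set ψ : ℝ := ∑ n ∈ Ioc 0 (N / u), vM n with hψdef
    have hNu : 0 ≤ (N : ℝ) / u := by positivity
    have hψ : |ψ - (N : ℝ) / u| ≤ τ / 16 * ((N : ℝ) / u) + (Cp + 1) := by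
      have h4 : τ / 16 * ((N / u : ℕ) : ℝ) ≤ τ / 16 * ((N : ℝ) / u) :=
        mul_le_mul_of_nonneg_left hm1 (by positivity)
      rw [abs_le]
      constructor <;> linarith [hψ0.1, hψ0.2]
    have hT' : (u : ℝ) / (u.totient : ℝ) ≤ T := div_totient_le hX.big h1 (huM u hu)
    have hr0 : 0 ≤ (u : ℝ) / (u.totient : ℝ) := by positivity
    have hphi : 1 - T / Z ≤ (u.totient : ℝ) / u :=
      PCrossAbs_phi hu0 hZ1 (hX.big.tau u hu0 (huM u hu)) (mem_prod_PS hX univ hu).2.2.2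
    -- decomposition
    set err : ℝ := BN X ε N u - (N : ℝ) / u * mu X ε u -
      ((u.totient : ℝ) / u * SR X * ψ - (N : ℝ) / u * SR X) with herr
    have herr' : |err| ≤ (N : ℝ) / u * E1 + E2 := by
      rw [abs_le, herr, hE2, hE1]
      constructor <;> linarith [hB.1, hB.2, hS.1, hS.2]
    have hid : (u : ℝ) / (u.totient : ℝ) * (BN X ε N u - (N : ℝ) / u * mu X ε u) =
        SR X * (ψ - (N : ℝ) / u) - SR X * N * ((1 / (u.totient : ℝ)) * (1 - (u.totient : ℝ) / u)) +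
          (u : ℝ) / (u.totient : ℝ) * err := by
      rw [herr]
      field_simp
      ring
    rw [hid]
    have t1 : |SR X * (ψ - (N : ℝ) / u)| ≤
        SR X * (τ / 16 * (N * (1 / (u.totient : ℝ))) + (Cp + 1)) := by
      rw [abs_mul, abs_of_nonneg hSR0]
      apply mul_le_mul_of_nonneg_left _ hSR0
      refine hψ.trans ?_
      have h5 : (N : ℝ) / u ≤ N * (1 / (u.totient : ℝ)) := by
        rw [div_eq_mul_one_div]
        exact mul_le_mul_of_nonneg_left (one_div_le_one_div_of_le hφ0 hφu) hN0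
      have h6 := mul_le_mul_of_nonneg_left h5 (show 0 ≤ τ / 16 by positivity)
      linarith
    have t2 : |SR X * N * ((1 / (u.totient : ℝ)) * (1 - (u.totient : ℝ) / u))| ≤
        SR X * N * ((1 / (u.totient : ℝ)) * (T / Z)) := by
      have h5 : 0 ≤ 1 - (u.totient : ℝ) / u := by
        rw [sub_nonneg, div_le_one hu0']
        exact hφu
      rw [abs_of_nonneg (by positivity)]
      apply mul_le_mul_of_nonneg_left _ (by positivity)
      apply mul_le_mul_of_nonneg_left _ (by positivity)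
      linarith
    have t3 : |(u : ℝ) / (u.totient : ℝ) * err| ≤ N * E1 * (1 / (u.totient : ℝ)) + T * E2 := by
      rw [abs_mul, abs_of_nonneg hr0]
      calc (u : ℝ) / (u.totient : ℝ) * |err|
          ≤ (u : ℝ) / (u.totient : ℝ) * ((N : ℝ) / u * E1 + E2) :=
            mul_le_mul_of_nonneg_left herr' hr0
        _ = N * E1 * (1 / (u.totient : ℝ)) + (u : ℝ) / (u.totient : ℝ) * E2 := by
            field_simp
        _ ≤ N * E1 * (1 / (u.totient : ℝ)) + T * E2 := by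
            have := mul_le_mul_of_nonneg_right hT' hE2nn
            linarith
    calc _ ≤ |SR X * (ψ - (N : ℝ) / u)| +
          |SR X * N * ((1 / (u.totient : ℝ)) * (1 - (u.totient : ℝ) / u))| +
          |(u : ℝ) / (u.totient : ℝ) * err| := by
            refine (abs_add_le _ _).trans ?_
            have := abs_sub (SR X * (ψ - (N : ℝ) / u))
              (SR X * N * ((1 / (u.totient : ℝ)) * (1 - (u.totient : ℝ) / u)))
            linarith
      _ ≤ SR X * (τ / 16 * (N * (1 / (u.totient : ℝ))) + (Cp + 1)) +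
          SR X * N * ((1 / (u.totient : ℝ)) * (T / Z)) +
          (N * E1 * (1 / (u.totient : ℝ)) + T * E2) := add_le_add (add_le_add t1 t2) t3
      _ = _ := by ring
  have hsumφ : ∑ u ∈ U, 1 / (u.totient : ℝ) = ∏ i, LL (PS X i) :=
    (prod_LL (fun i i' h => cross_PS hX i i' h) (fun i p hp => (mem_PS hp hX1).1) univ).symm
  have hLL0 : ∀ i, 0 ≤ LL (PS X i) := by
    intro i
    unfold LL
    refine sum_nonneg fun p hp => ?_
    have h1 : (1 : ℝ) ≤ p := by exact_mod_cast (mem_PS hp hX1).1.one_le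
    have : (0 : ℝ) ≤ (p : ℝ) - 1 := by linarith
    positivity
  have hL1 : ∏ i, LL (PS X i) ≤ 1 := prod_le_one (fun i _ => hLL0 i) (fun i _ => hLL i)
  have hcard : (U.card : ℝ) ≤ T * X ^ (5005 / 10000 : ℝ) := by
    have h1 : U ⊆ Ioc 0 ⌊T * X ^ (5005 / 10000 : ℝ)⌋₊ := by
      intro u hu
      rw [mem_Ioc]
      exact ⟨Nat.pos_of_ne_zero (hmem u hu).1.ne_zero, Nat.le_floor (hmem u hu).2.2⟩
    have h2 := card_le_card h1
    rw [Nat.card_Ioc, Nat.sub_zero] at h2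
    calc (U.card : ℝ) ≤ (⌊T * X ^ (5005 / 10000 : ℝ)⌋₊ : ℝ) := by exact_mod_cast h2
      _ ≤ _ := Nat.floor_le (by positivity)
  have hA0 : 0 ≤ SR X * N * (τ / 16 + T / Z) + N * E1 := by positivity
  have hB0 : 0 ≤ SR X * (Cp + 1) + T * E2 := by positivity
  have hsum : |∑ u ∈ U, (u : ℝ) / (u.totient : ℝ) * (BN X ε N u - (N : ℝ) / u * mu X ε u)| ≤
      (SR X * N * (τ / 16 + T / Z) + N * E1) +
        (T * X ^ (5005 / 10000 : ℝ)) * (SR X * (Cp + 1) + T * E2) := by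
    refine (Finset.abs_sum_le_sum_abs _ _).trans ((sum_le_sum hterm).trans ?_)
    rw [sum_add_distrib, ← mul_sum, hsumφ, sum_const, nsmul_eq_mul]
    have h1 := mul_le_mul_of_nonneg_right hcard hB0
    have h2 := mul_le_mul_of_nonneg_left hL1 hA0
    linarith
  -- the errors
  have hKτ : τ * K = 64 * (Cp + 1) := by
    rw [hK]
    field_simp
  have hTτ : 64 * (Cp + 1) ≤ τ * T := by
    rw [← hKτ]
    exact mul_le_mul_of_nonneg_left hKT hτ.le
  have hTτ1 : 64 ≤ τ * T := by linarith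
  have hSX0 : 0 ≤ SR X * X := by positivity
  have hXS : X ≤ SR X * X := by nlinarith
  -- e1 : SR N tau/16
  have e1 : SR X * N * (τ / 16) ≤ τ / 4 * (SR X * X) := by
    have h1 : SR X * N ≤ SR X * (4 * X) := mul_le_mul_of_nonneg_left hN2 hSR0
    have h2 := mul_le_mul_of_nonneg_right h1 (show 0 ≤ τ / 16 by positivity)
    linarith
  have e2 : SR X * N * (T / Z) ≤ τ / 16 * (SR X * X) := by
    have h1 : SR X * N ≤ SR X * (4 * X) := mul_le_mul_of_nonneg_left hN2 hSR0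
    have h2 : T / Z ≤ τ / 64 := by
      rw [div_le_iff₀ hZ0]
      have h3 : T * T ≤ Z := by
        rw [hZ, hT, htau, ← Real.rpow_add hX0]
        exact hmono _ _ (by norm_num)
      nlinarith
    have h3 := mul_le_mul h1 h2 (by positivity) (by positivity)
    linarith
  have e3 : (N : ℝ) * E1 ≤ τ / 16 * (SR X * X) := by
    have h1 : T * E1 ≤ 1 := by
      rw [hT, hE1, htau, ← Real.rpow_add hX0]
      apply Real.rpow_le_one_of_one_le_of_nonpos hX1
      norm_num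
    have h2 : 64 * E1 ≤ τ := by
      have h3 := mul_le_mul_of_nonneg_right hTτ1 hE1nn
      have h4 := mul_le_mul_of_nonneg_left h1 hτ.le
      linarith
    have h3 : (N : ℝ) * E1 ≤ 4 * X * E1 := mul_le_mul_of_nonneg_right hN2 hE1nn
    have h4 : 4 * X * E1 ≤ τ / 16 * X := by
      have := mul_le_mul_of_nonneg_left h2 hX0.le
      linarith
    have h5 := mul_le_mul_of_nonneg_left hXS (show 0 ≤ τ / 16 by positivity)
    linarith
  have e4 : (T * X ^ (5005 / 10000 : ℝ)) * (SR X * (Cp + 1)) ≤ τ / 64 * (SR X * X) := by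
    have h1 : T * (T * X ^ (5005 / 10000 : ℝ)) ≤ X := by
      calc T * (T * X ^ (5005 / 10000 : ℝ)) ≤ X ^ (1 / 100 : ℝ) * X ^ (501 / 1000 : ℝ) :=
            mul_le_mul (hpow _ (by norm_num)) hTX (by positivity) (by positivity)
        _ ≤ X ^ (1 : ℝ) := by
            rw [← Real.rpow_add hX0]
            exact hmono _ _ (by norm_num)
        _ = X := Real.rpow_one X
    have h2 : (T * X ^ (5005 / 10000 : ℝ)) * (Cp + 1) ≤ τ / 64 * X := by
      have h3 : (T * X ^ (5005 / 10000 : ℝ)) * (64 * (Cp + 1)) ≤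
          (T * X ^ (5005 / 10000 : ℝ)) * (τ * T) :=
        mul_le_mul_of_nonneg_left hTτ (by positivity)
      have h4 := mul_le_mul_of_nonneg_left h1 hτ.le
      linarith
    have h3 := mul_le_mul_of_nonneg_left h2 hSR0
    linarith
  have e5 : (T * X ^ (5005 / 10000 : ℝ)) * (T * E2) ≤ τ / 16 * (SR X * X) := by
    have h1 : E2 ≤ 2 * X ^ (491 / 1000 : ℝ) := by
      have := hmono (1 / 3) (491 / 1000) (by norm_num)
      rw [hE2]
      linarith
    have h2 : T * X ^ (491 / 1000 : ℝ) ≤ X ^ (492 / 1000 : ℝ) := by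
      rw [hT, htau, ← Real.rpow_add hX0]
      exact hmono _ _ (by norm_num)
    have h3 : T * E2 ≤ 2 * X ^ (492 / 1000 : ℝ) := by
      have := mul_le_mul_of_nonneg_left h1 hT0.le
      linarith
    have h4 : (T * X ^ (5005 / 10000 : ℝ)) * (T * E2) ≤ 2 * X ^ ((501 / 1000 : ℝ) + 492 / 1000) := by
      calc (T * X ^ (5005 / 10000 : ℝ)) * (T * E2)
          ≤ X ^ (501 / 1000 : ℝ) * (2 * X ^ (492 / 1000 : ℝ)) :=
            mul_le_mul hTX h3 (by positivity) (by positivity)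
        _ = 2 * X ^ ((501 / 1000 : ℝ) + 492 / 1000) := by rw [Real.rpow_add hX0]; ring
    have h5 : T * X ^ ((501 / 1000 : ℝ) + 492 / 1000) ≤ X := by
      rw [hT, htau, ← Real.rpow_add hX0]
      calc _ ≤ X ^ (1 : ℝ) := hmono _ _ (by norm_num)
        _ = X := Real.rpow_one X
    have h6 : 64 * X ^ ((501 / 1000 : ℝ) + 492 / 1000) ≤ τ * X := by
      have h7 := mul_le_mul_of_nonneg_right hTτ1
        (show 0 ≤ X ^ ((501 / 1000 : ℝ) + 492 / 1000) by positivity)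
      have h8 := mul_le_mul_of_nonneg_left h5 hτ.le
      linarith
    have h9 := mul_le_mul_of_nonneg_left hXS (show 0 ≤ τ / 16 by positivity)
    linarith
  have e6 : X ^ (992 / 1000 : ℝ) ≤ τ / 16 * (SR X * X) := by
    have h5 : T * X ^ (992 / 1000 : ℝ) ≤ X := by
      rw [hT, htau, ← Real.rpow_add hX0]
      calc _ ≤ X ^ (1 : ℝ) := hmono _ _ (by norm_num)
        _ = X := Real.rpow_one X
    have h6 : 64 * X ^ (992 / 1000 : ℝ) ≤ τ * X := by
      have h7 := mul_le_mul_of_nonneg_right hTτ1 (show 0 ≤ X ^ (992 / 1000 : ℝ) by positivity)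
      have h8 := mul_le_mul_of_nonneg_left h5 hτ.le
      linarith
    have h9 := mul_le_mul_of_nonneg_left hXS (show 0 ≤ τ / 16 by positivity)
    linarith
  have hm := abs_le.1 hmain
  have hs := abs_le.1 hsum
  have hτS : 0 ≤ τ * (SR X * X) := by positivity
  have htot : (SR X * N * (τ / 16 + T / Z) + N * E1) +
        (T * X ^ (5005 / 10000 : ℝ)) * (SR X * (Cp + 1) + T * E2) + X ^ (992 / 1000 : ℝ) ≤
      τ * (SR X * X) := by
    rw [mul_add, mul_add]
    linarith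
  rw [abs_le]
  constructor <;> linarith [hm.1, hm.2, hs.1, hs.2]

end Pool.Agent.Lib.MP_00e05b_nt.PC
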