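import Mathlib
import Pool.Agent.Lib.MP_00e05b_nt.VProps
import Pool.Agent.Lib.MP_00e05b_nt.PsiRH
import Pool.Agent.Lib.MP_00e05b_nt.WeightedBase

/-!
# JOB PSumV: the sums of `V(n) ^ 2` and of `V(n) ^ 2 Λ(n)`

`sum_V2`: `f(s) = e^{-y} W(log s - y) ^ 2` for `s ≥ 1`; `∫_{e^{y-1}}^{e^{y+1}} f(s) ds = ∫_{-1}^{1} W(v)^2 e^v dv` (`s = e^{y+v}`), `f` is Lipschitz with constant `≤ C e^{-2y}` on `[e^{y-1} - 1, e^{y+1} + 1]`, so `|∑ f(n) - ∫ f| ≤ C e^{-2y} e^{y+1} + 2 e^{-y}`.
`sum_V2_vM`: `psi_RH` for the function `W ^ 2`, multiplied by `e^{-y/2}`; the `tsum` is the finite sum over `n ≤ ⌊e ^ (y+1)⌋` (`Vw_large`; `W(log n - y) = 0` for larger `n`).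
`exists_bumpR2`: as `exists_bumpR` in `FinalBase.lean` (the same `ContDiffBump`), `W = 1` on `[-r1, r1]`, `∫_{-r1}^{r1} e^v dv ≥ 2 r1`.
-/

set_option autoImplicit false

open Finset Real
open scoped ContDiff

namespace Pool.Agent.Lib.MP_00e05b_nt.PC

open Pool.Agent.Lib.MP_2a816b_nt

/-- `∫ W ^ 2 e ^ v` -/
noncomputable def I2 (W : ℝ → ℝ) : ℝ := ∫ v in (-1 : ℝ)..1, W v ^ 2 * Real.exp v

private lemma psumv_lip {φ : ℝ → ℝ} (hφ : ContDiff ℝ ∞ φ) (hs : ∀ u, 3 / 4 ≤ |u| → φ u = 0) :
    ∃ K : ℝ, 0 ≤ K ∧ ∀ a b : ℝ, a ≤ b → |φ a - φ b| ≤ K * (Real.exp b - Real.exp a) := by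
  obtain ⟨K1, hK1⟩ := bump_of_smooth hφ hs
  have hK0 : 0 ≤ K1 := (abs_nonneg _).trans (hK1.b0 0)
  have hlip : ∀ a b : ℝ, |φ a - φ b| ≤ K1 * |a - b| := fun a b =>
    W_lip hK1.d0 hK1.b1 a b
  refine ⟨K1 * Real.exp 1, by positivity, ?_⟩
  intro a b hab
  have hz : ∀ x : ℝ, φ x = φ (max x (-1)) := by
    intro x
    rcases le_total (-1) x with h | h
    · rw [max_eq_left h]
    · rw [max_eq_right h, hs x (by rw [abs_of_neg (by linarith)]; linarith),
        hs (-1) (by norm_num)]
  rw [hz a, hz b]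
  set a' := max a (-1) with ha'
  set b' := max b (-1) with hb'
  have h1 : a' ≤ b' := max_le_max_right _ hab
  have h2 : b' - a' ≤ Real.exp 1 * (Real.exp b' - Real.exp a') := by
    have h3 : Real.exp b' = Real.exp a' * Real.exp (b' - a') := by
      rw [← Real.exp_add]; congr 1; ring
    have h4 := Real.add_one_le_exp (b' - a')
    have h5 : Real.exp (-1) ≤ Real.exp a' := Real.exp_le_exp.2 (le_max_right _ _)
    have h6 : Real.exp 1 * Real.exp (-1) = 1 := by rw [← Real.exp_add]; simp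
    have h7 : (1 : ℝ) ≤ Real.exp 1 * Real.exp a' := by
      exact h6.ge.trans (mul_le_mul_of_nonneg_left h5 (Real.exp_pos 1).le)
    calc b' - a' = 1 * (b' - a') := (one_mul _).symm
      _ ≤ (Real.exp 1 * Real.exp a') * (Real.exp (b' - a') - 1) :=
        mul_le_mul h7 (by linarith) (by linarith) (by positivity)
      _ = Real.exp 1 * (Real.exp b' - Real.exp a') := by rw [h3]; ring
  have h8 : Real.exp b' - Real.exp a' ≤ Real.exp b - Real.exp a := by
    rcases le_total (-1) a with h | h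
    · rw [ha', hb', max_eq_left h, max_eq_left (h.trans hab)]
    · have h9 : a' = -1 := max_eq_right h
      have h10 : Real.exp a ≤ Real.exp (-1) := Real.exp_le_exp.2 h
      rcases le_total (-1) b with h' | h'
      · have h11 : b' = b := max_eq_left h'
        rw [h9, h11]
        linarith
      · have h11 : b' = -1 := max_eq_right h'
        rw [h9, h11, sub_self]
        have := Real.exp_le_exp.2 hab
        linarith
  calc |φ a' - φ b'| ≤ K1 * |a' - b'| := hlip _ _
    _ = K1 * (b' - a') := by rw [abs_sub_comm, abs_of_nonneg (by linarith)]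
    _ ≤ K1 * (Real.exp 1 * (Real.exp b - Real.exp a)) :=
      mul_le_mul_of_nonneg_left (h2.trans (mul_le_mul_of_nonneg_left h8 (Real.exp_pos 1).le)) hK0
    _ = _ := by ring

private lemma psumv_sum_eq (N : ℕ) (F : ℕ → ℝ) :
    ∑ n ∈ Ioc 0 N, F n = ∑ k ∈ range N, F (k + 1) := by
  induction N with
  | zero => simp
  | succ N ih => rw [Finset.sum_Ioc_succ_top (Nat.zero_le N), Finset.sum_range_succ, ih]

theorem sum_V2 {W : ℝ → ℝ} (hW : ContDiff ℝ ∞ W) (h0 : ∀ u, 0 ≤ W u) (h1 : ∀ u, W u ≤ 1)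
    (hs : ∀ u, 3 / 4 ≤ |u| → W u = 0) : ∃ K : ℝ, 0 ≤ K ∧ ∀ y : ℝ, 10 ≤ y →
      |∑ n ∈ Ioc 0 ⌊Real.exp (y + 1)⌋₊, Vw W y n ^ 2 - I2 W| ≤ K * Real.exp (-y) := by
  set φ : ℝ → ℝ := fun u => W u ^ 2 with hφ
  have hφc : ContDiff ℝ ∞ φ := hW.pow 2
  have hφs : ∀ u, 3 / 4 ≤ |u| → φ u = 0 := by
    intro u hu
    simp only [hφ, hs u hu]
    norm_num
  obtain ⟨K, hK0, hK⟩ := psumv_lip hφc hφs
  refine ⟨K * Real.exp 1, by positivity, ?_⟩
  intro y hy
  set N : ℕ := ⌊Real.exp (y + 1)⌋₊ with hN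
  have hcont : Continuous (fun v => φ v * Real.exp v) := hφc.continuous.mul Real.continuous_exp
  set a : ℕ → ℝ := fun k => Real.log ((k : ℝ) + 1) - y with ha
  have hmono : ∀ k : ℕ, a k ≤ a (k + 1) := by
    intro k
    simp only [ha]
    have : Real.log ((k : ℝ) + 1) ≤ Real.log (((k + 1 : ℕ) : ℝ) + 1) := by
      apply Real.log_le_log (by positivity)
      push_cast
      linarith
    linarith
  have hea : ∀ k : ℕ, Real.exp (a k) = ((k : ℝ) + 1) * Real.exp (-y) := by
    intro k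
    simp only [ha]
    rw [sub_eq_add_neg, Real.exp_add, Real.exp_log (by positivity)]
  have hsum : ∑ k ∈ range N, ∫ v in (a k)..(a (k + 1)), φ v * Real.exp v =
      ∫ v in (a 0)..(a N), φ v * Real.exp v :=
    intervalIntegral.sum_integral_adjacent_intervals (fun k _ => hcont.intervalIntegrable _ _)
  have ha0 : a 0 ≤ -1 := by
    simp only [ha]
    norm_num
    linarith
  have haN : 1 ≤ a N := by
    simp only [ha]
    have h2 : Real.exp (y + 1) < (N : ℝ) + 1 := Nat.lt_floor_add_one _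
    have h3 : y + 1 < Real.log ((N : ℝ) + 1) := by
      rw [Real.lt_log_iff_exp_lt (by positivity)]
      exact h2
    linarith
  have hfull : ∫ v in (a 0)..(a N), φ v * Real.exp v = I2 W := by
    have i1 : ∫ v in (a 0)..(-1), φ v * Real.exp v = 0 := by
      rw [intervalIntegral.integral_congr (g := fun _ => (0 : ℝ))]
      · simp
      · intro v hv
        rw [Set.uIcc_of_le ha0] at hv
        simp only
        rw [hφs v (by rw [abs_of_neg (by linarith [hv.2])]; linarith [hv.2]), zero_mul]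
    have i2 : ∫ v in (1 : ℝ)..(a N), φ v * Real.exp v = 0 := by
      rw [intervalIntegral.integral_congr (g := fun _ => (0 : ℝ))]
      · simp
      · intro v hv
        rw [Set.uIcc_of_le haN] at hv
        simp only
        rw [hφs v (by rw [abs_of_pos (by linarith [hv.1])]; linarith [hv.1]), zero_mul]
    have i3 := intervalIntegral.integral_add_adjacent_intervals
      (hcont.intervalIntegrable (μ := MeasureTheory.volume) (a 0) (-1))
      (hcont.intervalIntegrable (-1) 1)
    have i4 := intervalIntegral.integral_add_adjacent_intervals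
      (hcont.intervalIntegrable (μ := MeasureTheory.volume) (a 0) 1)
      (hcont.intervalIntegrable 1 (a N))
    rw [← i4, ← i3, i1, i2, zero_add, add_zero]
    rfl
  have hterm : ∀ k : ℕ, |Vw W y (k + 1) ^ 2 - ∫ v in (a k)..(a (k + 1)), φ v * Real.exp v| ≤
      K * Real.exp (-y) * Real.exp (-y) := by
    intro k
    have e1 : Vw W y (k + 1) ^ 2 = Real.exp (-y) * φ (a k) := by
      unfold Vw
      simp only [hφ, ha]
      rw [mul_pow, ← Real.exp_nat_mul]
      push_cast
      congr 2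
      ring
    have e2 : ∫ v in (a k)..(a (k + 1)), φ (a k) * Real.exp v = Real.exp (-y) * φ (a k) := by
      rw [intervalIntegral.integral_const_mul, integral_exp, hea, hea]
      push_cast
      ring
    have hc1 : Continuous (fun v => φ (a k) * Real.exp v) :=
      continuous_const.mul Real.continuous_exp
    rw [e1, ← e2, ← intervalIntegral.integral_sub (hc1.intervalIntegrable _ _)
      (hcont.intervalIntegrable _ _)]
    have e3 : ∫ v in (a k)..(a (k + 1)), K * Real.exp (-y) * Real.exp v =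
        K * Real.exp (-y) * Real.exp (-y) := by
      rw [intervalIntegral.integral_const_mul, integral_exp, hea, hea]
      push_cast
      ring
    rw [← e3, ← Real.norm_eq_abs]
    apply intervalIntegral.norm_integral_le_of_norm_le (hmono k)
    · filter_upwards with v hv
      rw [← sub_mul, norm_mul, Real.norm_of_nonneg (Real.exp_pos v).le, Real.norm_eq_abs]
      apply mul_le_mul_of_nonneg_right _ (Real.exp_pos v).le
      refine (hK (a k) v hv.1.le).trans (mul_le_mul_of_nonneg_left ?_ hK0)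
      have h5 : Real.exp v ≤ Real.exp (a (k + 1)) := Real.exp_le_exp.2 hv.2
      rw [hea] at h5 ⊢
      push_cast at h5
      linarith
    · exact (continuous_const.mul Real.continuous_exp).intervalIntegrable _ _
  rw [psumv_sum_eq, ← hfull, ← hsum, ← Finset.sum_sub_distrib]
  calc |∑ k ∈ range N, (Vw W y (k + 1) ^ 2 - ∫ v in (a k)..(a (k + 1)), φ v * Real.exp v)|
      ≤ ∑ k ∈ range N, |Vw W y (k + 1) ^ 2 - ∫ v in (a k)..(a (k + 1)), φ v * Real.exp v| :=
        Finset.abs_sum_le_sum_abs _ _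
    _ ≤ ∑ k ∈ range N, K * Real.exp (-y) * Real.exp (-y) :=
        Finset.sum_le_sum (fun k _ => hterm k)
    _ = (N : ℝ) * (K * Real.exp (-y) * Real.exp (-y)) := by
        rw [Finset.sum_const, card_range, nsmul_eq_mul]
    _ ≤ Real.exp (y + 1) * (K * Real.exp (-y) * Real.exp (-y)) :=
        mul_le_mul_of_nonneg_right (Nat.floor_le (Real.exp_pos _).le) (by positivity)
    _ = K * Real.exp 1 * Real.exp (-y) := by
        rw [Real.exp_add, show Real.exp y * Real.exp 1 * (K * Real.exp (-y) * Real.exp (-y)) =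
          (Real.exp y * Real.exp (-y)) * (K * Real.exp 1 * Real.exp (-y)) by ring,
          ← Real.exp_add, add_neg_cancel, Real.exp_zero, one_mul]

theorem sum_V2_vM (hRH : RiemannHypothesis) {W : ℝ → ℝ} (hW : ContDiff ℝ ∞ W)
    (h0 : ∀ u, 0 ≤ W u) (h1 : ∀ u, W u ≤ 1) (hs : ∀ u, 3 / 4 ≤ |u| → W u = 0) :
    ∃ K : ℝ, 0 ≤ K ∧ ∀ y : ℝ, 10 ≤ y →
      |∑ n ∈ Ioc 0 ⌊Real.exp (y + 1)⌋₊, Vw W y n ^ 2 * vM n - I2 W| ≤ K * Real.exp (-(y / 2)) := by
  obtain ⟨C, hC0, hC⟩ := psi_RH hRH (W := fun u => W u ^ 2) (hW.pow 2) (fun u => sq_nonneg _)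
    (fun u => pow_le_one₀ (h0 u) (h1 u)) (fun u hu => by simp only [hs u hu]; norm_num)
  refine ⟨C, hC0, ?_⟩
  intro y hy
  have h := hC y (by linarith)
  set N : ℕ := ⌊Real.exp (y + 1)⌋₊ with hN
  have hts : (∑' n : ℕ, ((ArithmeticFunction.vonMangoldt n : ℝ) : ℂ) *
        ((Real.exp (-(y / 2)) * W (Real.log n - y) ^ 2 : ℝ) : ℂ)) =
      ((∑ n ∈ Ioc 0 N, vM n * (Real.exp (-(y / 2)) * W (Real.log n - y) ^ 2) : ℝ) : ℂ) := by
    rw [tsum_eq_sum (s := Ioc 0 N)]
    · push_cast
      rfl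
    · intro n hn
      rw [Finset.mem_Ioc, not_and_or] at hn
      rcases hn with h2 | h2
      · have : n = 0 := by omega
        rw [this]
        simp
      · have h3 := Vw_large hs y n (by omega)
        unfold Vw at h3
        have h4 : W (Real.log n - y) = 0 := by
          rcases mul_eq_zero.1 h3 with h5 | h5
          · exact absurd h5 (Real.exp_pos _).ne'
          · exact h5
        rw [h4]
        simp
  rw [hts, ← Complex.ofReal_sub, Complex.norm_real, Real.norm_eq_abs] at h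
  have e1 : ∑ n ∈ Ioc 0 N, Vw W y n ^ 2 * vM n - I2 W = Real.exp (-(y / 2)) *
      (∑ n ∈ Ioc 0 N, vM n * (Real.exp (-(y / 2)) * W (Real.log n - y) ^ 2) -
        Real.exp (y / 2) * ∫ v in (-1 : ℝ)..1, W v ^ 2 * Real.exp v) := by
    rw [mul_sub, ← mul_assoc, ← Real.exp_add, neg_add_cancel, Real.exp_zero, one_mul]
    congr 1
    rw [Finset.mul_sum]
    refine Finset.sum_congr rfl fun n _ => ?_
    unfold Vw
    ring
  rw [e1, abs_mul, Real.abs_exp, mul_comm C]
  exact mul_le_mul_of_nonneg_left h (Real.exp_pos _).le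

theorem exists_bumpR2 {r1 r2 : ℝ} (h1 : 0 < r1) (h2 : r1 < r2) (h3 : r2 ≤ 3 / 4) :
    ∃ W : ℝ → ℝ, ContDiff ℝ ∞ W ∧ (∀ u, 0 ≤ W u) ∧ (∀ u, W u ≤ 1) ∧
    (∀ u, r2 ≤ |u| → W u = 0) ∧ 2 * r1 ≤ I2 W := by
  let f : ContDiffBump (0 : ℝ) := ⟨r1, r2, h1, h2⟩
  have hf0 : ∀ u, 0 ≤ f u := fun u => f.nonneg
  have hfc : Continuous (fun v => f v ^ 2 * Real.exp v) :=
    (f.continuous.pow 2).mul Real.continuous_exp
  refine ⟨f, f.contDiff, hf0, fun u => f.le_one, ?_, ?_⟩
  · intro u hu
    apply f.zero_of_le_dist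
    rw [dist_zero_right, Real.norm_eq_abs]
    exact hu
  · unfold I2
    have hsub : ∫ v in (-r1)..r1, f v ^ 2 * Real.exp v ≤ ∫ v in (-1 : ℝ)..1, f v ^ 2 * Real.exp v := by
      apply intervalIntegral.integral_mono_interval (by linarith) (by linarith) (by linarith)
      · exact Filter.Eventually.of_forall fun v => mul_nonneg (sq_nonneg _) (Real.exp_pos v).le
      · exact hfc.intervalIntegrable _ _
    refine le_trans ?_ hsub
    have h4 : ∫ v in (-r1)..r1, (1 + v) ≤ ∫ v in (-r1)..r1, f v ^ 2 * Real.exp v := by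
      apply intervalIntegral.integral_mono_on (by linarith)
      · exact (continuous_const.add continuous_id).intervalIntegrable _ _
      · exact hfc.intervalIntegrable _ _
      · intro v hv
        have : f v = 1 := by
          apply f.one_of_mem_closedBall
          rw [Metric.mem_closedBall, dist_zero_right, Real.norm_eq_abs]
          exact abs_le.2 hv
        rw [this, one_pow, one_mul]
        have := Real.add_one_le_exp v
        linarith
    refine le_trans (le_of_eq ?_) h4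
    rw [intervalIntegral.integral_add (by simp) (by simp)]
    simp
    ring

end Pool.Agent.Lib.MP_00e05b_nt.PC
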