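import Mathlib
import Pool.Agent.Lib.MP_00e05b_nt.PC.PCrossAbs
import Pool.Agent.Lib.MP_00e05b_nt.PC.PAbel
import Pool.Agent.Lib.MP_00e05b_nt.PC.PSumV
import Pool.Agent.Lib.MP_2a816b_nt.BH.Gain

/-!
# JOB PDiag: the gain on the diagonal, smooth weights, under RH

Let `X = e ^ y`, `V = Vw W y`, `N = ⌊e ^ (y+1)⌋ ≤ 3 X`, `P = ∏ LL (PS X i) ∈ [c ^ 6, 1]` (`LL_ge`, `LL_le`), `S = SR X ≥ ε₄ y / 2` (`sum_RS_ge`), `S₁ = ∑_{Q1} 1/φ` (`sum_Q1_ge`, `sum_Q1_le`), `K' = 300 ^ 12`, `λ = P / (2 K')`, `g = gt X ε λ = F_{Q1} + λ F_{Q2}`. With `abel_V2` (constant `K`) and `sum_V2`, `sum_V2_vM`: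
* `|∑ V² vM F_Q - S_Q ∑ V² vM| ≤ K e^{-y} 2 T ^ 5 (X ^ 0.501 + 2 X ^ (1/2))` for `Q = Q1, Q2` (`vM_diag` with `A = 0`), `S_{Q2} = S P` (`sum_Q2`); so it is `S_Q I2 + O(X ^ (-0.4))`.
* `|∑ V² F_{Q1} ^ 2 - S₁ I2| ≤ K e^{-y} X ^ (1 - ε) + S₁ K e^{-y}` (`q1_sq`, `A = 0`).
* `∑ V² F_{Q2} ^ 2 ≤ K' ∑ V² F_{RS} ^ 2 ≤ K' (S I2 + small)`: pointwise `F_{Q2}(n) ^ 2 = F_{RS}(n) ^ 2 G(n) ^ 2 ≤ K' F_{RS}(n) ^ 2` (`FQ_Q2`, `abs_G_le`), `corr_sets_zero` for `RS` with itself.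
* `|∑ V² F_{Q1} F_{Q2}| ≤ K e^{-y} τ S X = K τ S` (`cross_abs`; `FQ_Q2`).
So the sum in question is `≥ I2 [2 S₁ + 2 λ S P - (1 + η) S₁ - (1 + η) λ ^ 2 K' S] - 2 (1 + η) λ K τ S - small ≥ I2 [(1 - η) S₁ + S P ^ 2 / K' (1 - (1 + η) / 4)] - 4 K τ S - small ≥ I2 [(1 - η) S₁ + S P ^ 2 / (2 K')] - 4 K τ S - small`,
and `S₁ ≥ (1/2 - 2 ε) y - C₆`, `S ≥ ε₄ y / 2`. Put `c_g = ε₄ c ^ 12 / (4 K')`, `ε = min(c_g / 20, 10^-4)`, `η = c_g / 20`, `δ = c_g / 2`; `τ` depends on `W`: `4 K τ S ≤ I2 c_g y / 20` (use `S ≤ ...`: a bound `SR X ≤ 2 y` for large `X`: `sum_inv_totient` upper bound, e.g. from `density` with `D = 1`, as in `sum_Q1_le`).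
(The structure `Gain.lean` proves the analogous statement with sharp cutoffs.)
-/

set_option autoImplicit false

open Finset Real
open scoped ContDiff Pointwise

namespace Pool.Agent.Lib.MP_00e05b_nt.PC

open Pool.Agent.Lib.MP_2a816b_nt Pool.Agent.Lib.MP_2a816b_nt.BH

lemma pd_alg {I S1 S P A1 A2 V' V G11 G12 G22 ea ec ed ee s K η : ℝ} (hI : 0 ≤ I)
    (hS1 : 0 ≤ S1) (hS : 0 ≤ S) (hP : 0 ≤ P) (hP1 : P ≤ 1) (hK : 1 ≤ K) (hη : 0 ≤ η)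
    (hη1 : η ≤ 1) (hv' : |V' - I| ≤ s) (hv : |V - I| ≤ s) (h1 : |A1 - S1 * V'| ≤ ea)
    (h2 : |A2 - (S * P) * V'| ≤ ea) (h3 : |G11 - S1 * V| ≤ ec) (h4 : |G12| ≤ ed)
    (h5 : G22 ≤ K * (S * V + ee)) (hee : 0 ≤ ee) :
    I * ((1 - η) * S1 + S * P ^ 2 / (2 * K)) - s * (4 * S1 + 4 * S) -
      (4 * ea + 2 * ec + 4 * ed + 2 * (K * ee)) ≤
      2 * (A1 + P / (2 * K) * A2) -
        (1 + η) * (G11 + 2 * (P / (2 * K)) * G12 + (P / (2 * K)) ^ 2 * G22) := by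
  have hK0 : 0 < K := by linarith
  have hs : 0 ≤ s := (abs_nonneg _).trans hv
  have hea : 0 ≤ ea := (abs_nonneg _).trans h1
  have hec : 0 ≤ ec := (abs_nonneg _).trans h3
  have hed : 0 ≤ ed := (abs_nonneg _).trans h4
  obtain ⟨l, hl⟩ : ∃ l : ℝ, l = P / (2 * K) := ⟨_, rfl⟩
  rw [← hl]
  have hl0 : 0 ≤ l := by rw [hl]; positivity
  have hl1 : l ≤ 1 / 2 := by
    rw [hl, div_le_iff₀ (by positivity)]; linarith
  have hlK : l * K = P / 2 := by rw [hl]; field_simp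
  have hl2K : l ^ 2 * K ≤ 1 / 4 := by
    have : l ^ 2 * K = l * (P / 2) := by rw [← hlK]; ring
    rw [this]
    calc l * (P / 2) ≤ 1 / 2 * (1 / 2) := mul_le_mul hl1 (by linarith) (by positivity) (by norm_num)
      _ = 1 / 4 := by norm_num
  have a1 : S1 * (I - s) - ea ≤ A1 := by
    have e1 := (abs_le.1 h1).1
    have e2 : S1 * (I - s) ≤ S1 * V' := mul_le_mul_of_nonneg_left (by linarith [(abs_le.1 hv').1]) hS1
    linarith
  have a2 : (S * P) * (I - s) - ea ≤ A2 := by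
    have e1 := (abs_le.1 h2).1
    have e2 : (S * P) * (I - s) ≤ (S * P) * V' :=
      mul_le_mul_of_nonneg_left (by linarith [(abs_le.1 hv').1]) (by positivity)
    linarith
  have a3 : G11 ≤ S1 * (I + s) + ec := by
    have e1 := (abs_le.1 h3).2
    have e2 : S1 * V ≤ S1 * (I + s) := mul_le_mul_of_nonneg_left (by linarith [(abs_le.1 hv).2]) hS1
    linarith
  have a4 : G12 ≤ ed := (le_abs_self _).trans h4
  have a5 : G22 ≤ K * (S * (I + s) + ee) := by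
    refine h5.trans (mul_le_mul_of_nonneg_left ?_ hK0.le)
    have : S * V ≤ S * (I + s) := mul_le_mul_of_nonneg_left (by linarith [(abs_le.1 hv).2]) hS
    linarith
  -- pieces
  have b2 : l * ((S * P) * (I - s) - ea) ≤ l * A2 := mul_le_mul_of_nonneg_left a2 hl0
  have b3 : (1 + η) * G11 ≤ (1 + η) * (S1 * I) + 2 * (S1 * s) + 2 * ec := by
    have e0 : (1 + η) * G11 ≤ (1 + η) * (S1 * (I + s) + ec) :=
      mul_le_mul_of_nonneg_left a3 (by linarith)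
    have e1 : 0 ≤ (1 - η) * (S1 * s + ec) := mul_nonneg (by linarith) (by positivity)
    nlinarith [e0, e1]
  have b4 : (1 + η) * (2 * l * G12) ≤ 2 * ed := by
    have e0 : 2 * l * G12 ≤ 2 * l * ed := mul_le_mul_of_nonneg_left a4 (by linarith)
    have e1 : 2 * l * ed ≤ ed := by
      have := mul_le_mul_of_nonneg_right hl1 hed
      linarith
    have e2 : 2 * l * G12 ≤ ed := e0.trans e1
    calc (1 + η) * (2 * l * G12) ≤ (1 + η) * ed := mul_le_mul_of_nonneg_left e2 (by linarith)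
      _ ≤ 2 * ed := mul_le_mul_of_nonneg_right (by linarith) hed
  have b5 : (1 + η) * (l ^ 2 * G22) ≤ (S * P ^ 2 / (2 * K)) * I + S * s + K * ee := by
    have e0 : l ^ 2 * G22 ≤ l ^ 2 * (K * (S * (I + s) + ee)) :=
      mul_le_mul_of_nonneg_left a5 (by positivity)
    have e1 : l ^ 2 * (K * (S * (I + s) + ee)) =
        (l ^ 2 * K) * (S * I) + (l ^ 2 * K) * (S * s) + l ^ 2 * (K * ee) := by ring
    have e2 : (l ^ 2 * K) * (S * s) ≤ 1 / 4 * (S * s) :=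
      mul_le_mul_of_nonneg_right hl2K (by positivity)
    have e3 : l ^ 2 * (K * ee) ≤ 1 / 4 * (K * ee) := by
      apply mul_le_mul_of_nonneg_right _ (by positivity)
      calc l ^ 2 ≤ (1 / 2) ^ 2 := pow_le_pow_left₀ hl0 hl1 2
        _ = 1 / 4 := by norm_num
    have e4 : (l ^ 2 * K) * (S * I) = (S * P ^ 2 / (4 * K)) * I := by
      rw [hl]; field_simp; ring
    have e5 : 0 ≤ (S * P ^ 2 / (4 * K)) * I := by positivity
    have e6 : l ^ 2 * G22 ≤ (S * P ^ 2 / (4 * K)) * I + 1 / 4 * (S * s) + 1 / 4 * (K * ee) := by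
      rw [e1, e4] at e0
      linarith
    have e7 : 0 ≤ (S * P ^ 2 / (4 * K)) * I + 1 / 4 * (S * s) + 1 / 4 * (K * ee) := by positivity
    have e8 : S * P ^ 2 / (2 * K) * I = 2 * ((S * P ^ 2 / (4 * K)) * I) := by field_simp; ring
    have e9 : 0 ≤ S * s := by positivity
    have e10 : 0 ≤ K * ee := by positivity
    calc (1 + η) * (l ^ 2 * G22) ≤ (1 + η) * ((S * P ^ 2 / (4 * K)) * I + 1 / 4 * (S * s) + 1 / 4 * (K * ee)) :=
          mul_le_mul_of_nonneg_left e6 (by linarith)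
      _ ≤ 2 * ((S * P ^ 2 / (4 * K)) * I + 1 / 4 * (S * s) + 1 / 4 * (K * ee)) :=
          mul_le_mul_of_nonneg_right (by linarith) e7
      _ ≤ (S * P ^ 2 / (2 * K)) * I + S * s + K * ee := by rw [e8]; linarith
  have c1 : l * ((S * P) * (I - s)) * 2 = (S * P ^ 2 / K) * I - (S * s) * (2 * l * P) := by
    rw [hl]; field_simp
  have c2 : (S * s) * (2 * l * P) ≤ S * s := by
    apply mul_le_of_le_one_right (by positivity)
    calc 2 * l * P ≤ 1 * 1 := mul_le_mul (by linarith) hP1 hP (by norm_num)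
      _ = 1 := by norm_num
  have c3 : 2 * (l * ea) ≤ ea := by
    have := mul_le_mul_of_nonneg_right hl1 hea
    linarith
  have c4 : S * P ^ 2 / K * I = S * P ^ 2 / (2 * K) * I + S * P ^ 2 / (2 * K) * I := by field_simp; ring
  have f1 : 2 * (A1 + l * A2) - (1 + η) * (G11 + 2 * l * G12 + l ^ 2 * G22) =
      2 * A1 + 2 * (l * A2) - (1 + η) * G11 - (1 + η) * (2 * l * G12) - (1 + η) * (l ^ 2 * G22) := by
    ring
  have f2 : l * ((S * P) * (I - s) - ea) = l * ((S * P) * (I - s)) - l * ea := by ring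
  rw [f2] at b2
  rw [f1]
  have f3 : I * ((1 - η) * S1 + S * P ^ 2 / (2 * K)) =
      2 * (S1 * I) - (1 + η) * (S1 * I) + S * P ^ 2 / (2 * K) * I := by ring
  rw [f3]
  have f4 : S1 * (I - s) = S1 * I - S1 * s := by ring
  rw [f4] at a1
  have f5 : s * (4 * S1 + 4 * S) = 4 * (S1 * s) + 4 * (S * s) := by ring
  rw [f5]
  have g1 : 0 ≤ S * s := by positivity
  have g2 : 0 ≤ S1 * s := by positivity
  have g3 : 0 ≤ K * ee := by positivity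
  linarith


lemma pd_SR_le : ∃ C : ℝ, 0 ≤ C ∧ ∀ X : ℝ, 1 ≤ X → SR X ≤ eps4 * Real.log X + C := by
  obtain ⟨C₁, h1, hd⟩ := density
  obtain ⟨B, hB⟩ := hd 1 one_pos
  refine ⟨|B| + C₁, by positivity, fun X hX => ?_⟩
  have hX0 : 0 < X := by linarith
  have h2 : 1 ≤ X ^ eps4 := Real.one_le_rpow hX (by unfold eps4; norm_num)
  have f1 : 1 ≤ ⌊X ^ eps4⌋₊ := Nat.one_le_floor_iff _ |>.2 h2
  have h4 := hB _ f1
  simp only [Nat.totient_one, Nat.cast_one, div_one, one_mul, Nat.divisors_one,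
    card_singleton, mul_one] at h4
  have h5 : (⌊X ^ eps4⌋₊ : ℝ) ^ (-(1 / 4) : ℝ) ≤ 1 := by
    apply Real.rpow_le_one_of_one_le_of_nonpos
    · exact_mod_cast f1
    · norm_num
  have h6 : SD ⌊X ^ eps4⌋₊ 1 = SR X := by
    unfold SD SR RS
    simp only [Nat.coprime_one_right_eq_true, and_true]
  rw [h6] at h4
  have h7 : Real.log (⌊X ^ eps4⌋₊ : ℝ) ≤ eps4 * Real.log X := by
    rw [← Real.log_rpow hX0]
    apply Real.log_le_log (by exact_mod_cast f1)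
    exact Nat.floor_le (by positivity)
  have h8 : C₁ * (⌊X ^ eps4⌋₊ : ℝ) ^ (-(1 / 4) : ℝ) ≤ C₁ * 1 :=
    mul_le_mul_of_nonneg_left h5 (by linarith)
  have h9 := (abs_le.1 h4).2
  have h10 := le_abs_self B
  linarith

lemma pd_absorb {X T C : ℝ} (hX : Lg X T C) (k : ℕ) {a b : ℝ}
    (h : a + ((k : ℝ) + 1) * tau0 ≤ b) : 10 ^ 10 * T ^ k * X ^ a ≤ X ^ b := by
  have hX0 : 0 < X := by linarith [hX.X1]
  have hT0 : (0 : ℝ) ≤ T := by linarith [hX.h10]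
  have hTk : T ^ (k + 1) = X ^ (((k : ℝ) + 1) * tau0) := by
    rw [hX.hT, ← Real.rpow_natCast, ← Real.rpow_mul hX0.le, mul_comm]; push_cast; rfl
  calc 10 ^ 10 * T ^ k * X ^ a ≤ T * T ^ k * X ^ a := by
        have := hX.h10
        gcongr
    _ = T ^ (k + 1) * X ^ a := by ring
    _ = X ^ (((k : ℝ) + 1) * tau0) * X ^ a := by rw [hTk]
    _ = X ^ (((k : ℝ) + 1) * tau0 + a) := by rw [Real.rpow_add hX0]
    _ ≤ X ^ b := Real.rpow_le_rpow_of_exponent_le hX.X1 (by linarith)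

lemma pd_err {X T C ε : ℝ} (hX : Lg X T C) (hε4 : ε ≤ 1 / 10 ^ 4) (N : ℕ)
    (hN : (N : ℝ) ≤ 4 * X) :
    2 * T ^ 5 * ((⌊X ^ (501 / 1000 : ℝ)⌋₊ : ℝ) + √(N : ℝ)) ≤ X ^ (1 - ε) := by
  have hX0 : 0 < X := by linarith [hX.X1]
  have q10 := hX.X1
  have hT0 : 0 ≤ T := by linarith [hX.h10]
  have e1 : (⌊X ^ (501 / 1000 : ℝ)⌋₊ : ℝ) ≤ X ^ (501 / 1000 : ℝ) := Nat.floor_le (by positivity)
  have e2 : √(N : ℝ) ≤ 2 * X ^ (501 / 1000 : ℝ) := by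
    calc √(N : ℝ) ≤ √(4 * X) := Real.sqrt_le_sqrt hN
      _ = 2 * √X := by
          rw [Real.sqrt_mul (by norm_num)]
          congr 1
          rw [show (4 : ℝ) = 2 ^ 2 by norm_num, Real.sqrt_sq (by norm_num)]
      _ = 2 * X ^ (1 / 2 : ℝ) := by rw [Real.sqrt_eq_rpow]
      _ ≤ 2 * X ^ (501 / 1000 : ℝ) := by
          have := Real.rpow_le_rpow_of_exponent_le q10 (by norm_num : (1 / 2 : ℝ) ≤ 501 / 1000)
          linarith
  have e3 : 10 ^ 10 * T ^ 5 * X ^ (501 / 1000 : ℝ) ≤ X ^ (1 - ε) :=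
    pd_absorb hX 5 (by unfold tau0; norm_num; linarith)
  have e4 : 2 * T ^ 5 * ((⌊X ^ (501 / 1000 : ℝ)⌋₊ : ℝ) + √(N : ℝ)) ≤
      2 * T ^ 5 * (3 * X ^ (501 / 1000 : ℝ)) := by
    apply mul_le_mul_of_nonneg_left _ (by positivity)
    linarith
  have e5 : 0 ≤ T ^ 5 * X ^ (501 / 1000 : ℝ) := by positivity
  rw [mul_assoc] at e3
  have e6 : 2 * T ^ 5 * (3 * X ^ (501 / 1000 : ℝ)) = 6 * (T ^ 5 * X ^ (501 / 1000 : ℝ)) := by ring
  rw [e6] at e4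
  linarith only [e3, e4, e5]

/-- the pointwise bound of `F_{Q2} ^ 2` -/
lemma pd_q2 {X T C : ℝ} (hX : Lg X T C) (hLL : ∀ i, LL (PS X i) ≤ 1) (n : ℕ) (hn : 0 < n)
    (hN : (n : ℝ) ≤ 4 * X) :
    FQ (Q2 X) n ^ 2 ≤ 300 ^ 12 * (FQ (RS X) n * FQ (RS X) n) := by
  have hX0 : 0 < X := by linarith [hX.X1]
  have hXb : 10 ^ 10 ≤ X := by
    refine hX.h10.trans ?_
    rw [hX.hT]
    calc X ^ tau0 ≤ X ^ (1 : ℝ) := by
          apply Real.rpow_le_rpow_of_exponent_le hX.X1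
          unfold tau0; norm_num
      _ = X := Real.rpow_one X
  have hG := abs_G_le hX hLL (n : ℤ) (by exact_mod_cast hn.ne') (by
    push_cast
    rw [abs_of_nonneg (by positivity)]
    have h4 : X ^ (2 : ℝ) = X * X := by
      rw [show (2 : ℝ) = ((2 : ℕ) : ℝ) by norm_num, Real.rpow_natCast, pow_two]
    rw [h4]
    nlinarith)
  rw [FQ_Q2 hX, mul_pow]
  have h5 : (∏ i, FQ (PS X i) (n : ℤ)) ^ 2 ≤ 300 ^ 12 := by
    rw [← sq_abs]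
    calc |∏ i, FQ (PS X i) (n : ℤ)| ^ 2 ≤ (300 ^ 6) ^ 2 := by gcongr
      _ = 300 ^ 12 := by norm_num
  have h6 : 0 ≤ FQ (RS X) (n : ℤ) ^ 2 := sq_nonneg _
  calc FQ (RS X) n ^ 2 * (∏ i, FQ (PS X i) (n : ℤ)) ^ 2 ≤ FQ (RS X) n ^ 2 * 300 ^ 12 :=
        mul_le_mul_of_nonneg_left h5 h6
    _ = 300 ^ 12 * (FQ (RS X) n * FQ (RS X) n) := by ring

lemma pd_rs {X T C : ℝ} (hX : Lg X T C) (M : ℕ) :
    |∑ n ∈ Ioc 0 M, (FQ (RS X) n * FQ (RS X) n - SR X)| ≤ X ^ (1 / 100 : ℝ) := by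
  have hX0 : 0 < X := by linarith [hX.X1]
  have hT10 := hX.h10
  have hT0 : 0 ≤ T := by linarith
  have hTk : ∀ k : ℕ, T ^ k = X ^ (k * tau0) := fun k => by
    rw [hX.hT, ← Real.rpow_natCast, ← Real.rpow_mul hX0.le, mul_comm]
  have hR : ∀ r ∈ RS X, Squarefree r ∧ r ≤ ⌊X ^ eps4⌋₊ := by
    intro r hr
    obtain ⟨h2, _, h3⟩ := mem_RS hr hX.X1
    exact ⟨h2, Nat.le_floor h3⟩
  have hRM : ⌊X ^ eps4⌋₊ ≤ ⌊X ^ (10 : ℝ)⌋₊ := by
    apply Nat.floor_le_floor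
    apply Real.rpow_le_rpow_of_exponent_le hX.X1
    unfold eps4; norm_num
  have h2 := corr_sets_zero hX.big (RS X) (RS X) ⌊X ^ eps4⌋₊ ⌊X ^ eps4⌋₊ hR hR hRM hRM 0 M
  rw [inter_self, zero_add] at h2
  have h4 : 2 * T ^ 4 * (((⌊X ^ eps4⌋₊ : ℕ) : ℝ) * ((⌊X ^ eps4⌋₊ : ℕ) : ℝ)) ≤ X ^ (1 / 100 : ℝ) := by
    have h5 : ((⌊X ^ eps4⌋₊ : ℕ) : ℝ) ≤ X ^ eps4 := Nat.floor_le (by positivity)
    calc 2 * T ^ 4 * (((⌊X ^ eps4⌋₊ : ℕ) : ℝ) * ((⌊X ^ eps4⌋₊ : ℕ) : ℝ))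
        ≤ T * T ^ 4 * (X ^ eps4 * X ^ eps4) := by
          gcongr
          linarith
      _ = T ^ 5 * (X ^ eps4 * X ^ eps4) := by ring
      _ = X ^ (((5 : ℕ) : ℝ) * tau0 + (eps4 + eps4)) := by
          rw [hTk, ← Real.rpow_add hX0, ← Real.rpow_add hX0]
      _ ≤ X ^ (1 / 100 : ℝ) := by
          apply Real.rpow_le_rpow_of_exponent_le hX.X1
          unfold eps4 tau0; norm_num
  have h5 : ∑ n ∈ Ioc 0 M, (FQ (RS X) n * FQ (RS X) n - SR X) =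
      ∑ n ∈ Ioc 0 M, FQ (RS X) n * FQ (RS X) n - M * ∑ q ∈ RS X, 1 / (q.totient : ℝ) := by
    rw [sum_sub_distrib, sum_const, Nat.card_Ioc, nsmul_eq_mul, Nat.sub_zero]
    rfl
  rw [h5]
  exact h2.trans h4

theorem diag_gain (hRH : RiemannHypothesis) : ∃ (δ ε η : ℝ), 0 < δ ∧ δ ≤ 1 / 4 ∧ 0 < ε ∧
    ε ≤ 1 / 10 ^ 4 ∧ 0 < η ∧ η ≤ 1 ∧
    ∀ W : ℝ → ℝ, ContDiff ℝ ∞ W → (∀ u, 0 ≤ W u) → (∀ u, W u ≤ 1) →
      (∀ u, 3 / 4 ≤ |u| → W u = 0) → 0 < I2 W →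
      ∃ Y₀ : ℝ, ∀ y : ℝ, Y₀ ≤ y → ∃ lam : ℝ, 0 ≤ lam ∧ lam ≤ 1 ∧
        (1 / 2 + δ) * I2 W * y ≤ ∑ n ∈ Ioc 0 ⌊Real.exp (y + 1)⌋₊, Vw W y n ^ 2 *
          (2 * (vM n * gt (Real.exp y) ε lam n) - (1 + η) * gt (Real.exp y) ε lam n ^ 2) := by
  obtain ⟨c, hc, Xc, hXc⟩ := LL_ge
  obtain ⟨Xu, hXu⟩ := LL_le
  obtain ⟨C₆, hC₆⟩ := sum_Q1_ge
  obtain ⟨C₇, hC₇⟩ := sum_Q1_le
  obtain ⟨C₈, hC80, hC₈⟩ := pd_SR_le
  obtain ⟨Xl, hXl⟩ := ev_Lg 0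
  obtain ⟨c0, hc0⟩ : ∃ c0 : ℝ, c0 = min c 1 := ⟨_, rfl⟩
  have hc0p : 0 < c0 := by rw [hc0]; exact lt_min hc one_pos
  have hc01 : c0 ≤ 1 := by rw [hc0]; exact min_le_right _ _
  have hc0c : c0 ≤ c := by rw [hc0]; exact min_le_left _ _
  obtain ⟨K', hK'⟩ : ∃ K' : ℝ, K' = 300 ^ 12 := ⟨_, rfl⟩
  have hK'1 : 1 ≤ K' := by rw [hK']; norm_num
  have hK'0 : 0 < K' := by linarith
  have heps : eps4 = 1 / 10 ^ 6 := rfl
  obtain ⟨cg, hcg⟩ : ∃ cg : ℝ, cg = eps4 * c0 ^ 12 / (4 * K') := ⟨_, rfl⟩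
  have hcgp : 0 < cg := by rw [hcg, heps]; positivity
  have hcg1 : cg ≤ 1 / 4 := by
    rw [hcg, div_le_iff₀ (by positivity)]
    have : c0 ^ 12 ≤ 1 := pow_le_one₀ hc0p.le hc01
    have h0 : 0 ≤ c0 ^ 12 := by positivity
    rw [heps]
    have h1 : 1 / 10 ^ 6 * c0 ^ 12 ≤ 1 * 1 := mul_le_mul (by norm_num) this h0 (by norm_num)
    linarith
  obtain ⟨ε, hε⟩ : ∃ ε : ℝ, ε = min (cg / 20) (1 / 10 ^ 4) := ⟨_, rfl⟩
  have hεp : 0 < ε := by rw [hε]; apply lt_min <;> positivity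
  have hε4 : ε ≤ 1 / 10 ^ 4 := by rw [hε]; exact min_le_right _ _
  have hεc : ε ≤ cg / 20 := by rw [hε]; exact min_le_left _ _
  obtain ⟨η, hη⟩ : ∃ η : ℝ, η = cg / 20 := ⟨_, rfl⟩
  have hηp : 0 < η := by rw [hη]; positivity
  have hη1 : η ≤ 1 := by rw [hη]; linarith
  obtain ⟨Xe, hXe⟩ := ev_Le ε hεp (hε4.trans (by norm_num))
  obtain ⟨X6, hX6⟩ := hC₆ ε hεp hε4
  obtain ⟨X7, hX7⟩ := hC₇ ε hεp hε4
  refine ⟨cg / 2, ε, η, by positivity, by linarith, hεp, hε4, hηp, hη1, ?_⟩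
  intro W hW h0 h1 hs hI
  obtain ⟨K, hK0, hK⟩ := abel_V2 hW h0 h1 hs
  obtain ⟨K2, hK20, hK2⟩ := sum_V2 hW h0 h1 hs
  obtain ⟨K3, hK30, hK3⟩ := sum_V2_vM hRH hW h0 h1 hs
  obtain ⟨I, hIdef⟩ : ∃ I : ℝ, I = I2 W := ⟨_, rfl⟩
  rw [← hIdef] at hI hK2 hK3 ⊢
  obtain ⟨τ, hτ⟩ : ∃ τ : ℝ, τ = I * cg / (100 * (K + 1)) := ⟨_, rfl⟩
  have hτp : 0 < τ := by rw [hτ]; positivity
  have hKτ : K * τ ≤ I * cg / 100 := by
    rw [hτ]
    have : K * (I * cg / (100 * (K + 1))) = (I * cg / 100) * (K / (K + 1)) := by field_simp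
    rw [this]
    apply mul_le_of_le_one_right (by positivity)
    rw [div_le_one (by positivity)]
    linarith
  obtain ⟨Xx, hXx⟩ := cross_abs hRH ε hεp hε4 τ hτp
  -- eventually conditions
  have hexp := Real.tendsto_exp_atTop
  have ev1 : ∀ᶠ y : ℝ in Filter.atTop, ((6 + 2 * K') * K) * y ^ 0 * Real.exp (-ε * y) ≤
      Real.exp (0 * y) := ev_exp 0 _ _ _ (by linarith)
  have ev2 : ∀ᶠ y : ℝ in Filter.atTop, ((K2 + K3) * (4 * (1 + |C₇| + C₈) + 4 * (1 + |C₇| + C₈))) * y ^ 1 *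
      Real.exp (-(1 / 2) * y) ≤ Real.exp (0 * y) := ev_exp 1 _ _ _ (by norm_num)
  have ev3 : ∀ᶠ y : ℝ in Filter.atTop, (I * |C₆| + 2) * (32 / (I * cg)) + 1 + C₈ + 10 ≤ y :=
    Filter.eventually_ge_atTop _
  have evX : ∀ᶠ y : ℝ in Filter.atTop, (max (max Xc Xu) (max Xl Xe)) ≤ Real.exp y ∧
      (max (max X6 X7) (max Xx 1)) ≤ Real.exp y :=
    (hexp.eventually_ge_atTop _).and (hexp.eventually_ge_atTop _)
  obtain ⟨Y₀, hY₀⟩ := Filter.eventually_atTop.1 ((ev1.and ev2).and (ev3.and evX))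
  refine ⟨Y₀, fun y hy => ?_⟩
  obtain ⟨⟨v1, v2⟩, v3, v4, v5⟩ := hY₀ y hy
  rw [zero_mul, Real.exp_zero, pow_zero, mul_one] at v1
  rw [zero_mul, Real.exp_zero, pow_one] at v2
  obtain ⟨X, hXdef⟩ : ∃ X : ℝ, X = Real.exp y := ⟨_, rfl⟩
  rw [← hXdef] at v4 v5 ⊢
  have q4 : Xc ≤ X := (le_trans (le_max_left _ _) (le_max_left _ _)).trans v4
  have q5 : Xu ≤ X := (le_trans (le_max_right _ _) (le_max_left _ _)).trans v4
  have q6 : Xl ≤ X := (le_trans (le_max_left _ _) (le_max_right _ _)).trans v4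
  have q7 : Xe ≤ X := (le_trans (le_max_right _ _) (le_max_right _ _)).trans v4
  have q8 : X6 ≤ X := (le_trans (le_max_left _ _) (le_max_left _ _)).trans v5
  have q9 : X7 ≤ X := (le_trans (le_max_right _ _) (le_max_left _ _)).trans v5
  have q11 : Xx ≤ X := (le_trans (le_max_left _ _) (le_max_right _ _)).trans v5
  have q10 : 1 ≤ X := (le_trans (le_max_right _ _) (le_max_right _ _)).trans v5
  have hlogX : Real.log X = y := by rw [hXdef, Real.log_exp]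
  have hLg := hXl X q6
  have hLe := hXe X q7
  have hLLc := hXc X q4
  have hLL := hXu X q5
  have hQ1ge := hX6 X q8
  have hQ1le := hX7 X q9
  have hSle := hC₈ X q10
  rw [hlogX] at hQ1ge hQ1le hSle
  have hX0 : 0 < X := by linarith
  have hbase : 0 ≤ (I * |C₆| + 2) * (32 / (I * cg)) := by positivity
  have hy10 : 10 ≤ y := by linarith
  have hyC8 : C₈ ≤ y := by linarith
  obtain ⟨T, hT⟩ : ∃ T : ℝ, T = X ^ tau0 := ⟨_, rfl⟩
  rw [← hT] at hLg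
  obtain ⟨P, hP⟩ : ∃ P : ℝ, P = ∏ i, LL (PS X i) := ⟨_, rfl⟩
  have hPc : c0 ^ 6 ≤ P := by
    rw [hP]
    calc c0 ^ 6 = ∏ _i : Fin 6, c0 := by simp
      _ ≤ ∏ i, LL (PS X i) := prod_le_prod (fun _ _ => hc0p.le) (fun i _ => hc0c.trans (hLLc i))
  have hP0 : 0 ≤ P := (by positivity : (0 : ℝ) ≤ c0 ^ 6).trans hPc
  have hP1 : P ≤ 1 := by
    rw [hP]
    calc ∏ i, LL (PS X i) ≤ ∏ _i : Fin 6, (1 : ℝ) :=
          prod_le_prod (fun i _ => hc.le.trans (hLLc i)) (fun i _ => hLL i)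
      _ = 1 := by simp
  have hS0 : eps4 * y / 2 ≤ SR X := by rw [← hlogX]; exact sum_RS_ge hLg
  have hSnn : 0 ≤ SR X := by
    refine le_trans ?_ hS0
    rw [heps]; positivity
  have hS2y : SR X ≤ 2 * y := by
    rw [heps] at hSle
    linarith
  obtain ⟨lam, hlam⟩ : ∃ lam : ℝ, lam = P / (2 * K') := ⟨_, rfl⟩
  have hlam0 : 0 ≤ lam := by
    rw [hlam]; exact div_nonneg hP0 (by positivity)
  have hlam1 : lam ≤ 1 := by rw [hlam, div_le_one (by positivity)]; linarith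
  refine ⟨lam, hlam0, hlam1, ?_⟩
  obtain ⟨N, hN⟩ : ∃ N : ℕ, N = ⌊Real.exp (y + 1)⌋₊ := ⟨_, rfl⟩
  have hKy := hK y hy10
  have hK2y := hK2 y hy10
  have hK3y := hK3 y hy10
  rw [← hN] at hKy hK2y hK3y ⊢
  have hNX : (N : ℝ) ≤ 4 * X := by
    rw [hN, hXdef]
    calc (⌊Real.exp (y + 1)⌋₊ : ℝ) ≤ Real.exp (y + 1) := Nat.floor_le (Real.exp_pos _).le
      _ = Real.exp 1 * Real.exp y := by rw [← Real.exp_add]; congr 1; ring
      _ ≤ 4 * Real.exp y := by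
          apply mul_le_mul_of_nonneg_right _ (Real.exp_pos _).le
          have := Real.exp_one_lt_d9
          linarith
  have hMX : ∀ M : ℕ, M ≤ N → (M : ℝ) ≤ 4 * X := fun M hM =>
    le_trans (by exact_mod_cast hM) hNX
  obtain ⟨S1, hS1⟩ : ∃ S1 : ℝ, S1 = ∑ q ∈ Q1 X ε, 1 / (q.totient : ℝ) := ⟨_, rfl⟩
  have hS1nn : 0 ≤ S1 := by rw [hS1]; exact sum_nonneg fun q _ => by positivity
  rw [← hS1] at hQ1ge hQ1le
  have h4X10 : 4 * X ≤ X ^ (10 : ℝ) := by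
    have h1 := pd_absorb hLg 0 (a := 1) (b := 10) (by unfold tau0; norm_num)
    rw [Real.rpow_one, pow_zero, mul_one] at h1
    linarith
  have hM10 : ∀ M : ℕ, M ≤ N → 0 + M ≤ ⌊X ^ (10 : ℝ)⌋₊ := fun M hM => by
    rw [zero_add]
    exact Nat.le_floor ((hMX M hM).trans h4X10)
  have hQm : ⌊X ^ (501 / 1000 : ℝ)⌋₊ ≤ ⌊X ^ (10 : ℝ)⌋₊ :=
    Nat.floor_le_floor (Real.rpow_le_rpow_of_exponent_le q10 (by norm_num))
  -- the common error
  obtain ⟨er, her⟩ : ∃ er : ℝ, er = K * Real.exp (-y) * X ^ (1 - ε) := ⟨_, rfl⟩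
  have her' : er = K * Real.exp (-ε * y) := by
    have h2 : X ^ (1 - ε) = Real.exp (y * (1 - ε)) := by
      rw [hXdef, ← Real.exp_mul]
    rw [her, h2, mul_assoc, ← Real.exp_add]
    congr 2
    ring
  have her0 : 0 ≤ er := by rw [her']; positivity
  -- the two first sums
  have d1 : |∑ n ∈ Ioc 0 N, Vw W y n ^ 2 * (vM n * FQ (Q1 X ε) n) -
      S1 * ∑ n ∈ Ioc 0 N, Vw W y n ^ 2 * vM n| ≤ er := by
    have h := hKy (fun n => vM n * FQ (Q1 X ε) n - S1 * vM n) (X ^ (1 - ε)) (fun M hM => by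
      have h2 := vM_diag hLg.big (Q1 X ε) ⌊X ^ (501 / 1000 : ℝ)⌋₊ hQm (by
        intro q hq
        unfold Q1 at hq
        rw [mem_filter, mem_Ioc] at hq
        refine ⟨hq.2, hq.1.2.trans (Nat.floor_le_floor (Real.rpow_le_rpow_of_exponent_le q10 ?_))⟩
        linarith) 0 M (hM10 M hM)
      rw [zero_add, ← hS1] at h2
      rw [sum_sub_distrib, ← mul_sum]
      exact h2.trans (pd_err hLg hε4 M (hMX M hM)))
    rw [← her] at h
    refine le_trans (le_of_eq ?_) h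
    congr 1
    rw [mul_sum, ← sum_sub_distrib]
    apply sum_congr rfl; intro n _; ring
  have d2 : |∑ n ∈ Ioc 0 N, Vw W y n ^ 2 * (vM n * FQ (Q2 X) n) -
      (SR X * P) * ∑ n ∈ Ioc 0 N, Vw W y n ^ 2 * vM n| ≤ er := by
    have h := hKy (fun n => vM n * FQ (Q2 X) n - (SR X * P) * vM n) (X ^ (1 - ε)) (fun M hM => by
      have h2 := vM_diag hLg.big (Q2 X) ⌊X ^ (501 / 1000 : ℝ)⌋₊ hQm (by
        intro q hq
        obtain ⟨e1, e2, e3⟩ := mem_Q2 hLg hq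
        exact ⟨e1, Nat.le_floor e3⟩) 0 M (hM10 M hM)
      rw [zero_add, sum_Q2 hLg, ← hP] at h2
      rw [sum_sub_distrib, ← mul_sum]
      exact h2.trans (pd_err hLg hε4 M (hMX M hM)))
    rw [← her] at h
    refine le_trans (le_of_eq ?_) h
    congr 1
    rw [mul_sum, ← sum_sub_distrib]
    apply sum_congr rfl; intro n _; ring
  have d3 : |∑ n ∈ Ioc 0 N, Vw W y n ^ 2 * FQ (Q1 X ε) n ^ 2 -
      S1 * ∑ n ∈ Ioc 0 N, Vw W y n ^ 2| ≤ er := by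
    have h := hKy (fun n => FQ (Q1 X ε) n ^ 2 - S1) (X ^ (1 - ε)) (fun M hM => by
      have h2 := q1_sq ε hεp hε4 hLe 0 M
      rw [zero_add, ← hS1] at h2
      rw [sum_sub_distrib, sum_const, Nat.card_Ioc, nsmul_eq_mul, Nat.sub_zero, mul_comm (M : ℝ)]
      exact h2)
    rw [← her] at h
    refine le_trans (le_of_eq ?_) h
    congr 1
    rw [mul_sum, ← sum_sub_distrib]
    apply sum_congr rfl; intro n _; ring
  have d4 : |∑ n ∈ Ioc 0 N, Vw W y n ^ 2 * (FQ (Q1 X ε) n * FQ (Q2 X) n)| ≤ K * τ * SR X := by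
    have h := hKy (fun n => FQ (Q1 X ε) n * FQ (Q2 X) n) (τ * (SR X * X)) (fun M hM =>
      hXx X q11 M (hMX M hM))
    refine h.trans (le_of_eq ?_)
    have h2 : Real.exp (-y) * X = 1 := by
      rw [hXdef, ← Real.exp_add]; simp
    calc K * Real.exp (-y) * (τ * (SR X * X)) = K * τ * SR X * (Real.exp (-y) * X) := by ring
      _ = K * τ * SR X := by rw [h2, mul_one]
  have d5 : ∑ n ∈ Ioc 0 N, Vw W y n ^ 2 * FQ (Q2 X) n ^ 2 ≤
      K' * (SR X * ∑ n ∈ Ioc 0 N, Vw W y n ^ 2 + er) := by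
    have h := hKy (fun n => FQ (RS X) n * FQ (RS X) n - SR X) (X ^ (1 - ε)) (fun M hM =>
      (pd_rs hLg M).trans (Real.rpow_le_rpow_of_exponent_le q10 (by linarith)))
    rw [← her] at h
    have h2 : ∑ n ∈ Ioc 0 N, Vw W y n ^ 2 * FQ (Q2 X) n ^ 2 ≤
        ∑ n ∈ Ioc 0 N, K' * (Vw W y n ^ 2 * (FQ (RS X) n * FQ (RS X) n)) := by
      apply sum_le_sum
      intro n hn
      rw [mem_Ioc] at hn
      have h3 := pd_q2 hLg hLL n hn.1 (hMX n hn.2)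
      rw [← hK'] at h3
      have h4 : 0 ≤ Vw W y n ^ 2 := sq_nonneg _
      calc Vw W y n ^ 2 * FQ (Q2 X) n ^ 2 ≤ Vw W y n ^ 2 * (K' * (FQ (RS X) n * FQ (RS X) n)) :=
            mul_le_mul_of_nonneg_left h3 h4
        _ = K' * (Vw W y n ^ 2 * (FQ (RS X) n * FQ (RS X) n)) := by ring
    refine h2.trans ?_
    rw [← mul_sum]
    apply mul_le_mul_of_nonneg_left _ hK'0.le
    have h5 : ∑ n ∈ Ioc 0 N, Vw W y n ^ 2 * (FQ (RS X) n * FQ (RS X) n - SR X) =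
        ∑ n ∈ Ioc 0 N, Vw W y n ^ 2 * (FQ (RS X) n * FQ (RS X) n) -
          SR X * ∑ n ∈ Ioc 0 N, Vw W y n ^ 2 := by
      rw [mul_sum, ← sum_sub_distrib]
      apply sum_congr rfl; intro n _; ring
    rw [h5] at h
    have := (abs_le.1 h).2
    linarith
  -- the masses
  obtain ⟨s, hs'⟩ : ∃ s : ℝ, s = (K2 + K3) * Real.exp (-(1 / 2) * y) := ⟨_, rfl⟩
  have hexp1 : Real.exp (-y) ≤ Real.exp (-(1 / 2) * y) := Real.exp_le_exp.2 (by linarith)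
  have hexp2 : Real.exp (-(y / 2)) = Real.exp (-(1 / 2) * y) := by congr 1; ring
  have hv : |∑ n ∈ Ioc 0 N, Vw W y n ^ 2 - I| ≤ s := by
    refine hK2y.trans ?_
    rw [hs']
    have e1 : K2 * Real.exp (-y) ≤ K2 * Real.exp (-(1 / 2) * y) := mul_le_mul_of_nonneg_left hexp1 hK20
    have e2 : 0 ≤ K3 * Real.exp (-(1 / 2) * y) := by positivity
    rw [add_mul]
    linarith
  have hv' : |∑ n ∈ Ioc 0 N, Vw W y n ^ 2 * vM n - I| ≤ s := by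
    refine hK3y.trans ?_
    rw [hs', hexp2]
    have e2 : 0 ≤ K2 * Real.exp (-(1 / 2) * y) := by positivity
    rw [add_mul]
    linarith
  have f1 : ∑ n ∈ Ioc 0 N, Vw W y n ^ 2 *
      (2 * (vM n * gt X ε lam n) - (1 + η) * gt X ε lam n ^ 2) =
      2 * (∑ n ∈ Ioc 0 N, Vw W y n ^ 2 * (vM n * FQ (Q1 X ε) n) +
        lam * ∑ n ∈ Ioc 0 N, Vw W y n ^ 2 * (vM n * FQ (Q2 X) n)) -
      (1 + η) * (∑ n ∈ Ioc 0 N, Vw W y n ^ 2 * FQ (Q1 X ε) n ^ 2 +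
        2 * lam * ∑ n ∈ Ioc 0 N, Vw W y n ^ 2 * (FQ (Q1 X ε) n * FQ (Q2 X) n) +
        lam ^ 2 * ∑ n ∈ Ioc 0 N, Vw W y n ^ 2 * FQ (Q2 X) n ^ 2) := by
    simp only [mul_sum, ← sum_add_distrib, ← sum_sub_distrib]
    apply sum_congr rfl; intro n _
    unfold gt; ring
  have g1 := pd_alg (I := I) (S1 := S1) (S := SR X) (P := P)
    (A1 := ∑ n ∈ Ioc 0 N, Vw W y n ^ 2 * (vM n * FQ (Q1 X ε) n))
    (A2 := ∑ n ∈ Ioc 0 N, Vw W y n ^ 2 * (vM n * FQ (Q2 X) n))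
    (V' := ∑ n ∈ Ioc 0 N, Vw W y n ^ 2 * vM n)
    (V := ∑ n ∈ Ioc 0 N, Vw W y n ^ 2)
    (G11 := ∑ n ∈ Ioc 0 N, Vw W y n ^ 2 * FQ (Q1 X ε) n ^ 2)
    (G12 := ∑ n ∈ Ioc 0 N, Vw W y n ^ 2 * (FQ (Q1 X ε) n * FQ (Q2 X) n))
    (G22 := ∑ n ∈ Ioc 0 N, Vw W y n ^ 2 * FQ (Q2 X) n ^ 2)
    (ea := er) (ec := er) (ed := K * τ * SR X) (ee := er) (s := s) (K := K') (η := η)
    hI.le hS1nn hSnn hP0 hP1 hK'1 hηp.le hη1 hv' hv d1 d2 d3 d4 d5 her0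
  rw [← hlam] at g1
  rw [f1]
  refine le_trans ?_ g1
  -- numerical conclusion
  have hSP : 2 * cg * y ≤ SR X * P ^ 2 / (2 * K') * 2 := by
    have t1 : c0 ^ 12 ≤ P ^ 2 := by
      calc c0 ^ 12 = (c0 ^ 6) ^ 2 := by ring
        _ ≤ P ^ 2 := pow_le_pow_left₀ (by positivity) hPc 2
    have t2 : (eps4 * y / 2) * c0 ^ 12 ≤ SR X * P ^ 2 :=
      mul_le_mul hS0 t1 (by positivity) hSnn
    calc 2 * cg * y = ((eps4 * y / 2) * c0 ^ 12) / (2 * K') * 2 := by rw [hcg]; field_simp; ring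
      _ ≤ SR X * P ^ 2 / (2 * K') * 2 := by gcongr
  have hS1b : (1 / 2 - 2 * ε - η / 2) * y - |C₆| ≤ (1 - η) * S1 := by
    have t0 : (1 - η) * ((1 / 2 - 2 * ε) * y - C₆) ≤ (1 - η) * S1 :=
      mul_le_mul_of_nonneg_left hQ1ge (by linarith)
    have t1 : (1 - η) * C₆ ≤ |C₆| := by
      calc (1 - η) * C₆ ≤ (1 - η) * |C₆| :=
            mul_le_mul_of_nonneg_left (le_abs_self _) (by linarith)
        _ ≤ 1 * |C₆| := mul_le_mul_of_nonneg_right (by linarith) (abs_nonneg _)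
        _ = |C₆| := one_mul _
    have t2 : (1 / 2 - 2 * ε - η / 2) * y ≤ (1 - η) * ((1 / 2 - 2 * ε) * y) := by
      have : (1 - η) * ((1 / 2 - 2 * ε) * y) = (1 / 2 - 2 * ε - η / 2) * y + 2 * (η * (ε * y)) := by
        ring
      rw [this]
      have : 0 ≤ η * (ε * y) := by positivity
      linarith
    have t3 : (1 - η) * ((1 / 2 - 2 * ε) * y - C₆) = (1 - η) * ((1 / 2 - 2 * ε) * y) - (1 - η) * C₆ := by
      ring
    linarith
  have hbr : (1 / 2 + 7 / 8 * cg) * y - |C₆| ≤ (1 - η) * S1 + SR X * P ^ 2 / (2 * K') := by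
    have t0 : 2 * ε + η / 2 ≤ cg / 8 := by rw [hη]; linarith
    have t1 : (2 * ε + η / 2) * y ≤ cg / 8 * y :=
      mul_le_mul_of_nonneg_right t0 (by linarith)
    linarith
  have hbrI : I * ((1 / 2 + 7 / 8 * cg) * y - |C₆|) ≤
      I * ((1 - η) * S1 + SR X * P ^ 2 / (2 * K')) := mul_le_mul_of_nonneg_left hbr hI.le
  have hE1 : 4 * er + 2 * er + 2 * (K' * er) ≤ 1 := by
    rw [her']
    linarith
  have hE2 : 4 * (K * τ * SR X) ≤ I * cg / 12 * y := by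
    have t1 : K * τ * SR X ≤ I * cg / 100 * (2 * y) :=
      mul_le_mul hKτ hS2y hSnn (by positivity)
    have t2 : 0 ≤ I * cg * y := by positivity
    linarith
  have hE3 : s * (4 * S1 + 4 * SR X) ≤ 1 := by
    have t1 : S1 ≤ (1 + |C₇| + C₈) * y := by
      have a1 : C₇ ≤ |C₇| * y := by
        calc C₇ ≤ |C₇| * 1 := by rw [mul_one]; exact le_abs_self _
          _ ≤ |C₇| * y := mul_le_mul_of_nonneg_left (by linarith) (abs_nonneg _)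
      have a2 : 0 ≤ C₈ * y := by positivity
      linarith
    have t2 : SR X ≤ (1 + |C₇| + C₈) * y := by
      have a1 : 0 ≤ |C₇| * y := by positivity
      have a2 : C₈ ≤ C₈ * y := le_mul_of_one_le_right hC80 (by linarith)
      rw [heps] at hSle
      linarith
    have t3 : 4 * S1 + 4 * SR X ≤ (4 * (1 + |C₇| + C₈) + 4 * (1 + |C₇| + C₈)) * y := by linarith
    have hs0 : 0 ≤ s := by rw [hs']; positivity
    calc s * (4 * S1 + 4 * SR X) ≤ s * ((4 * (1 + |C₇| + C₈) + 4 * (1 + |C₇| + C₈)) * y) :=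
          mul_le_mul_of_nonneg_left t3 hs0
      _ = ((K2 + K3) * (4 * (1 + |C₇| + C₈) + 4 * (1 + |C₇| + C₈))) * y *
          Real.exp (-(1 / 2) * y) := by rw [hs']; ring
      _ ≤ 1 := v2
  have hC' : I * |C₆| + 2 ≤ I * cg / 32 * y := by
    have h1 : (I * |C₆| + 2) * (32 / (I * cg)) ≤ y := by linarith
    have h2 := mul_le_mul_of_nonneg_left h1 (by positivity : 0 ≤ I * cg / 32)
    have h3 : I * cg / 32 * ((I * |C₆| + 2) * (32 / (I * cg))) = I * |C₆| + 2 := by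
      field_simp
    linarith
  have hIy : 0 ≤ I * cg * y := by positivity
  have h7 : I * ((1 / 2 + 7 / 8 * cg) * y - |C₆|) = 1 / 2 * (I * y) + 7 / 8 * (I * cg * y) - I * |C₆| := by
    ring
  have h8 : (1 / 2 + cg / 2) * I * y = 1 / 2 * (I * y) + 1 / 2 * (I * cg * y) := by ring
  rw [h7] at hbrI
  rw [h8]
  linarith

end Pool.Agent.Lib.MP_00e05b_nt.PC
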