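import Mathlib

/-!
# JOB ZKer: the kernel

`k` = smooth bump with center `(1 + κ)/2` and radii `(1 - 2 κ)/2 < (1 - κ)/2` (`ContDiffBump`): `k = 1` on an interval of length `1 - 2 κ`, `k = 0` outside `[κ, 1]`.
`kh k x = ∫ k(t) cos(2 π x t) dt` is the real part of the Fourier transform of `k`; `k` is a Schwartz function, hence so is its Fourier transform (`HasCompactSupport.toSchwartzMap`, `SchwartzMap.decay`), or integrate by parts.
-/

set_option autoImplicit false

open MeasureTheory
open scoped ContDiff FourierTransform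

namespace Pool.Agent.Lib.MP_00e05b_nt.PC

/-- cosine transform -/
noncomputable def kh (k : ℝ → ℝ) (x : ℝ) : ℝ := ∫ t : ℝ, k t * Real.cos (2 * Real.pi * x * t)

/-- the properties of the kernel -/
structure Ker (κ : ℝ) (k : ℝ → ℝ) (CA : ℕ → ℝ) : Prop where
  cont : Continuous k
  nonneg : ∀ x, 0 ≤ k x
  le : ∀ x, k x ≤ 1
  low : ∀ x, x ≤ κ → k x = 0
  high : ∀ x, 1 ≤ x → k x = 0
  mass : 1 - 3 * κ ≤ kh k 0
  decay : ∀ (A : ℕ) (x : ℝ), |x| ^ A * |kh k x| ≤ CA A

theorem exists_ker {κ : ℝ} (h0 : 0 < κ) (h1 : κ < 1 / 2) : ∃ (k : ℝ → ℝ) (CA : ℕ → ℝ), Ker κ k CA := by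
  let b : ContDiffBump ((1 + κ) / 2 : ℝ) := ⟨(1 - 2 * κ) / 2, (1 - κ) / 2, by linarith, by linarith⟩
  set k : ℝ → ℝ := fun x => b x with hk
  have hsm : ContDiff ℝ ∞ k := b.contDiff
  have hcs : HasCompactSupport k := b.hasCompactSupport
  have hcs' : HasCompactSupport (fun x => (k x : ℂ)) := by
    refine hcs.comp_left (g := fun x : ℝ => (x : ℂ)) ?_
    simp
  have hsm' : ContDiff ℝ ∞ (fun x => (k x : ℂ)) := Complex.ofRealCLM.contDiff.comp hsm
  set f : SchwartzMap ℝ ℂ := hcs'.toSchwartzMap hsm' with hf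
  have hfc : (f : ℝ → ℂ) = fun x => (k x : ℂ) := rfl
  have hkz : ∀ x, (1 - κ) / 2 ≤ |x - (1 + κ) / 2| → k x = 0 := by
    intro x hx
    apply b.zero_of_le_dist
    rw [Real.dist_eq]
    exact hx
  have hk1 : ∀ x, |x - (1 + κ) / 2| ≤ (1 - 2 * κ) / 2 → k x = 1 := by
    intro x hx
    apply b.one_of_mem_closedBall
    rw [Metric.mem_closedBall, Real.dist_eq]
    exact hx
  have hkh : ∀ x : ℝ, |kh k x| ≤ ‖(𝓕 f : SchwartzMap ℝ ℂ) x‖ := by
    intro x
    rw [SchwartzMap.fourier_coe, hfc, Real.fourier_real_eq_integral_exp_smul]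
    have hint : Integrable (fun t : ℝ =>
        Complex.exp (↑(-2 * Real.pi * t * x) * Complex.I) • ((k t : ℝ) : ℂ)) := by
      apply Continuous.integrable_of_hasCompactSupport
      · have := hsm.continuous
        fun_prop
      · exact hcs'.mul_left
    have e : kh k x = (∫ t : ℝ,
        Complex.exp (↑(-2 * Real.pi * t * x) * Complex.I) • ((k t : ℝ) : ℂ)).re := by
      have e2 := integral_re hint
      simp only [RCLike.re_eq_complex_re] at e2
      rw [← e2]
      unfold kh
      refine integral_congr_ae (Filter.Eventually.of_forall fun t => ?_)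
      simp only [smul_eq_mul, Complex.mul_re, Complex.ofReal_re,
        Complex.ofReal_im, mul_zero, sub_zero, Complex.exp_ofReal_mul_I_re]
      have h2 : -2 * Real.pi * t * x = -(2 * Real.pi * x * t) := by ring
      rw [h2, Real.cos_neg]
      ring
    rw [e]
    exact Complex.abs_re_le_norm _
  have hdec : ∀ A : ℕ, ∃ C : ℝ, ∀ x : ℝ, |x| ^ A * ‖(𝓕 f : SchwartzMap ℝ ℂ) x‖ ≤ C := by
    intro A
    obtain ⟨C, hC⟩ := (𝓕 f : SchwartzMap ℝ ℂ).decay A 0
    refine ⟨C, fun x => ?_⟩
    have := hC.2 x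
    rwa [norm_iteratedFDeriv_zero, Real.norm_eq_abs] at this
  choose CA hCA using hdec
  refine ⟨k, CA, ?_, ?_, ?_, ?_, ?_, ?_, ?_⟩
  · exact hsm.continuous
  · exact fun x => b.nonneg
  · exact fun x => b.le_one
  · intro x hx
    apply hkz
    have := neg_le_abs (x - (1 + κ) / 2)
    linarith
  · intro x hx
    apply hkz
    have := le_abs_self (x - (1 + κ) / 2)
    linarith
  · have e : kh k 0 = ∫ t : ℝ, k t := by
      unfold kh
      simp
    rw [e]
    have hI : IntegrableOn k (Set.Icc (3 * κ / 2) (1 - κ / 2)) :=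
      hsm.continuous.integrableOn_Icc
    calc 1 - 3 * κ ≤ ∫ t in Set.Icc (3 * κ / 2) (1 - κ / 2), (1 : ℝ) := by
          rw [setIntegral_const, smul_eq_mul, mul_one, measureReal_def, Real.volume_Icc,
            ENNReal.toReal_ofReal (by linarith)]
          linarith
      _ = ∫ t in Set.Icc (3 * κ / 2) (1 - κ / 2), k t := by
          refine setIntegral_congr_fun measurableSet_Icc fun t ht => ?_
          rw [Set.mem_Icc] at ht
          rw [hk1 t]
          rw [abs_le]
          constructor <;> linarith [ht.1, ht.2]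
      _ ≤ ∫ t : ℝ, k t := by
          apply setIntegral_le_integral
          · exact hsm.continuous.integrable_of_hasCompactSupport hcs
          · exact Filter.Eventually.of_forall fun x => b.nonneg
  · intro A x
    refine le_trans ?_ (hCA A x)
    exact mul_le_mul_of_nonneg_left (hkh x) (by positivity)

end Pool.Agent.Lib.MP_00e05b_nt.PC
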