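import Mathlib
import Pool.Agent.Lib.MP_00e05b_nt.ApproxB

/-!
# JOB ZPlan: Plancherel for the zero side

`ZR W ρ T y (2 π β) = ∫_{y-ρ}^{y+ρ} W(u - y) e^{(u-y)/2} SS T u e^{-2 π i β e^u} du`. Substitute `s = e^u`: it is the Fourier transform at `β` (Mathlib `𝓕 h β = ∫ e^{-2πi s β} h(s) ds`) of
`h(s) = W(log s - y) (s e^{-y})^{1/2} SS T (log s) / s` for `s > 0`, `h(s) = 0` for `s ≤ 0`. `h` is smooth with compact support in `[e^{y-ρ}, e^{y+ρ}]` (`SS T` is a finite sum of exponentials; `W(log s - y) = 0` near the boundary because of `ρ' < ρ`),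
so it is a Schwartz function (`HasCompactSupport.toSchwartzMap`) and Plancherel for Schwartz functions applies (Mathlib: `SchwartzMap.integral_norm_sq_fourier` or `SchwartzMap.integral_inner_fourier_fourier`, or
`MeasureTheory.integral_norm_sq_fourier...`; `Real.fourier_eq'`). `∫ |h|^2 ds = ∫ W(log s - y)^2 s e^{-y} |SS T (log s)|^2 / s^2 ds = e^{-y} ∫ W(u - y)^2 |SS T u|^2 du ≤ e^{-y} ∫_{y-ρ}^{y+ρ} |SS T u|^2 du`.
-/

set_option autoImplicit false

open Complex MeasureTheory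
open scoped ContDiff FourierTransform

namespace Pool.Agent.Lib.MP_00e05b_nt.PC

/-- the function whose Fourier transform is `ZR` -/
private noncomputable def zpH (W : ℝ → ℝ) (T y s : ℝ) : ℂ :=
  if 0 < s then ((W (Real.log s - y) * Real.exp (1 / 2 * (Real.log s - y)) : ℝ) : ℂ) *
    SS T (Real.log s) / (s : ℂ) else 0

private lemma zp_SS_smooth (T : ℝ) : ContDiff ℝ ∞ (SS T) := by
  unfold SS
  refine ContDiff.sum fun γ _ => contDiff_const.mul ?_
  have h1 : ContDiff ℝ ∞ (fun v : ℝ => ((γ : ℂ) * (v : ℂ) * I)) :=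
    (contDiff_const.mul Complex.ofRealCLM.contDiff).mul contDiff_const
  exact h1.cexp

private lemma zp_zero {W : ℝ → ℝ} {ρ' ρ : ℝ} (hρ' : ρ' < ρ) (hs' : ∀ u, ρ' ≤ |u| → W u = 0)
    (T y s : ℝ) (h : s ≤ Real.exp (y - ρ) ∨ Real.exp (y + ρ) ≤ s) : zpH W T y s = 0 := by
  unfold zpH
  split_ifs with h0
  · have : W (Real.log s - y) = 0 := by
      apply hs'
      rcases h with h | h
      · have h1 : Real.log s ≤ y - ρ := by
          rw [Real.log_le_iff_le_exp h0]; exact h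
        have h2 := neg_le_abs (Real.log s - y)
        linarith
      · have h1 : y + ρ ≤ Real.log s := by
          rw [Real.le_log_iff_exp_le h0]; exact h
        have h2 := le_abs_self (Real.log s - y)
        linarith
    rw [this]
    simp
  · rfl

private lemma zp_smooth {W : ℝ → ℝ} (hW : ContDiff ℝ ∞ W) {ρ' ρ : ℝ} (hρ' : ρ' < ρ)
    (hs' : ∀ u, ρ' ≤ |u| → W u = 0) (T y : ℝ) : ContDiff ℝ ∞ (zpH W T y) := by
  rw [contDiff_iff_contDiffAt]
  intro s
  rcases lt_or_ge s (Real.exp (y - ρ)) with h | h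
  · have e0 : zpH W T y =ᶠ[nhds s] fun _ => 0 := by
      filter_upwards [isOpen_Iio.mem_nhds h] with x hx
      exact zp_zero hρ' hs' T y x (Or.inl (le_of_lt hx))
    exact contDiffAt_const.congr_of_eventuallyEq e0
  · have hs0 : 0 < s := lt_of_lt_of_le (Real.exp_pos _) h
    have e0 : zpH W T y =ᶠ[nhds s] fun s =>
        ((W (Real.log s - y) * Real.exp (1 / 2 * (Real.log s - y)) : ℝ) : ℂ) *
          SS T (Real.log s) / (s : ℂ) := by
      filter_upwards [isOpen_Ioi.mem_nhds hs0] with x hx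
      unfold zpH
      rw [if_pos (show 0 < x from hx)]
    refine ContDiffAt.congr_of_eventuallyEq ?_ e0
    have hlog : ContDiffAt ℝ ∞ Real.log s := Real.contDiffAt_log.2 hs0.ne'
    have h1 : ContDiffAt ℝ ∞ (fun s : ℝ => Real.log s - y) s := hlog.sub contDiffAt_const
    have h2 : ContDiffAt ℝ ∞ (fun s : ℝ => W (Real.log s - y)) s :=
      hW.contDiffAt.comp s h1
    have h3 : ContDiffAt ℝ ∞ (fun s : ℝ => Real.exp (1 / 2 * (Real.log s - y))) s :=
      (contDiffAt_const.mul h1).exp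
    have h4 : ContDiffAt ℝ ∞ (fun s : ℝ =>
        ((W (Real.log s - y) * Real.exp (1 / 2 * (Real.log s - y)) : ℝ) : ℂ)) s :=
      Complex.ofRealCLM.contDiff.contDiffAt.comp s (h2.mul h3)
    have h5 : ContDiffAt ℝ ∞ (fun s : ℝ => SS T (Real.log s)) s :=
      (zp_SS_smooth T).contDiffAt.comp s hlog
    have h6 : ContDiffAt ℝ ∞ (fun s : ℝ => (s : ℂ)) s := Complex.ofRealCLM.contDiff.contDiffAt
    have h7 : ((s : ℝ) : ℂ) ≠ 0 := by exact_mod_cast hs0.ne'
    simp only [div_eq_mul_inv]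
    exact (h4.mul h5).mul (h6.inv h7)

private lemma zp_supp {W : ℝ → ℝ} {ρ' ρ : ℝ} (hρ' : ρ' < ρ)
    (hs' : ∀ u, ρ' ≤ |u| → W u = 0) (T y : ℝ) : HasCompactSupport (zpH W T y) := by
  refine HasCompactSupport.intro (K := Set.Icc (Real.exp (y - ρ)) (Real.exp (y + ρ)))
    isCompact_Icc ?_
  intro x hx
  rw [Set.mem_Icc, not_and_or, not_le, not_le] at hx
  exact zp_zero hρ' hs' T y x (hx.imp le_of_lt le_of_lt)

/-- substitution `s = e^u` -/
private lemma zp_subst {E : Type*} [NormedAddCommGroup E] [NormedSpace ℝ E] (F : ℝ → E)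
    (hF : ∀ s, s ≤ 0 → F s = 0) : ∫ s : ℝ, F s = ∫ u : ℝ, Real.exp u • F (Real.exp u) := by
  have h1 : ∫ s : ℝ, F s = ∫ s in Set.Ioi (0 : ℝ), F s := by
    symm
    apply setIntegral_eq_integral_of_forall_compl_eq_zero
    intro s hs
    exact hF s (not_lt.1 hs)
  have h2 : Real.exp '' Set.univ = Set.Ioi (0 : ℝ) := by
    rw [Set.image_univ, Real.range_exp]
  rw [h1, ← h2, integral_image_eq_integral_abs_deriv_smul MeasurableSet.univ
    (fun x _ => (Real.hasDerivAt_exp x).hasDerivWithinAt) Real.exp_injective.injOn,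
    Measure.restrict_univ]
  refine integral_congr_ae (Filter.Eventually.of_forall fun u => ?_)
  simp only [abs_of_pos (Real.exp_pos u)]

private lemma zp_exp (W : ℝ → ℝ) (T y u : ℝ) : zpH W T y (Real.exp u) =
    ((W (u - y) * Real.exp (1 / 2 * (u - y)) : ℝ) : ℂ) * SS T u / (Real.exp u : ℂ) := by
  unfold zpH
  rw [if_pos (Real.exp_pos u), Real.log_exp]

private lemma zp_neg (W : ℝ → ℝ) (T y s : ℝ) (hs : s ≤ 0) : zpH W T y s = 0 := by
  unfold zpH
  rw [if_neg (not_lt.2 hs)]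

private lemma zp_ZR {W : ℝ → ℝ} {ρ' ρ : ℝ} (hρ0 : 0 < ρ) (hρ' : ρ' < ρ)
    (hs' : ∀ u, ρ' ≤ |u| → W u = 0) (T y β : ℝ) :
    ZR W ρ T y (2 * Real.pi * β) = 𝓕 (zpH W T y) β := by
  rw [Real.fourier_real_eq_integral_exp_smul, zp_subst]
  · have e : ∀ u : ℝ, Real.exp u • (Complex.exp (↑(-2 * Real.pi * Real.exp u * β) * I) •
        zpH W T y (Real.exp u)) =
        (W (u - y) : ℂ) * ((Real.exp (1 / 2 * (u - y)) : ℂ) *
          (SS T u * ph 0 (2 * Real.pi * β) u)) := by
      intro u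
      rw [zp_exp, Complex.real_smul, smul_eq_mul]
      have h1 : (Real.exp u : ℂ) ≠ 0 := by exact_mod_cast (Real.exp_pos u).ne'
      have h2 : Complex.exp (↑(-2 * Real.pi * Real.exp u * β) * I) = ph 0 (2 * Real.pi * β) u := by
        unfold ph
        congr 3
        ring
      rw [h2, Complex.ofReal_mul]
      field_simp
    rw [integral_congr_ae (Filter.Eventually.of_forall e),
      integral_localR hρ0 (fun u hu => hs' u (hρ'.le.trans hu)) y]
    unfold ZR
    refine intervalIntegral.integral_congr fun u _ => ?_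
    rw [Complex.ofReal_mul]
    ring
  · intro s hs
    rw [zp_neg W T y s hs, smul_zero]

private lemma zp_norm (W : ℝ → ℝ) (T y u : ℝ) : Real.exp u • ‖zpH W T y (Real.exp u)‖ ^ 2 =
    Real.exp (-y) * (W (u - y) ^ 2 * ‖SS T u‖ ^ 2) := by
  rw [zp_exp, norm_div, norm_mul, Complex.norm_real, Complex.norm_real, Real.norm_eq_abs,
    Real.norm_eq_abs, abs_mul, abs_of_pos (Real.exp_pos u), abs_of_pos (Real.exp_pos _),
    smul_eq_mul, div_pow, mul_pow, mul_pow, sq_abs]
  have h1 : Real.exp (1 / 2 * (u - y)) ^ 2 = Real.exp u * Real.exp (-y) := by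
    rw [← Real.exp_nat_mul, ← Real.exp_add]
    congr 1
    push_cast
    ring
  rw [h1]
  have h2 := (Real.exp_pos u).ne'
  field_simp

theorem plancherel_ZR {W : ℝ → ℝ} (hW : ContDiff ℝ ∞ W) (h0 : ∀ u, 0 ≤ W u) (h1 : ∀ u, W u ≤ 1)
    {ρ' ρ : ℝ} (hρ0 : 0 < ρ) (hρ' : ρ' < ρ) (hs' : ∀ u, ρ' ≤ |u| → W u = 0) (T y : ℝ) :
    Continuous (fun β : ℝ => ZR W ρ T y (2 * Real.pi * β)) ∧
    Integrable (fun β : ℝ => ‖ZR W ρ T y (2 * Real.pi * β)‖ ^ 2) ∧
    ∫ β : ℝ, ‖ZR W ρ T y (2 * Real.pi * β)‖ ^ 2 ≤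
      Real.exp (-y) * ∫ u in (y - ρ)..(y + ρ), ‖SS T u‖ ^ 2 := by
  set f : SchwartzMap ℝ ℂ := (zp_supp hρ' hs' T y).toSchwartzMap (zp_smooth hW hρ' hs' T y) with hf
  have hfc : (f : ℝ → ℂ) = zpH W T y := rfl
  have e : (fun β : ℝ => ZR W ρ T y (2 * Real.pi * β)) = (𝓕 f : SchwartzMap ℝ ℂ) := by
    funext β
    rw [zp_ZR hρ0 hρ' hs' T y β, SchwartzMap.fourier_coe, hfc]
  have e' : (fun β : ℝ => ‖ZR W ρ T y (2 * Real.pi * β)‖ ^ 2) =
      fun β => ‖(𝓕 f : SchwartzMap ℝ ℂ) β‖ ^ 2 := by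
    funext β
    rw [← e]
  refine ⟨?_, ?_, ?_⟩
  · rw [e]
    exact (𝓕 f : SchwartzMap ℝ ℂ).continuous
  · rw [e']
    exact ((𝓕 f : SchwartzMap ℝ ℂ).memLp 2 volume).integrable_norm_pow (by norm_num)
  · rw [e', SchwartzMap.integral_norm_sq_fourier, hfc, zp_subst]
    · rw [integral_congr_ae (Filter.Eventually.of_forall (zp_norm W T y)), integral_const_mul]
      refine mul_le_mul_of_nonneg_left ?_ (Real.exp_pos _).le
      rw [intervalIntegral.integral_of_le (by linarith)]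
      have h2 : ∫ u : ℝ, W (u - y) ^ 2 * ‖SS T u‖ ^ 2 =
          ∫ u in Set.Ioc (y - ρ) (y + ρ), W (u - y) ^ 2 * ‖SS T u‖ ^ 2 := by
        symm
        apply setIntegral_eq_integral_of_forall_compl_eq_zero
        intro u hu
        have : W (u - y) = 0 := by
          apply hs'
          rw [Set.mem_Ioc, not_and_or, not_lt, not_le] at hu
          rcases hu with h | h
          · have := neg_le_abs (u - y)
            linarith
          · have := le_abs_self (u - y)
            linarith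
        rw [this]
        ring
      rw [h2]
      have hc1 : Continuous (fun u => W (u - y) ^ 2 * ‖SS T u‖ ^ 2) := by
        have := hW.continuous
        have := continuous_SS T
        fun_prop
      have hc2 : Continuous (fun u => ‖SS T u‖ ^ 2) := by
        have := continuous_SS T
        fun_prop
      apply setIntegral_mono_on
      · exact (hc1.integrableOn_Icc (a := y - ρ) (b := y + ρ)).mono_set Set.Ioc_subset_Icc_self
      · exact (hc2.integrableOn_Icc (a := y - ρ) (b := y + ρ)).mono_set Set.Ioc_subset_Icc_self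
      · exact measurableSet_Ioc
      · intro u _
        have h3 : W (u - y) ^ 2 ≤ 1 := pow_le_one₀ (h0 _) (h1 _)
        have h4 : 0 ≤ ‖SS T u‖ ^ 2 := sq_nonneg _
        nlinarith
    · intro s hs
      rw [zp_neg W T y s hs]
      simp

end Pool.Agent.Lib.MP_00e05b_nt.PC
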