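import Mathlib
import Pool.Agent.Lib.MP_00e05b_nt.PC.ZPlan
import Pool.Agent.Lib.MP_00e05b_nt.PC.ZKer
import Pool.Agent.Lib.MP_00e05b_nt.SharpWindow

/-!
# JOB ZMain: the main inequality

`V = Vw W y`, `c = cc κ ρ T y`, `SG(β) = ∑_{n ≤ N} V(n) g(n) e(n β)`. For `β ∈ [κ c, c]` (the support of `β ↦ k(β / c)`): `2 π β e^{y+ρ} ≤ (1 - κ) T` (definition of `cc`) and `e^{y/2} ≤ (2 π β e^{y-1})^3` (`hlow`), so `approxB` (`happ`) and `prime_sideR` give
`‖ZR W ρ T y (2 π β) + conj (SV V N β)‖ ≤ C1`. With `a = ZR`, `b = - conj SG`: `|a|^2 ≥ 2 Re(a conj b) - |b|^2 = -2 Re(a SG) - |SG|^2 ≥ 2 Re(conj(SV) SG) - 2 C1 |SG| - |SG|^2 ≥ 2 Re(conj(SV) SG) - (1 + η) |SG|^2 - C1^2/η`.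
Multiply by `0 ≤ k(β/c) ≤ 1` and integrate over `β` (`plancherel_ZR`): `∫ k(β/c) |ZR|^2 dβ ≤ e^{-y} ∫ |SS|^2`, and
`∫ k(β/c) Re(conj(SV) SG) dβ = ∑_n ∑_m V n vM n V m g m ∫ k(β/c) cos(2 π (m - n) β) dβ`, `∫ k(β/c) cos(2π (m-n) β) dβ = c kh k ((m - n) c)` (substitution), the same for `|SG|^2`, and `∫ k(β/c) dβ ≤ c`.
-/

set_option autoImplicit false

open Finset

namespace Pool.Agent.Lib.MP_00e05b_nt.PC

open Pool.Agent.Lib.MP_2a816b_nt

private lemma e_re (x : ℝ) : (e x).re = Real.cos (2 * Real.pi * x) := by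
  unfold e
  rw [show (2 * (Real.pi : ℂ) * (x : ℂ) * Complex.I) = ((2 * Real.pi * x : ℝ) : ℂ) * Complex.I by
    push_cast; ring, Complex.exp_ofReal_mul_I_re]

private lemma re_sum_mul (a b : ℕ → ℝ) (N : ℕ) (x : ℝ) :
    ((∑ n ∈ Ioc 0 N, (a n : ℂ) * e (n * x)) *
      (starRingEnd ℂ) (∑ n ∈ Ioc 0 N, (b n : ℂ) * e (n * x))).re =
    ∑ n ∈ Ioc 0 N, ∑ m ∈ Ioc 0 N, a n * b m * Real.cos (2 * Real.pi * ((m : ℝ) - n) * x) := by
  rw [map_sum, sum_mul_sum, Complex.re_sum]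
  apply sum_congr rfl; intro n _
  rw [Complex.re_sum]
  apply sum_congr rfl; intro m _
  rw [map_mul, Complex.conj_ofReal, conj_e]
  have h1 : (a n : ℂ) * e (n * x) * ((b m : ℂ) * e (-(m * x))) =
      ((a n * b m : ℝ) : ℂ) * e ((n : ℝ) * x + -(m * x)) := by
    rw [e_add]; push_cast; ring
  rw [h1, Complex.re_ofReal_mul, e_re]
  congr 1
  rw [← Real.cos_neg]
  congr 1
  ring

private lemma kc_cont {κ : ℝ} {k : ℝ → ℝ} {CA : ℕ → ℝ} (hk : Ker κ k CA) (c : ℝ) :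
    Continuous (fun β : ℝ => k (β / c)) := hk.cont.comp (continuous_id.div_const c)

private lemma kc_supp {κ : ℝ} {k : ℝ → ℝ} {CA : ℕ → ℝ} (hκ0 : 0 < κ) (hk : Ker κ k CA) {c : ℝ}
    (hc : 0 < c) : HasCompactSupport (fun β : ℝ => k (β / c)) := by
  apply HasCompactSupport.intro (isCompact_Icc (a := (0 : ℝ)) (b := c))
  intro β hβ
  rw [Set.mem_Icc, not_and_or, not_le, not_le] at hβ
  rcases hβ with h | h
  · apply hk.low
    have : β / c < 0 := div_neg_of_neg_of_pos h hc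
    linarith
  · apply hk.high
    rw [le_div_iff₀ hc]
    linarith

private lemma kc_int {κ : ℝ} {k : ℝ → ℝ} {CA : ℕ → ℝ} (hκ0 : 0 < κ) (hk : Ker κ k CA) {c : ℝ}
    (hc : 0 < c) {F : ℝ → ℝ} (hF : Continuous F) :
    MeasureTheory.Integrable (fun β : ℝ => k (β / c) * F β) :=
  ((kc_cont hk c).mul hF).integrable_of_hasCompactSupport ((kc_supp hκ0 hk hc).mul_right)

private lemma kc_cos {k : ℝ → ℝ} {c : ℝ} (hc : 0 < c) (x : ℝ) :
    ∫ β : ℝ, k (β / c) * Real.cos (2 * Real.pi * x * β) = c * kh k (x * c) := by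
  unfold kh
  have h1 := MeasureTheory.Measure.integral_comp_div
    (fun t : ℝ => k t * Real.cos (2 * Real.pi * (x * c) * t)) c
  rw [abs_of_pos hc, smul_eq_mul] at h1
  rw [← h1]
  congr 1
  ext β
  congr 2
  field_simp

private lemma kh_zero_le {κ : ℝ} {k : ℝ → ℝ} {CA : ℕ → ℝ} (hκ0 : 0 < κ) (hk : Ker κ k CA) :
    kh k 0 ≤ 1 := by
  unfold kh
  simp only [mul_zero, zero_mul, Real.cos_zero, mul_one]
  have h1 : ∫ t : ℝ, k t = ∫ t in Set.Icc (0 : ℝ) 1, k t := by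
    symm
    apply MeasureTheory.setIntegral_eq_integral_of_forall_compl_eq_zero
    intro t ht
    rw [Set.mem_Icc, not_and_or, not_le, not_le] at ht
    rcases ht with h | h
    · exact hk.low t (by linarith)
    · exact hk.high t (by linarith)
  rw [h1]
  calc ∫ t in Set.Icc (0 : ℝ) 1, k t ≤ ∫ _t in Set.Icc (0 : ℝ) 1, (1 : ℝ) := by
        apply MeasureTheory.setIntegral_mono_on hk.cont.integrableOn_Icc
          (continuous_const.integrableOn_Icc) measurableSet_Icc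
        intro t _
        exact hk.le t
    _ = 1 := by simp

theorem main_ineq {W : ℝ → ℝ} {ρ κ C1 : ℝ} (hC1 : 0 ≤ C1) (hκ0 : 0 < κ) (hκ1 : κ < 1)
    (happ : ∀ T y θ : ℝ, 1 ≤ T → 2 ≤ y → 0 < θ → θ * Real.exp (y + ρ) ≤ (1 - κ) * T →
      Real.exp (y / 2) ≤ (θ * Real.exp (y - 1)) ^ 3 →
      ‖ZR W ρ T y θ + ∑' n : ℕ, ((ArithmeticFunction.vonMangoldt n : ℝ) : ℂ) *
        (((Real.exp (-(y / 2)) * W (Real.log n - y) : ℝ) : ℂ) * ph 0 θ (Real.log n))‖ ≤ C1)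
    (hpl : ∀ T y : ℝ, Continuous (fun β : ℝ => ZR W ρ T y (2 * Real.pi * β)) ∧
      MeasureTheory.Integrable (fun β : ℝ => ‖ZR W ρ T y (2 * Real.pi * β)‖ ^ 2) ∧
      ∫ β : ℝ, ‖ZR W ρ T y (2 * Real.pi * β)‖ ^ 2 ≤
        Real.exp (-y) * ∫ u in (y - ρ)..(y + ρ), ‖SS T u‖ ^ 2)
    {k : ℝ → ℝ} {CA : ℕ → ℝ} (hk : Ker κ k CA) (T y : ℝ) (hT : 1 ≤ T) (hy : 2 ≤ y) (N : ℕ)
    (hVN : ∀ n, N < n → Vw W y n = 0)
    (hlow : Real.exp (y / 2) ≤ (2 * Real.pi * (κ * cc κ ρ T y) * Real.exp (y - 1)) ^ 3)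
    (g : ℕ → ℝ) (η : ℝ) (hη : 0 < η) :
    ∑ n ∈ Ioc 0 N, ∑ m ∈ Ioc 0 N, Vw W y n * Vw W y m *
        (2 * (vM n * g m) - (1 + η) * (g n * g m)) *
          (cc κ ρ T y * kh k (((m : ℝ) - n) * cc κ ρ T y)) - C1 ^ 2 / η * cc κ ρ T y ≤
      Real.exp (-y) * ∫ u in (y - ρ)..(y + ρ), ‖SS T u‖ ^ 2 := by
  have hT0 : 0 < T := by linarith
  have hc : 0 < cc κ ρ T y := cc_pos hκ1 hT0
  have hcdef : 2 * Real.pi * cc κ ρ T y * Real.exp (y + ρ) = (1 - κ) * T := by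
    unfold cc
    have := Real.pi_pos
    have := Real.exp_pos (y + ρ)
    field_simp
  generalize cc κ ρ T y = c at *
  set V : ℕ → ℝ := Vw W y with hV
  -- the quadratic form
  set P : ℝ → ℝ := fun β => ∑ n ∈ Ioc 0 N, ∑ m ∈ Ioc 0 N, V n * V m *
        (2 * (vM n * g m) - (1 + η) * (g n * g m)) *
          Real.cos (2 * Real.pi * ((m : ℝ) - n) * β) with hP
  have hPc : Continuous P := by
    simp only [hP]
    fun_prop
  have hptw : ∀ β : ℝ, k (β / c) * (P β - C1 ^ 2 / η) ≤ ‖ZR W ρ T y (2 * Real.pi * β)‖ ^ 2 := by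
    intro β
    by_cases hβ : κ * c < β ∧ β < c
    · obtain ⟨hβ1, hβ2⟩ := hβ
      have hpi := Real.pi_pos
      have hβ0 : 0 < β := lt_trans (by positivity) hβ1
      have happ' := happ T y (2 * Real.pi * β) hT hy (by positivity) (by
          rw [← hcdef]
          gcongr) (by
          refine hlow.trans ?_
          gcongr)
      have h3 := prime_sideR V N hVN β
      simp only [hV, Vw] at h3
      rw [h3] at happ'
      set SG : ℂ := ∑ n ∈ Ioc 0 N, ((V n * g n : ℝ) : ℂ) * e (n * β) with hSG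
      have h4 := sq_lower _ _ SG _ happ'
      have hSV : SV V N β = ∑ n ∈ Ioc 0 N, ((V n * vM n : ℝ) : ℂ) * e (n * β) := by
        unfold SV wt
        apply sum_congr rfl; intro n _
        push_cast
        ring
      have h5 : P β = 2 * (SV V N β * (starRingEnd ℂ) SG).re - (1 + η) * ‖SG‖ ^ 2 := by
        have h6 : ‖SG‖ ^ 2 = (SG * (starRingEnd ℂ) SG).re := by
          rw [Complex.mul_conj, Complex.ofReal_re, Complex.sq_norm]
        rw [h6, hSV, hSG, re_sum_mul, re_sum_mul, mul_sum, mul_sum, ← sum_sub_distrib]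
        simp only [hP]
        apply sum_congr rfl; intro n _
        rw [mul_sum, mul_sum, ← sum_sub_distrib]
        apply sum_congr rfl; intro m _
        ring
      have h7 : ((SV V N β - SG) * (starRingEnd ℂ) SG).re =
          (SV V N β * (starRingEnd ℂ) SG).re - ‖SG‖ ^ 2 := by
        rw [sub_mul, Complex.sub_re, Complex.mul_conj SG, Complex.ofReal_re, Complex.sq_norm]
      have h8 : 2 * C1 * ‖SG‖ ≤ η * ‖SG‖ ^ 2 + C1 ^ 2 / η := by
        have h9 : 0 ≤ (η * ‖SG‖ - C1) ^ 2 / η := by positivity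
        have h10 : (η * ‖SG‖ - C1) ^ 2 / η = η * ‖SG‖ ^ 2 + C1 ^ 2 / η - 2 * C1 * ‖SG‖ := by
          field_simp
          ring
        linarith
      have h11 : P β - C1 ^ 2 / η ≤ ‖ZR W ρ T y (2 * Real.pi * β)‖ ^ 2 := by
        rw [h5]
        change ‖SG‖ ^ 2 + 2 * ((SV V N β - SG) * (starRingEnd ℂ) SG).re - 2 * C1 * ‖SG‖ ≤ _ at h4
        rw [h7] at h4
        linarith
      calc k (β / c) * (P β - C1 ^ 2 / η) ≤ k (β / c) * ‖ZR W ρ T y (2 * Real.pi * β)‖ ^ 2 :=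
            mul_le_mul_of_nonneg_left h11 (hk.nonneg _)
        _ ≤ 1 * ‖ZR W ρ T y (2 * Real.pi * β)‖ ^ 2 :=
            mul_le_mul_of_nonneg_right (hk.le _) (by positivity)
        _ = _ := one_mul _
    · have h0 : k (β / c) = 0 := by
        rw [not_and_or, not_lt, not_lt] at hβ
        rcases hβ with h | h
        · exact hk.low _ (by rw [div_le_iff₀ hc]; exact h)
        · exact hk.high _ (by rw [le_div_iff₀ hc]; linarith)
      rw [h0, zero_mul]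
      positivity
  obtain ⟨_, hint, hple⟩ := hpl T y
  have h1 : ∫ β : ℝ, k (β / c) * (P β - C1 ^ 2 / η) ≤
      ∫ β : ℝ, ‖ZR W ρ T y (2 * Real.pi * β)‖ ^ 2 :=
    MeasureTheory.integral_mono (kc_int hκ0 hk hc (hPc.sub continuous_const)) hint hptw
  refine le_trans ?_ (h1.trans hple)
  have h2 : ∫ β : ℝ, k (β / c) * (P β - C1 ^ 2 / η) =
      (∫ β : ℝ, k (β / c) * P β) - C1 ^ 2 / η * ∫ β : ℝ, k (β / c) * 1 := by
    rw [← MeasureTheory.integral_const_mul, ← MeasureTheory.integral_sub (kc_int hκ0 hk hc hPc)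
      ((kc_int hκ0 hk hc continuous_const).const_mul _)]
    congr 1
    ext β
    ring
  have h3 : ∫ β : ℝ, k (β / c) * P β = ∑ n ∈ Ioc 0 N, ∑ m ∈ Ioc 0 N, V n * V m *
        (2 * (vM n * g m) - (1 + η) * (g n * g m)) * (c * kh k (((m : ℝ) - n) * c)) := by
    have e1 : ∀ β, k (β / c) * P β = ∑ n ∈ Ioc 0 N, ∑ m ∈ Ioc 0 N, V n * V m *
        (2 * (vM n * g m) - (1 + η) * (g n * g m)) *
        (k (β / c) * Real.cos (2 * Real.pi * ((m : ℝ) - n) * β)) := by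
      intro β
      simp only [hP]
      rw [mul_sum]
      apply sum_congr rfl; intro n _
      rw [mul_sum]
      apply sum_congr rfl; intro m _
      ring
    simp_rw [e1]
    have e2 : ∀ n m : ℕ, MeasureTheory.Integrable (fun β : ℝ => V n * V m *
        (2 * (vM n * g m) - (1 + η) * (g n * g m)) *
        (k (β / c) * Real.cos (2 * Real.pi * ((m : ℝ) - n) * β))) := fun n m =>
      (kc_int hκ0 hk hc (by fun_prop)).const_mul _
    rw [MeasureTheory.integral_finsetSum _ (fun n _ => MeasureTheory.integrable_finsetSum _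
      (fun m _ => e2 n m))]
    apply sum_congr rfl; intro n _
    rw [MeasureTheory.integral_finsetSum _ (fun m _ => e2 n m)]
    apply sum_congr rfl; intro m _
    rw [MeasureTheory.integral_const_mul, kc_cos hc]
  have h4 : ∫ β : ℝ, k (β / c) * 1 ≤ c := by
    have e1 := kc_cos (k := k) hc 0
    simp only [mul_zero, zero_mul, Real.cos_zero] at e1
    rw [e1]
    calc c * kh k 0 ≤ c * 1 := mul_le_mul_of_nonneg_left (kh_zero_le hκ0 hk) hc.le
      _ = c := mul_one _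
  rw [h2, h3]
  have h5 : C1 ^ 2 / η * ∫ β : ℝ, k (β / c) * 1 ≤ C1 ^ 2 / η * c :=
    mul_le_mul_of_nonneg_left h4 (by positivity)
  linarith

end Pool.Agent.Lib.MP_00e05b_nt.PC
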