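import Mathlib
import Pool.Agent.Lib.MP_00e05b_nt.PC.ZKer
import Pool.Agent.Lib.MP_00e05b_nt.PC.PCorr

/-!
# JOB ZOff: the off-diagonal terms

`V = Vw W y`, `N = ⌊e ^ (y+1)⌋`, `g = gt (e ^ y) ε lam`, `c ≥ e ^ (-(ε / 400) y)`. Group the pairs `(n, m)`, `n ≠ m`, by `j = m - n` (`m = n + j`; for `m` outside `[1, N]` the weight `V((n + j).toNat)` vanishes: `Vw_large`, `V 0 = 0`).
* `0 < |j| ≤ e ^ ((ε/100) y)`: `|kh k (j c)| ≤ kh k 0 ≤ 1` and `corr_V`: total `≤ (2 e ^ ((ε/100) y) + 1) (2 + 2) e ^ (-(ε/60) y) ≤ 12 e ^ (-(ε/150) y)`.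
* `|j| > e ^ ((ε/100) y)`: `|kh k (j c)| ≤ CA A / |j c| ^ A ≤ CA A e ^ (- A (ε/100 - ε/400) y)`, at most `N ^ 2 ≤ e ^ (2 y + 2)` pairs with `V n V m ≤ e ^ (-y)`, `|2 vM n g m - (1 + η) g n g m| ≤ 4 e ^ (y / 5)` (`gt_bound`). With `A = ⌈400 / ε⌉` the total is `≤ 4 CA A e ^ (2 y + 2 - y + y/5 - 3 y)`.
-/

set_option autoImplicit false

open Finset Real
open scoped ContDiff

namespace Pool.Agent.Lib.MP_00e05b_nt.PC

open Pool.Agent.Lib.MP_2a816b_nt Pool.Agent.Lib.MP_2a816b_nt.BH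

lemma off_kh_far {κ : ℝ} {k : ℝ → ℝ} {CA : ℕ → ℝ} (hk : Ker κ k CA) (A : ℕ) (x R : ℝ)
    (hR : 0 < R) (hx : R ≤ |x|) : |kh k x| ≤ CA A / R ^ A := by
  rw [le_div_iff₀ (pow_pos hR A)]
  have h1 := hk.decay A x
  have h2 : R ^ A ≤ |x| ^ A := pow_le_pow_left₀ hR.le hx A
  calc |kh k x| * R ^ A ≤ |kh k x| * |x| ^ A := mul_le_mul_of_nonneg_left h2 (abs_nonneg _)
    _ = |x| ^ A * |kh k x| := mul_comm _ _
    _ ≤ CA A := h1

lemma off_comb {a b e η : ℝ} (ha : |a| ≤ e) (hb : |b| ≤ e) (hη : 0 < η) (hη1 : η ≤ 1) :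
    |2 * a - (1 + η) * b| ≤ 4 * e := by
  have h1 : |2 * a - (1 + η) * b| ≤ |2 * a| + |(1 + η) * b| := abs_sub _ _
  rw [abs_mul, abs_mul, abs_of_pos (by norm_num : (0 : ℝ) < 2),
    abs_of_pos (by linarith : (0 : ℝ) < 1 + η)] at h1
  have h2 : (1 + η) * |b| ≤ 2 * e := by
    have := abs_nonneg b
    exact mul_le_mul (by linarith) hb this (by norm_num)
  linarith

/-- regrouping of the near pairs -/
lemma off_regroup (N : ℕ) (n : ℕ) (J : ℕ) (E : ℝ) (hE0 : 0 ≤ E) (hJ : J = ⌊E⌋₊)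
    (F : ℕ → ℝ) (G : ℤ → ℝ) (hFG : ∀ m : ℕ, 0 < m → m ≤ N → F m = G ((m : ℤ) - n))
    (hG0 : ∀ j : ℤ, (n : ℤ) + j ≤ 0 → G j = 0) (hG1 : ∀ j : ℤ, (N : ℤ) < (n : ℤ) + j → G j = 0) :
    ∑ m ∈ ((Ioc 0 N).erase n).filter (fun m : ℕ => |(m : ℝ) - n| ≤ E), F m =
      ∑ j ∈ (Icc (-(J : ℤ)) J).erase 0, G j := by
  have hmem : ∀ j : ℤ, |(j : ℝ)| ≤ E ↔ j ∈ Icc (-(J : ℤ)) J := by
    intro j
    rw [mem_Icc, ← abs_le]
    have : |(j : ℝ)| = ((j.natAbs : ℕ) : ℝ) := by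
      rw [← Int.cast_abs, Int.abs_eq_natAbs]; simp
    rw [this, ← Nat.le_floor_iff hE0, ← hJ, Int.abs_eq_natAbs]
    exact_mod_cast Iff.rfl
  have h1 : ∑ j ∈ (Icc (-(J : ℤ)) J).erase 0, G j =
      ∑ j ∈ ((Icc (-(J : ℤ)) J).erase 0).filter (fun j => 0 < (n : ℤ) + j ∧ (n : ℤ) + j ≤ N),
        G j := by
    symm
    apply Finset.sum_filter_of_ne
    intro j _ hj
    by_contra hc
    apply hj
    rw [not_and_or] at hc
    rcases hc with hc | hc
    · exact hG0 j (by omega)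
    · exact hG1 j (by omega)
  rw [h1]
  refine Finset.sum_nbij' (fun m => (m : ℤ) - n) (fun j => ((n : ℤ) + j).toNat) ?_ ?_ ?_ ?_ ?_
  · intro m hm
    simp only [mem_filter, mem_erase, mem_Ioc] at hm
    obtain ⟨⟨hne, h0, hN⟩, hE⟩ := hm
    rw [mem_filter, mem_erase]
    refine ⟨⟨?_, ?_⟩, ?_, ?_⟩
    · intro h
      apply hne
      omega
    · rw [← hmem]
      push_cast
      exact hE
    · omega
    · omega
  · intro j hj
    rw [mem_filter, mem_erase, ← hmem] at hj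
    obtain ⟨⟨hj0, hjE⟩, h1, h2⟩ := hj
    rw [mem_filter, mem_erase, mem_Ioc]
    have h3 : (((n : ℤ) + j).toNat : ℤ) = (n : ℤ) + j := Int.toNat_of_nonneg (by omega)
    refine ⟨⟨?_, ?_, ?_⟩, ?_⟩
    · intro h
      apply hj0
      omega
    · omega
    · omega
    · have h4 : ((((n : ℤ) + j).toNat : ℕ) : ℝ) = (n : ℝ) + j := by
        have : (((((n : ℤ) + j).toNat : ℕ) : ℤ) : ℝ) = (((n : ℤ) + j : ℤ) : ℝ) := by rw [h3]
        push_cast at this
        exact this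
      rw [h4]
      have : (n : ℝ) + j - n = j := by ring
      rw [this]
      exact hjE
  · intro m hm
    simp
  · intro j hj
    rw [mem_filter] at hj
    have h3 : (((n : ℤ) + j).toNat : ℤ) = (n : ℤ) + j := Int.toNat_of_nonneg (by omega)
    rw [h3]
    ring
  · intro m hm
    simp only [mem_filter, mem_erase, mem_Ioc] at hm
    exact hFG m hm.1.2.1 hm.1.2.2

theorem off_small {W : ℝ → ℝ} (hW : ContDiff ℝ ∞ W) (h0 : ∀ u, 0 ≤ W u) (h1 : ∀ u, W u ≤ 1)
    (hs : ∀ u, 3 / 4 ≤ |u| → W u = 0) (ε : ℝ) (hε : 0 < ε) (hε1 : ε ≤ 1 / 10 ^ 4)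
    {κ : ℝ} {k : ℝ → ℝ} {CA : ℕ → ℝ} (hκ0 : 0 < κ) (hk : Ker κ k CA) (η : ℝ) (hη : 0 < η)
    (hη1 : η ≤ 1) :
    ∃ Y₀ : ℝ, ∀ y : ℝ, Y₀ ≤ y → ∀ lam : ℝ, 0 ≤ lam → lam ≤ 1 → ∀ c : ℝ,
      Real.exp (-(ε / 400) * y) ≤ c →
      |∑ n ∈ Ioc 0 ⌊Real.exp (y + 1)⌋₊, ∑ m ∈ (Ioc 0 ⌊Real.exp (y + 1)⌋₊).erase n,
        Vw W y n * Vw W y m * (2 * (vM n * gt (Real.exp y) ε lam m) -
          (1 + η) * (gt (Real.exp y) ε lam n * gt (Real.exp y) ε lam m)) *
            kh k (((m : ℝ) - n) * c)| ≤ 1 := by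
  obtain ⟨Y1, hY1⟩ := corr_V hW h0 h1 hs ε hε hε1
  obtain ⟨Y2, hY2⟩ := gt_bound ε hε hε1
  set A : ℕ := ⌈400 / ε⌉₊ with hA
  have hA' : 400 / ε ≤ (A : ℝ) := Nat.le_ceil _
  have hCA0 : 0 ≤ CA 0 := by
    have := hk.decay 0 0
    simp only [pow_zero, one_mul] at this
    exact (abs_nonneg _).trans this
  have hCA : 0 ≤ CA A := le_trans (by positivity) (hk.decay A 0)
  have hev1 := ev_exp 0 (24 * CA 0) (ε / 100 - ε / 60) 0 (by linarith)
  have hev2 := ev_exp 0 (8 * Real.exp 2 * CA A) (2 - 1 + 1 / 5 - 3) 0 (by norm_num)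
  obtain ⟨Y3, hY3⟩ := Filter.eventually_atTop.1 (hev1.and hev2)
  refine ⟨max (max Y1 Y2) (max Y3 10), fun y hy lam hlam0 hlam1 c hc => ?_⟩
  have hy1 : Y1 ≤ y := le_trans (le_trans (le_max_left _ _) (le_max_left _ _)) hy
  have hy2 : Y2 ≤ y := le_trans (le_trans (le_max_right _ _) (le_max_left _ _)) hy
  have hy3 : Y3 ≤ y := le_trans (le_trans (le_max_left _ _) (le_max_right _ _)) hy
  have hy4 : 10 ≤ y := le_trans (le_trans (le_max_right _ _) (le_max_right _ _)) hy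
  obtain ⟨hz1, hz2⟩ := hY3 y hy3
  simp only [pow_zero, mul_one, zero_mul, Real.exp_zero] at hz1 hz2
  set N : ℕ := ⌊Real.exp (y + 1)⌋₊ with hN
  set E : ℝ := Real.exp (ε / 100 * y) with hE
  have hE0 : 0 < E := Real.exp_pos _
  have hE1 : 1 ≤ E := Real.one_le_exp (by positivity)
  have hc0 : 0 < c := lt_of_lt_of_le (Real.exp_pos _) hc
  have hV0 : Vw W y 0 = 0 := by
    unfold Vw
    rw [Nat.cast_zero, Real.log_zero, hs _ (by rw [zero_sub, abs_neg, abs_of_nonneg (by linarith)]; linarith), mul_zero]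
  set F : ℕ → ℕ → ℝ := fun n m => Vw W y n * Vw W y m * (2 * (vM n * gt (Real.exp y) ε lam m) -
          (1 + η) * (gt (Real.exp y) ε lam n * gt (Real.exp y) ε lam m)) *
            kh k (((m : ℝ) - n) * c) with hF
  have hNle : (N : ℝ) ≤ Real.exp (y + 1) := Nat.floor_le (Real.exp_pos _).le
  -- splitting
  have hsplit : ∀ n, ∑ m ∈ (Ioc 0 N).erase n, F n m =
      ∑ m ∈ ((Ioc 0 N).erase n).filter (fun m : ℕ => |(m : ℝ) - n| ≤ E), F n m +
      ∑ m ∈ ((Ioc 0 N).erase n).filter (fun m : ℕ => ¬ |(m : ℝ) - n| ≤ E), F n m := fun n =>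
    (Finset.sum_filter_add_sum_filter_not _ _ _).symm
  have hgoal : ∑ n ∈ Ioc 0 N, ∑ m ∈ (Ioc 0 N).erase n, F n m =
      ∑ n ∈ Ioc 0 N, ∑ m ∈ ((Ioc 0 N).erase n).filter (fun m : ℕ => |(m : ℝ) - n| ≤ E), F n m +
      ∑ n ∈ Ioc 0 N, ∑ m ∈ ((Ioc 0 N).erase n).filter (fun m : ℕ => ¬ |(m : ℝ) - n| ≤ E), F n m := by
    rw [← Finset.sum_add_distrib]
    exact Finset.sum_congr rfl fun n _ => hsplit n
  -- bounds for the weights
  have hVb : ∀ n, |Vw W y n| ≤ Real.exp (-(y / 2)) := fun n => by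
    rw [abs_of_nonneg (Vw_nonneg h0 y n)]
    exact Vw_le h1 y n
  -- far part
  have hfar : |∑ n ∈ Ioc 0 N, ∑ m ∈ ((Ioc 0 N).erase n).filter (fun m : ℕ => ¬ |(m : ℝ) - n| ≤ E), F n m|
      ≤ 1 / 2 := by
    have hFb : ∀ n ∈ Ioc 0 N, ∀ m ∈ ((Ioc 0 N).erase n).filter (fun m : ℕ => ¬ |(m : ℝ) - n| ≤ E),
        |F n m| ≤ Real.exp (-y) * (4 * Real.exp (y / 5)) * (CA A * Real.exp (-(3 * y))) := by
      intro n hn m hm
      simp only [mem_filter, mem_erase, mem_Ioc, not_le] at hm hn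
      obtain ⟨⟨hne, hm0, hmN⟩, hmE⟩ := hm
      obtain ⟨hn0, hnN⟩ := hn
      have hne' : (n : ℝ) ≤ Real.exp (y + 1) := le_trans (by exact_mod_cast hnN) hNle
      have hme' : (m : ℝ) ≤ Real.exp (y + 1) := le_trans (by exact_mod_cast hmN) hNle
      obtain ⟨gn, vn⟩ := hY2 y hy2 lam hlam0 hlam1 n hn0 hne'
      obtain ⟨gm, vm⟩ := hY2 y hy2 lam hlam0 hlam1 m hm0 hme'
      have hvn0 : 0 ≤ vM n := ArithmeticFunction.vonMangoldt_nonneg
      have hexp5 : Real.exp (y / 10) * Real.exp (y / 10) = Real.exp (y / 5) := by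
        rw [← Real.exp_add]; congr 1; ring
      have hb1 : |vM n * gt (Real.exp y) ε lam m| ≤ Real.exp (y / 5) := by
        rw [abs_mul, abs_of_nonneg hvn0, ← hexp5]
        exact mul_le_mul vn gm (abs_nonneg _) (Real.exp_pos _).le
      have hb2 : |gt (Real.exp y) ε lam n * gt (Real.exp y) ε lam m| ≤ Real.exp (y / 5) := by
        rw [abs_mul, ← hexp5]
        exact mul_le_mul gn gm (abs_nonneg _) (Real.exp_pos _).le
      have hb3 : |2 * (vM n * gt (Real.exp y) ε lam m) -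
          (1 + η) * (gt (Real.exp y) ε lam n * gt (Real.exp y) ε lam m)| ≤ 4 * Real.exp (y / 5) := by
        exact off_comb hb1 hb2 hη hη1
      have hVV : |Vw W y n * Vw W y m| ≤ Real.exp (-y) := by
        rw [abs_mul]
        calc |Vw W y n| * |Vw W y m| ≤ Real.exp (-(y / 2)) * Real.exp (-(y / 2)) :=
              mul_le_mul (hVb n) (hVb m) (abs_nonneg _) (Real.exp_pos _).le
          _ = Real.exp (-y) := by rw [← Real.exp_add]; congr 1; ring
      have hR : Real.exp (3 * ε / 400 * y) ≤ |((m : ℝ) - n) * c| := by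
        rw [abs_mul, abs_of_pos hc0]
        calc Real.exp (3 * ε / 400 * y) = E * Real.exp (-(ε / 400) * y) := by
              rw [hE, ← Real.exp_add]; congr 1; ring
          _ ≤ |(m : ℝ) - n| * c := mul_le_mul hmE.le hc (Real.exp_pos _).le (abs_nonneg _)
      have hkh := off_kh_far hk A _ _ (Real.exp_pos _) hR
      have hkh2 : |kh k (((m : ℝ) - n) * c)| ≤ CA A * Real.exp (-(3 * y)) := by
        refine hkh.trans ?_
        rw [div_eq_mul_inv]
        apply mul_le_mul_of_nonneg_left _ hCA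
        rw [← Real.exp_nat_mul, ← Real.exp_neg]
        apply Real.exp_le_exp.2
        have h3 : 3 * y ≤ (A : ℝ) * (3 * ε / 400 * y) := by
          have : 3 * y = 400 / ε * (3 * ε / 400 * y) := by field_simp
          rw [this]
          exact mul_le_mul_of_nonneg_right hA' (by positivity)
        linarith
      rw [hF]
      simp only
      rw [abs_mul, abs_mul]
      exact mul_le_mul (mul_le_mul hVV hb3 (abs_nonneg _) (Real.exp_pos _).le) hkh2 (abs_nonneg _)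
        (by positivity)
    have hcard : ∀ n, ((((Ioc 0 N).erase n).filter (fun m : ℕ => ¬ |(m : ℝ) - n| ≤ E)).card : ℝ) ≤ N := by
      intro n
      have : (((Ioc 0 N).erase n).filter (fun m : ℕ => ¬ |(m : ℝ) - n| ≤ E)).card ≤ N := by
        calc _ ≤ ((Ioc 0 N).erase n).card := Finset.card_filter_le _ _
          _ ≤ (Ioc 0 N).card := Finset.card_le_card (Finset.erase_subset _ _)
          _ = N := by simp
      exact_mod_cast this
    set Bd : ℝ := Real.exp (-y) * (4 * Real.exp (y / 5)) * (CA A * Real.exp (-(3 * y))) with hBd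
    have hBd0 : 0 ≤ Bd := by positivity
    calc |∑ n ∈ Ioc 0 N, ∑ m ∈ ((Ioc 0 N).erase n).filter (fun m : ℕ => ¬ |(m : ℝ) - n| ≤ E), F n m|
        ≤ ∑ n ∈ Ioc 0 N, |∑ m ∈ ((Ioc 0 N).erase n).filter (fun m : ℕ => ¬ |(m : ℝ) - n| ≤ E), F n m| :=
          Finset.abs_sum_le_sum_abs _ _
      _ ≤ ∑ n ∈ Ioc 0 N, (N : ℝ) * Bd := by
          apply Finset.sum_le_sum
          intro n hn
          calc _ ≤ ∑ m ∈ ((Ioc 0 N).erase n).filter (fun m : ℕ => ¬ |(m : ℝ) - n| ≤ E), |F n m| :=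
                Finset.abs_sum_le_sum_abs _ _
            _ ≤ ∑ m ∈ ((Ioc 0 N).erase n).filter (fun m : ℕ => ¬ |(m : ℝ) - n| ≤ E), Bd :=
                Finset.sum_le_sum fun m hm => hFb n hn m hm
            _ = ((((Ioc 0 N).erase n).filter (fun m : ℕ => ¬ |(m : ℝ) - n| ≤ E)).card : ℝ) * Bd := by
                rw [Finset.sum_const, nsmul_eq_mul]
            _ ≤ (N : ℝ) * Bd := mul_le_mul_of_nonneg_right (hcard n) hBd0
      _ = (N : ℝ) * (N * Bd) := by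
          rw [Finset.sum_const, nsmul_eq_mul, Nat.card_Ioc, Nat.sub_zero]
      _ ≤ Real.exp (y + 1) * (Real.exp (y + 1) * Bd) := by
          apply mul_le_mul hNle (mul_le_mul_of_nonneg_right hNle hBd0) (by positivity) (Real.exp_pos _).le
      _ = (8 * Real.exp 2 * CA A * Real.exp ((2 - 1 + 1 / 5 - 3) * y)) / 2 := by
          have : Real.exp (y + 1) * (Real.exp (y + 1) * Bd) = 4 * CA A *
              (Real.exp (y + 1) * Real.exp (y + 1) * Real.exp (-y) * Real.exp (y / 5) *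
                Real.exp (-(3 * y))) := by rw [hBd]; ring
          rw [this]
          have h2 : Real.exp (y + 1) * Real.exp (y + 1) * Real.exp (-y) * Real.exp (y / 5) *
                Real.exp (-(3 * y)) = Real.exp 2 * Real.exp ((2 - 1 + 1 / 5 - 3) * y) := by
            rw [← Real.exp_add, ← Real.exp_add, ← Real.exp_add, ← Real.exp_add, ← Real.exp_add]
            congr 1
            ring
          rw [h2]
          ring
      _ ≤ 1 / 2 := by linarith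
  -- near part
  set J : ℕ := ⌊E⌋₊ with hJ
  have hJE : (J : ℝ) ≤ E := Nat.floor_le hE0.le
  set G : ℕ → ℤ → ℝ := fun n j => Vw W y n * Vw W y ((n : ℤ) + j).toNat *
      (2 * (vM n * gt (Real.exp y) ε lam ((n : ℤ) + j)) -
          (1 + η) * (gt (Real.exp y) ε lam n * gt (Real.exp y) ε lam ((n : ℤ) + j))) *
            kh k ((j : ℝ) * c) with hG
  have hnear : |∑ n ∈ Ioc 0 N, ∑ m ∈ ((Ioc 0 N).erase n).filter (fun m : ℕ => |(m : ℝ) - n| ≤ E), F n m|
      ≤ 1 / 2 := by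
    have hrw : ∑ n ∈ Ioc 0 N, ∑ m ∈ ((Ioc 0 N).erase n).filter (fun m : ℕ => |(m : ℝ) - n| ≤ E), F n m =
        ∑ j ∈ (Icc (-(J : ℤ)) J).erase 0, ∑ n ∈ Ioc 0 N, G n j := by
      rw [Finset.sum_comm]
      apply Finset.sum_congr rfl
      intro n hn
      apply off_regroup N n J E hE0.le hJ
      · intro m hm0 hmN
        rw [hF, hG]
        simp only
        have e1 : (n : ℤ) + ((m : ℤ) - n) = (m : ℤ) := by ring
        rw [e1, Int.toNat_natCast]
        push_cast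
        ring
      · intro j hj
        rw [hG]
        simp only
        rw [Int.toNat_of_nonpos hj, hV0]
        ring
      · intro j hj
        rw [hG]
        simp only
        rw [Vw_large hs y ((n : ℤ) + j).toNat (by rw [← hN]; omega)]
        ring
    rw [hrw]
    have hGj : ∀ j ∈ (Icc (-(J : ℤ)) J).erase 0, |∑ n ∈ Ioc 0 N, G n j| ≤
        4 * Real.exp (-(ε / 60) * y) * CA 0 := by
      intro j hj
      rw [mem_erase, mem_Icc] at hj
      obtain ⟨hj0, hj1, hj2⟩ := hj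
      have hjE : |(j : ℝ)| ≤ E := by
        refine le_trans ?_ hJE
        rw [abs_le]
        constructor
        · exact_mod_cast hj1
        · exact_mod_cast hj2
      obtain ⟨ha, hb⟩ := hY1 y hy1 lam hlam0 hlam1 j hj0 hjE
      have hsum : ∑ n ∈ Ioc 0 N, G n j =
          (2 * (∑ n ∈ Ioc 0 N, Vw W y n * Vw W y ((n : ℤ) + j).toNat *
            (vM n * gt (Real.exp y) ε lam ((n : ℤ) + j))) -
          (1 + η) * (∑ n ∈ Ioc 0 N, Vw W y n * Vw W y ((n : ℤ) + j).toNat *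
            (gt (Real.exp y) ε lam n * gt (Real.exp y) ε lam ((n : ℤ) + j)))) *
              kh k ((j : ℝ) * c) := by
        rw [Finset.mul_sum, Finset.mul_sum, ← Finset.sum_sub_distrib, Finset.sum_mul]
        apply Finset.sum_congr rfl
        intro n _
        rw [hG]
        simp only
        ring
      rw [hsum, abs_mul]
      have hk0 : |kh k ((j : ℝ) * c)| ≤ CA 0 := by
        have := hk.decay 0 ((j : ℝ) * c)
        simpa using this
      apply mul_le_mul _ hk0 (abs_nonneg _) (by positivity)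
      exact off_comb ha hb hη hη1
    have hcardJ : (((Icc (-(J : ℤ)) J).erase 0).card : ℝ) ≤ 3 * E := by
      have h2 : ((Icc (-(J : ℤ)) J).erase 0).card ≤ 2 * J + 1 := by
        calc _ ≤ (Icc (-(J : ℤ)) J).card := Finset.card_le_card (Finset.erase_subset _ _)
          _ = 2 * J + 1 := by rw [Int.card_Icc]; omega
      have h3 : (((Icc (-(J : ℤ)) J).erase 0).card : ℝ) ≤ 2 * (J : ℝ) + 1 := by exact_mod_cast h2
      linarith
    calc |∑ j ∈ (Icc (-(J : ℤ)) J).erase 0, ∑ n ∈ Ioc 0 N, G n j|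
        ≤ ∑ j ∈ (Icc (-(J : ℤ)) J).erase 0, |∑ n ∈ Ioc 0 N, G n j| := Finset.abs_sum_le_sum_abs _ _
      _ ≤ ∑ j ∈ (Icc (-(J : ℤ)) J).erase 0, 4 * Real.exp (-(ε / 60) * y) * CA 0 :=
          Finset.sum_le_sum hGj
      _ = (((Icc (-(J : ℤ)) J).erase 0).card : ℝ) * (4 * Real.exp (-(ε / 60) * y) * CA 0) := by
          rw [Finset.sum_const, nsmul_eq_mul]
      _ ≤ 3 * E * (4 * Real.exp (-(ε / 60) * y) * CA 0) :=
          mul_le_mul_of_nonneg_right hcardJ (by positivity)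
      _ = (24 * CA 0 * Real.exp ((ε / 100 - ε / 60) * y)) / 2 := by
          have : Real.exp ((ε / 100 - ε / 60) * y) = E * Real.exp (-(ε / 60) * y) := by
            rw [hE, ← Real.exp_add]; congr 1; ring
          rw [this]
          ring
      _ ≤ 1 / 2 := by linarith
  have hfinal : |∑ n ∈ Ioc 0 N, ∑ m ∈ (Ioc 0 N).erase n, F n m| ≤ 1 := by
    rw [hgoal]
    refine (abs_add_le _ _).trans ?_
    linarith
  exact hfinal

end Pool.Agent.Lib.MP_00e05b_nt.PC
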