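import Mathlib
import Pool.Agent.Lib.MP_00e05b_nt.PC.ZMain
import Pool.Agent.Lib.MP_00e05b_nt.PC.ZOff
import Pool.Agent.Lib.MP_00e05b_nt.PC.PDiag
import Pool.Agent.Lib.MP_00e05b_nt.FinalBase
import Pool.Agent.Lib.MP_00e05b_nt.ApproxB

/-!
# JOB PFin: `F(α, T) ≥ 1/2 + δ` for `1 ≤ α ≤ 1 + δ'` under RH

`window_beyond`: take `δ, ε, η` from `diag_gain`, `W` from `exists_bumpR2` with `r1 = t (1 - t)`, `r2 = t (1 - t/2)`, `κ = ρ = t`, `C1` from `approxB`, `k` from `exists_ker`, `c = cc t t T y = (1 - t) T / (2 π e^{y+t})`. `T ≥ e^{(1 - ε/1000) y}` gives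
`c ≥ e^{-(ε/400) y}` and `hlow` (`low_aux` in `SharpWindow.lean`: `e^{(2/3) y} ≤ T`) for large `y`. `main_ineq` with `g = gt (e ^ y) ε lam`: the diagonal `n = m` is `c kh k 0 (∑ V^2 (2 vM g - (1 + η) g^2)) ≥ c (1 - 3 t) (1/2 + δ) I2 y`
(`kh k 0 ≥ 1 - 3 t ≥ 0`), the off-diagonal part is `≥ - c` (`off_small`). So `∫ |SS|^2 ≥ e^y c [(1 - 3 t) (1/2 + δ) (2 t (1 - t)) y - 1 - C1^2/η]`, `e^y c = (1 - t) e^{-t} T/(2 π) ≥ (1 - t)^2 T/(2π)`, and `(1 - t)^3 (1 - 3 t) ≥ 1 - 6 t`, so the right side is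
`≥ 2 t (T/(2 π)) [(1 - 6 t) (1/2 + δ) y - C'] ≥ 2 t (T/(2 π)) (1 - 12 t) g` for `g ≤ (1/2 + δ) log T - θ y`, `log T ≤ y + C0`, `y` large (`C' = (1 + C1^2/η)/(2t)`; `θ y ≥ ...`, `6 t (1/2 + δ) y` and `θ y` absorb the constants).

`F_beyond`: `F_of_window_bound` with `a = 1/2 + δ`, `b = 0`, `cy = 1 - ε/1000`, `A1 = 1 + ε/2000` (`cy * A1 < 1`), `t = min (δ/100) (1/100)`, `θ = δ/8`: `r ≥ 1/2 + δ - (19 t + θ A1) ≥ 1/2 + δ/2`. Result with `δ' = min (δ/2) (ε/2000)`.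
-/

set_option autoImplicit false

open Finset Filter
open scoped ContDiff

namespace Pool.Agent.Lib.MP_00e05b_nt.PC

open Pool.Agent.Lib.MP_2a816b_nt Pool.Agent.Lib.MP_2a816b_nt.BH

theorem window_beyond (hRH : RiemannHypothesis) : ∃ (δ ε : ℝ), 0 < δ ∧ δ ≤ 1 / 4 ∧ 0 < ε ∧
    ε ≤ 1 / 10 ^ 4 ∧ ∀ t θ : ℝ, 0 < t → t ≤ 1 / 100 → 0 < θ → ∀ C0 : ℝ,
    ∀ᶠ y : ℝ in atTop, ∀ T g : ℝ, Real.exp ((1 - ε / 1000) * y) ≤ T → T ≤ Real.exp (y + C0) →
      0 ≤ g → g ≤ (1 / 2 + δ) * Real.log T - θ * y →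
      2 * t * (T / (2 * Real.pi)) * ((1 - 12 * t) * g) ≤ ∫ u in (y - t)..(y + t), ‖SS T u‖ ^ 2 := by
  obtain ⟨δ, ε, η, hδ, hδ1, hε, hε1, hη, hη1, hdiag⟩ := diag_gain hRH
  refine ⟨δ, ε, hδ, hδ1, hε, hε1, ?_⟩
  intro t θ ht0 ht1 hθ0 C0
  obtain ⟨W, hW, h0, h1, hs', hmass⟩ := exists_bumpR2 (r1 := t * (1 - t)) (r2 := t * (1 - t / 2))
    (by nlinarith) (by nlinarith) (by nlinarith)
  have hρ' : t * (1 - t / 2) < t := by nlinarith
  have hs : ∀ u, 3 / 4 ≤ |u| → W u = 0 := fun u hu => hs' u (by linarith)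
  have hI2 : 0 < I2 W := by
    have : 0 < 2 * (t * (1 - t)) := by
      have : 0 < 1 - t := by linarith
      positivity
    linarith
  obtain ⟨Y₁, hY₁⟩ := hdiag W hW h0 h1 hs hI2
  obtain ⟨C1, hC1, happ⟩ := approxB hRH hW h0 h1 (ρ' := t * (1 - t / 2)) (ρ := t) (κ := t) ht0 hρ'
    (by linarith) hs' ht0 (by linarith)
  obtain ⟨k, CA, hk⟩ := exists_ker (κ := t) ht0 (by linarith)
  obtain ⟨Y₂, hY₂⟩ := off_small hW h0 h1 hs ε hε hε1 (κ := t) ht0 hk η hη hη1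
  obtain ⟨D, hD⟩ : ∃ D : ℝ, D = 1 + C1 ^ 2 / η := ⟨_, rfl⟩
  have hD0 : 0 < D := by rw [hD]; positivity
  filter_upwards [eventually_ge_atTop Y₁, eventually_ge_atTop Y₂, eventually_ge_atTop 2,
    eventually_ge_atTop (((1 / 2 + δ) * |C0| + D / t) / θ),
    eventually_ge_atTop (4 * D / t),
    ev_exp 0 (2 * Real.pi / ((1 - t) * Real.exp (-t))) 0 (ε / 400 - ε / 1000) (by linarith),
    ev_exp 0 (1 / (t * (1 - t) * Real.exp (-(t + 1))) ^ 3) (1 / 2) 2 (by norm_num)]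
    with y hy1 hy2 hy3 hy4 hy5 hy6 hy7
  intro T g hT1 hT2 hg0 hg1
  have hy0 : 0 < y := by linarith
  have hpi := Real.pi_pos
  have h1t : 0 < 1 - t := by linarith
  have hT0 : 0 < T := (Real.exp_pos _).trans_le hT1
  have hT1' : Real.exp (2 / 3 * y) ≤ T := by
    refine (Real.exp_le_exp.2 ?_).trans hT1
    nlinarith
  have hTone : 1 ≤ T := by
    refine le_trans ?_ hT1'
    exact Real.one_le_exp (by positivity)
  rw [pow_zero, mul_one, zero_mul, Real.exp_zero, mul_one] at hy6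
  rw [pow_zero, mul_one] at hy7
  have hc0 : 0 < cc t t T y := cc_pos (by linarith) hT0
  have hce := cc_exp t t T y
  have hlow := low_aux (ρ := t) ht0 (by linarith : t < 1) hT1' hy7
  -- lower bound for c
  have hc : Real.exp (-(ε / 400) * y) ≤ cc t t T y := by
    have e1 : cc t t T y = ((1 - t) * (T / (2 * Real.pi)) * Real.exp (-t)) * Real.exp (-y) := by
      rw [← hce, mul_assoc, ← Real.exp_add]; simp
    rw [e1]
    have hb : 0 < (1 - t) * Real.exp (-t) := by positivity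
    rw [div_le_iff₀ hb] at hy6
    calc Real.exp (-(ε / 400) * y) = (2 * Real.pi) * (Real.exp (-(ε / 400) * y) / (2 * Real.pi)) := by
          field_simp
      _ ≤ (Real.exp ((ε / 400 - ε / 1000) * y) * ((1 - t) * Real.exp (-t))) *
          (Real.exp (-(ε / 400) * y) / (2 * Real.pi)) := by
          apply mul_le_mul_of_nonneg_right hy6 (by positivity)
      _ = ((1 - t) * (Real.exp ((1 - ε / 1000) * y) / (2 * Real.pi)) * Real.exp (-t)) *
          Real.exp (-y) := by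
          have e2 : Real.exp ((ε / 400 - ε / 1000) * y) * Real.exp (-(ε / 400) * y) =
            Real.exp ((1 - ε / 1000) * y) * Real.exp (-y) := by
            rw [← Real.exp_add, ← Real.exp_add]
            congr 1
            ring
          calc _ = (Real.exp ((ε / 400 - ε / 1000) * y) * Real.exp (-(ε / 400) * y)) *
                ((1 - t) * Real.exp (-t) / (2 * Real.pi)) := by ring
            _ = _ := by rw [e2]; ring
      _ ≤ _ := by gcongr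
  obtain ⟨lam, hl0, hl1, hdg⟩ := hY₁ y hy1
  have hof := hY₂ y hy2 lam hl0 hl1 _ hc
  have hmain := main_ineq hC1 ht0 (by linarith : t < 1) happ
    (fun T y => plancherel_ZR hW h0 h1 ht0 hρ' hs' T y) hk T y hTone hy3 ⌊Real.exp (y + 1)⌋₊
    (fun n hn => Vw_large hs y n hn) hlow (fun n => gt (Real.exp y) ε lam (n : ℤ)) η hη
  set c : ℝ := cc t t T y with hcdef
  set N : ℕ := ⌊Real.exp (y + 1)⌋₊ with hN
  set S : ℝ := ∫ u in (y - t)..(y + t), ‖SS T u‖ ^ 2 with hS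
  -- split the double sum
  have hsplit : ∑ n ∈ Ioc 0 N, ∑ m ∈ Ioc 0 N, Vw W y n * Vw W y m *
        (2 * (vM n * gt (Real.exp y) ε lam (m : ℤ)) -
          (1 + η) * (gt (Real.exp y) ε lam (n : ℤ) * gt (Real.exp y) ε lam (m : ℤ))) *
          (c * kh k (((m : ℝ) - n) * c)) =
      c * kh k 0 * (∑ n ∈ Ioc 0 N, Vw W y n ^ 2 *
          (2 * (vM n * gt (Real.exp y) ε lam n) - (1 + η) * gt (Real.exp y) ε lam n ^ 2)) +
      c * (∑ n ∈ Ioc 0 N, ∑ m ∈ (Ioc 0 N).erase n,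
        Vw W y n * Vw W y m * (2 * (vM n * gt (Real.exp y) ε lam m) -
          (1 + η) * (gt (Real.exp y) ε lam n * gt (Real.exp y) ε lam m)) *
            kh k (((m : ℝ) - n) * c)) := by
    rw [Finset.mul_sum, Finset.mul_sum, ← Finset.sum_add_distrib]
    apply Finset.sum_congr rfl
    intro n hn
    rw [← Finset.add_sum_erase _ _ hn, Finset.mul_sum, sub_self, zero_mul]
    congr 1
    · ring
    · apply Finset.sum_congr rfl
      intro m _
      ring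
  rw [hsplit] at hmain
  have hk0 := hk.mass
  have hk00 : 0 ≤ kh k 0 := by linarith
  have hof' := (abs_le.1 hof).1
  set Dg : ℝ := ∑ n ∈ Ioc 0 N, Vw W y n ^ 2 *
          (2 * (vM n * gt (Real.exp y) ε lam n) - (1 + η) * gt (Real.exp y) ε lam n ^ 2) with hDg
  set Of : ℝ := ∑ n ∈ Ioc 0 N, ∑ m ∈ (Ioc 0 N).erase n,
        Vw W y n * Vw W y m * (2 * (vM n * gt (Real.exp y) ε lam m) -
          (1 + η) * (gt (Real.exp y) ε lam n * gt (Real.exp y) ε lam m)) *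
            kh k (((m : ℝ) - n) * c) with hOf
  have hA : (1 / 2 + δ) * (2 * (t * (1 - t))) * y ≤ Dg := by
    refine le_trans ?_ hdg
    gcongr
  have hA0 : 0 ≤ (1 / 2 + δ) * (2 * (t * (1 - t))) * y := by positivity
  have hB : (1 - 3 * t) * ((1 / 2 + δ) * (2 * (t * (1 - t))) * y) ≤ kh k 0 * Dg :=
    mul_le_mul hk0 hA hA0 hk00
  have hC : c * ((1 - 3 * t) * ((1 / 2 + δ) * (2 * (t * (1 - t))) * y) - D) ≤
      Real.exp (-y) * S := by
    refine le_trans ?_ hmain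
    rw [hD]
    have e1 : c * ((1 - 3 * t) * ((1 / 2 + δ) * (2 * (t * (1 - t))) * y)) ≤ c * (kh k 0 * Dg) :=
      mul_le_mul_of_nonneg_left hB hc0.le
    have e2 : c * (-1) ≤ c * Of := mul_le_mul_of_nonneg_left hof' hc0.le
    linarith
  have hE : (1 - t) * (T / (2 * Real.pi)) * Real.exp (-t) *
      ((1 - 3 * t) * ((1 / 2 + δ) * (2 * (t * (1 - t))) * y) - D) ≤ S := by
    rw [← hce]
    have e3 := mul_le_mul_of_nonneg_left hC (Real.exp_pos y).le
    have e4 : Real.exp y * (Real.exp (-y) * S) = S := by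
      rw [← mul_assoc, ← Real.exp_add]; simp
    rw [e4] at e3
    refine le_trans (le_of_eq ?_) e3
    ring
  -- the final arithmetic
  have hlogT : Real.log T ≤ y + C0 := by
    rw [Real.log_le_iff_le_exp hT0]; exact hT2
  rw [div_le_iff₀ ht0] at hy5
  rw [div_le_iff₀ hθ0] at hy4
  have ex1 : 1 - t ≤ Real.exp (-t) := by
    have := Real.add_one_le_exp (-t)
    linarith
  have hBr : 0 ≤ (1 - 3 * t) * ((1 / 2 + δ) * (2 * (t * (1 - t))) * y) - D := by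
    have f1 : (1 / 2 : ℝ) ≤ (1 - 3 * t) * (1 - t) := by nlinarith
    have f2 : (1 / 2 : ℝ) ≤ 1 / 2 + δ := by linarith
    have f3 : (1 / 2 : ℝ) * (1 / 2) ≤ ((1 - 3 * t) * (1 - t)) * (1 / 2 + δ) :=
      mul_le_mul f1 f2 (by norm_num) (by nlinarith)
    have f4 : 2 * (y * t) * ((1 / 2 : ℝ) * (1 / 2)) ≤ 2 * (y * t) * (((1 - 3 * t) * (1 - t)) * (1 / 2 + δ)) :=
      mul_le_mul_of_nonneg_left f3 (by positivity)
    have f5 : (1 - 3 * t) * ((1 / 2 + δ) * (2 * (t * (1 - t))) * y) =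
      2 * (y * t) * (((1 - 3 * t) * (1 - t)) * (1 / 2 + δ)) := by ring
    rw [f5]
    linarith
  have hF : (T / (2 * Real.pi)) * (2 * t * ((1 - 6 * t) * ((1 / 2 + δ) * y)) - D) ≤ S := by
    refine le_trans ?_ hE
    have g1 : (T / (2 * Real.pi)) * ((1 - t) * (1 - t)) *
        ((1 - 3 * t) * ((1 / 2 + δ) * (2 * (t * (1 - t))) * y) - D) ≤
        (1 - t) * (T / (2 * Real.pi)) * Real.exp (-t) *
        ((1 - 3 * t) * ((1 / 2 + δ) * (2 * (t * (1 - t))) * y) - D) := by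
      apply mul_le_mul_of_nonneg_right _ hBr
      calc (T / (2 * Real.pi)) * ((1 - t) * (1 - t)) = (1 - t) * (T / (2 * Real.pi)) * (1 - t) := by
            ring
        _ ≤ _ := by gcongr
    refine le_trans ?_ g1
    rw [mul_assoc (T / (2 * Real.pi))]
    apply mul_le_mul_of_nonneg_left _ (by positivity)
    have g2 : 1 - 6 * t ≤ (1 - t) * (1 - t) * (1 - 3 * t) * (1 - t) := by
      have k1 : 1 - 3 * t ≤ (1 - t) * (1 - t) * (1 - t) := by nlinarith [sq_nonneg t]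
      have k2 : 1 - 6 * t ≤ (1 - 3 * t) * (1 - 3 * t) := by nlinarith [sq_nonneg t]
      have k3 : (1 - 3 * t) * (1 - 3 * t) ≤ ((1 - t) * (1 - t) * (1 - t)) * (1 - 3 * t) :=
        mul_le_mul_of_nonneg_right k1 (by linarith)
      calc 1 - 6 * t ≤ _ := k2.trans k3
        _ = _ := by ring
    have g3 : (1 - t) * (1 - t) ≤ 1 := by nlinarith
    have g4 : (1 - t) * (1 - t) * D ≤ 1 * D := mul_le_mul_of_nonneg_right g3 hD0.le
    have g5 : 2 * t * ((1 / 2 + δ) * y) * (1 - 6 * t) ≤ 2 * t * ((1 / 2 + δ) * y) *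
        ((1 - t) * (1 - t) * (1 - 3 * t) * (1 - t)) := mul_le_mul_of_nonneg_left g2 (by positivity)
    nlinarith
  refine le_trans ?_ hF
  have h6 : 2 * t * (T / (2 * Real.pi)) * ((1 - 12 * t) * g) =
      (T / (2 * Real.pi)) * (2 * t * ((1 - 12 * t) * g)) := by ring
  rw [h6]
  apply mul_le_mul_of_nonneg_left _ (by positivity)
  have h7 : (1 - 12 * t) * g ≤ (1 - 6 * t) * g := by
    apply mul_le_mul_of_nonneg_right _ hg0
    linarith
  have h8 : g ≤ (1 / 2 + δ) * (y + |C0|) - θ * y := by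
    have h9 : (1 / 2 + δ) * Real.log T ≤ (1 / 2 + δ) * (y + |C0|) := by
      apply mul_le_mul_of_nonneg_left _ (by linarith)
      linarith [le_abs_self C0]
    linarith
  have h10 : (1 - 6 * t) * g ≤ (1 - 6 * t) * ((1 / 2 + δ) * y - D / t) := by
    apply mul_le_mul_of_nonneg_left _ (by linarith)
    linarith
  have h11 : 2 * t * ((1 - 12 * t) * g) ≤ 2 * t * ((1 - 6 * t) * ((1 / 2 + δ) * y - D / t)) := by
    apply mul_le_mul_of_nonneg_left (h7.trans h10) (by positivity)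
  refine h11.trans ?_
  have h12 : 2 * t * ((1 - 6 * t) * ((1 / 2 + δ) * y - D / t)) =
      2 * t * ((1 - 6 * t) * ((1 / 2 + δ) * y)) - 2 * (1 - 6 * t) * D := by
    field_simp
  rw [h12]
  have h13 : 1 * D ≤ 2 * (1 - 6 * t) * D := by
    apply mul_le_mul_of_nonneg_right _ hD0.le
    linarith
  linarith

theorem F_beyond (hRH : RiemannHypothesis) : ∃ δ : ℝ, 0 < δ ∧ ∃ T₀ : ℝ, ∀ T : ℝ, T₀ ≤ T →
    ∀ α : ℝ, 1 ≤ α → α ≤ 1 + δ → ∃ r : ℝ, pairF α T = (r : ℂ) ∧ 1 / 2 + δ ≤ r := by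
  obtain ⟨δ, ε, hδ, hδ1, hε, hε1, hw⟩ := window_beyond hRH
  obtain ⟨t, ht⟩ : ∃ t : ℝ, t = min (δ / 100) (1 / 100) := ⟨_, rfl⟩
  have ht0 : 0 < t := by rw [ht]; exact lt_min (by positivity) (by norm_num)
  have ht1 : t ≤ 1 / 100 := by rw [ht]; exact min_le_right _ _
  have htδ : t ≤ δ / 100 := by rw [ht]; exact min_le_left _ _
  have hF := F_of_window_bound (t := t) (θ := δ / 8) (cy := 1 - ε / 1000) (a := 1 / 2 + δ) (b := 0)
    (A1 := 1 + ε / 2000) ht0 ht1 (by positivity) (by linarith) le_rfl (by linarith)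
    (by nlinarith [mul_pos hε hε])
    (fun C0 => by
      filter_upwards [hw t (δ / 8) ht0 ht1 (by positivity) C0] with y hy
      intro T g hT1 hT2 hg0 hg1
      exact hy T g hT1 hT2 hg0 (by linarith))
  obtain ⟨T₀, hT₀⟩ := hF
  refine ⟨min (δ / 2) (ε / 2000), lt_min (by positivity) (by positivity), T₀, ?_⟩
  intro T hT α hα1 hα2
  obtain ⟨r, hr1, _, hr3⟩ := hT₀ T hT α hα1 (hα2.trans (by linarith [min_le_right (δ / 2) (ε / 2000)]))
  refine ⟨r, hr1, ?_⟩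
  have h1 := min_le_left (δ / 2) (ε / 2000)
  refine le_trans ?_ hr3
  nlinarith

end Pool.Agent.Lib.MP_00e05b_nt.PC
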